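import Pool.Agent.Lib.MP_c50dba_nt.RD.Stmts

set_option autoImplicit false

/-!
An element which is bounded at all places by a dependent element is dependent.
-/

namespace Pool.Agent.Lib.MP_c50dba_nt.RD

open scoped BigOperators
open Pool.Agent.Lib.MP_c50dba_nt Pool.Agent.Lib.MP_c50dba_nt.LR MvPolynomial

namespace Depaux

theorem totalDegree_symm_le {F : Type} [Field F] {s D : ℕ}
    (Q : Polynomial (MvPolynomial (Fin s) F))
    (h : ∀ k, Q.coeff k ≠ 0 → (Q.coeff k).totalDegree + k ≤ D) :
    ((finSuccEquiv F s).symm Q).totalDegree ≤ D := by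
  unfold totalDegree
  refine Finset.sup_le fun m hm => ?_
  have h1 : coeff (Finsupp.tail m) (Q.coeff (m 0)) ≠ 0 := by
    have h2 := finSuccEquiv_coeff_coeff (Finsupp.tail m) ((finSuccEquiv F s).symm Q) (m 0)
    rw [AlgEquiv.apply_symm_apply, Finsupp.cons_tail] at h2
    rw [h2]
    exact mem_support_iff.mp hm
  have h2 : Q.coeff (m 0) ≠ 0 := by
    intro h0
    rw [h0, coeff_zero] at h1
    exact h1 rfl
  have h3 := le_totalDegree (mem_support_iff.mpr h1)
  have h4 := h _ h2
  have h5 : (m.sum fun _ e => e) = m 0 + ((Finsupp.tail m).sum fun _ e => e) := by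
    rw [Finsupp.sum_fintype _ _ (fun _ => rfl), Finsupp.sum_fintype _ _ (fun _ => rfl),
      Fin.sum_univ_succ]
    rfl
  omega

section

variable {F Ω : Type} [Field F] [Field Ω] [Algebra F Ω] {s d : ℕ}

/-- A relation as a polynomial in the first quantity. -/
theorem exists_pol {t : Fin s → Ω} {x : Ω}
    (h : ¬ Ind F d (Fin.cons x t : Fin (s + 1) → Ω)) :
    ∃ P : Polynomial (MvPolynomial (Fin s) F), P ≠ 0 ∧
      P.eval₂ (aeval t : MvPolynomial (Fin s) F →ₐ[F] Ω).toRingHom x = 0 ∧
      ∀ k, P.coeff k ≠ 0 → (P.coeff k).totalDegree + k ≤ d := by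
  unfold Ind at h
  push Not at h
  obtain ⟨Q, hQd, hQ0, hQne⟩ := h
  refine ⟨finSuccEquiv F s Q, ?_, ?_, ?_⟩
  · exact fun h => hQne ((map_eq_zero_iff _ (finSuccEquiv F s).injective).mp h)
  · rwa [aeval_cons] at hQ0
  · intro k hk
    exact (totalDegree_coeff_finSuccEquiv_add_le Q k hk).trans hQd

theorem not_ind_of_pol {t : Fin s → Ω} {x : Ω} (P : Polynomial (MvPolynomial (Fin s) F))
    (hP : P ≠ 0) (h0 : P.eval₂ (aeval t : MvPolynomial (Fin s) F →ₐ[F] Ω).toRingHom x = 0)
    (hd : ∀ k, P.coeff k ≠ 0 → (P.coeff k).totalDegree + k ≤ d) :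
    ¬ Ind F d (Fin.cons x t : Fin (s + 1) → Ω) := by
  intro h
  apply hP
  have h1 := h ((finSuccEquiv F s).symm P) (totalDegree_symm_le P hd) (by
    rw [aeval_cons, AlgEquiv.apply_symm_apply, ← h0])
  have h2 := congrArg (finSuccEquiv F s) h1
  rwa [AlgEquiv.apply_symm_apply, map_zero] at h2

end

/-- Comparison of products. -/
theorem prod_le {Ω Γ : Type} [LinearOrderedCommGroupWithZero Γ] {S R : Multiset Ω} {g : Ω → Ω}
    (hS : S.Nodup) (hg : ∀ a ∈ S, ∀ b ∈ S, g a = g b → a = b) (hR : ∀ a ∈ S, g a ∈ R) :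
    S.card ≤ R.card ∧ ∀ w : Ω → Γ, (∀ a, 1 ≤ w a) → (∀ a ∈ S, w a ≤ w (g a)) →
      (S.map w).prod ≤ (R.map w).prod := by
  classical
  have h1 : (S.map g).Nodup := (Multiset.nodup_map_iff_of_inj_on hg).2 hS
  have h2 : S.map g ≤ R := by
    rw [Multiset.le_iff_subset h1]
    intro b hb
    rw [Multiset.mem_map] at hb
    obtain ⟨a, ha, rfl⟩ := hb
    exact hR a ha
  refine ⟨?_, fun w hw1 hw => ?_⟩
  · rw [← Multiset.card_map g S]
    exact Multiset.card_le_card h2
  · obtain ⟨U, rfl⟩ := Multiset.le_iff_exists_add.1 h2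
    rw [Multiset.map_add, Multiset.prod_add, Multiset.map_map]
    have h3 : (S.map w).prod ≤ (S.map (w ∘ g)).prod := Multiset.prod_map_le_prod_map _ _ hw
    have h4 : 1 ≤ (U.map w).prod := Multiset.one_le_prod_of_one_le (by
      intro y hy
      rw [Multiset.mem_map] at hy
      obtain ⟨a, -, rfl⟩ := hy
      exact hw1 a)
    exact h3.trans (le_mul_of_one_le_right' h4)

end Depaux

open Depaux in
theorem stDep (h2 : StUfd) (h3 : StGaussUp) (h4 : StGaussLow) : StDep := by
  classical
  intro F Ω _ _ _ _ _ s d t ht j₀ L hL x z hx hσ hπ hinf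
  obtain ⟨φ, hφ⟩ : ∃ φ : MvPolynomial (Fin s) F →+* Ω,
    φ = (aeval t : MvPolynomial (Fin s) F →ₐ[F] Ω).toRingHom := ⟨_, rfl⟩
  have hφa : ∀ f, φ f = aeval t f := fun f => by rw [hφ]; rfl
  have hφi : Function.Injective φ := fun a b h => ht (by rwa [← hφa, ← hφa])
  have hφ0 : ∀ {f}, f ≠ 0 → φ f ≠ 0 := fun {f} hf => (map_ne_zero_iff φ hφi).2 hf
  obtain ⟨P, hP, hP0, hPd⟩ := exists_pol hx
  rw [← hφ] at hP0
  -- the polynomial `P` over the field generated by `t`
  obtain ⟨ψ, hψ⟩ : ∃ ψ : MvPolynomial (Fin s) F →+* IntermediateField.adjoin F (Set.range t),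
      φ = (algebraMap (IntermediateField.adjoin F (Set.range t)) Ω).comp ψ := by
    refine ⟨(aeval fun j => (⟨t j, IntermediateField.subset_adjoin F _ ⟨j, rfl⟩⟩ :
      IntermediateField.adjoin F (Set.range t)) : MvPolynomial (Fin s) F →ₐ[F]
        IntermediateField.adjoin F (Set.range t)).toRingHom, ?_⟩
    rw [hφ]
    refine MvPolynomial.ringHom_ext (fun c => ?_) fun j => ?_
    · simp [← IsScalarTower.algebraMap_apply]
    · simp
  obtain ⟨P', hP'⟩ : ∃ P' : Polynomial Ω, P' = P.map φ := ⟨_, rfl⟩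
  have hP'0 : P' ≠ 0 := by
    rw [hP']
    exact (Polynomial.map_ne_zero_iff hφi).2 hP
  have hdeg : P'.natDegree = P.natDegree := by
    rw [hP']
    exact Polynomial.natDegree_map_eq_of_injective hφi P
  have hlead : P'.leadingCoeff = φ P.leadingCoeff := by
    rw [Polynomial.leadingCoeff, hdeg, hP', Polynomial.coeff_map, Polynomial.leadingCoeff]
  have hlc0 : P.leadingCoeff ≠ 0 := Polynomial.leadingCoeff_ne_zero.2 hP
  -- the minimal polynomial of `z`
  have hzi : IsIntegral (IntermediateField.adjoin F (Set.range t)) z := IsIntegral.of_finite _ z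
  obtain ⟨m, hm⟩ : ∃ m, m = minpoly (IntermediateField.adjoin F (Set.range t)) z := ⟨_, rfl⟩
  have hmm : m.Monic := hm ▸ minpoly.monic hzi
  obtain ⟨m', hm'⟩ : ∃ m' : Polynomial Ω, m' = m.map (algebraMap _ Ω) := ⟨_, rfl⟩
  have hm'm : m'.Monic := hm' ▸ hmm.map _
  have hnod : m'.roots.Nodup := by
    rw [hm']
    refine Polynomial.nodup_roots (Polynomial.Separable.map ?_)
    rw [hm]
    exact (minpoly.irreducible hzi).separable
  have hcard : m'.roots.card = m.natDegree := by
    rw [Polynomial.splits_iff_card_roots.1 (IsAlgClosed.splits m'), hm', hmm.natDegree_map]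
  have hprod : (m'.roots.map fun a => Polynomial.X - Polynomial.C a).prod = m' :=
    ((IsAlgClosed.splits m').eq_prod_roots_of_monic hm'm).symm
  -- embeddings
  have hemb : ∀ r ∈ m'.roots, ∃ σ : L →ₐ[IntermediateField.adjoin F (Set.range t)] Ω,
      σ z = r := by
    intro r hr
    have h5 := Algebra.IsAlgebraic.range_eval_eq_rootSet_minpoly
      (F := IntermediateField.adjoin F (Set.range t)) (K := L) (A := Ω) z
    have h6 : r ∈ (minpoly (IntermediateField.adjoin F (Set.range t)) z).rootSet Ω := by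
      rw [Polynomial.rootSet, Finset.mem_coe, Multiset.mem_toFinset, Polynomial.aroots, ← hm,
        ← hm']
      exact hr
    rw [← h5] at h6
    exact h6
  choose! sg hsg using hemb
  obtain ⟨g, hg⟩ : ∃ g : Ω → Ω, g = fun r => sg r x := ⟨_, rfl⟩
  have hginj : ∀ a ∈ m'.roots, ∀ b ∈ m'.roots, g a = g b → a = b := by
    intro a ha b hb hab
    rw [hg] at hab
    rw [← hsg a ha, ← hsg b hb]
    exact hσ _ _ hab
  have hPL : Polynomial.aeval x (P.map ψ) = 0 := by
    apply (algebraMap L Ω).injective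
    rw [map_zero, ← Polynomial.aeval_algebraMap_apply, ← Polynomial.eval_map_algebraMap,
      Polynomial.map_map, ← hψ, Polynomial.eval_map]
    exact hP0
  have hgroot : ∀ a ∈ m'.roots, g a ∈ P'.roots := by
    intro a ha
    rw [Polynomial.mem_roots hP'0, Polynomial.IsRoot, hg, hP', hψ, ← Polynomial.map_map,
      Polynomial.eval_map_algebraMap]
    show Polynomial.aeval (sg a x) _ = 0
    rw [Polynomial.aeval_algHom_apply, hPL, map_zero]
  have hcmp := fun (V : ValuationSubring Ω) =>
    prod_le (Γ := V.ValueGroup) hnod hginj hgroot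
  have heE : m.natDegree ≤ P.natDegree := by
    obtain ⟨V, -, -⟩ := hinf
    rw [← hcard, ← hdeg]
    exact (hcmp V).1.trans (Polynomial.card_roots' _)
  -- the comparison of the products
  have hstar : ∀ (V : ValuationSubring Ω) (T : Ω),
      (∀ σ : L →ₐ[IntermediateField.adjoin F (Set.range t)] Ω,
        V.valuation (σ z / T) ≤ max 1 (V.valuation (σ x / T))) →
      (m'.roots.map fun a => max 1 (V.valuation (a / T))).prod ≤
        (P'.roots.map fun a => max 1 (V.valuation (a / T))).prod := by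
    intro V T hT
    refine (hcmp V).2 (fun a => max 1 (V.valuation (a / T))) (fun a => le_max_left _ _) ?_
    intro a ha
    refine max_le (le_max_left _ _) ?_
    have h5 := hT (sg a)
    rw [hsg a ha] at h5
    rw [hg]
    exact h5
  -- the coefficients
  obtain ⟨q, hq⟩ : ∃ q : ℕ → Ω, q = fun k => φ P.leadingCoeff * m'.coeff k := ⟨_, rfl⟩
  have hup : ∀ (V : ValuationSubring Ω) (T : Ω), T ≠ 0 →
      (∀ σ : L →ₐ[IntermediateField.adjoin F (Set.range t)] Ω,
        V.valuation (σ z / T) ≤ max 1 (V.valuation (σ x / T))) →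
      ∀ k ≤ m.natDegree, V.valuation (q k) ≤ V.valuation T ^ (m.natDegree - k) *
        (V.valuation P'.leadingCoeff *
          (P'.roots.map fun a => max 1 (V.valuation (a / T))).prod) := by
    intro V T hT0 hT k hk
    have h5 := h3 Ω V T hT0 m'.roots k (by rwa [hcard])
    rw [hprod, hcard] at h5
    rw [hq]
    show V.valuation (φ P.leadingCoeff * m'.coeff k) ≤ _
    rw [map_mul, ← hlead]
    calc V.valuation P'.leadingCoeff * V.valuation (m'.coeff k)
        ≤ V.valuation P'.leadingCoeff * (V.valuation T ^ (m.natDegree - k) *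
          (P'.roots.map fun a => max 1 (V.valuation (a / T))).prod) :=
          mul_le_mul_right (h5.trans (mul_le_mul_right (hstar V T hT) _)) _
      _ = _ := mul_left_comm _ _ _
  -- the coefficients are polynomials
  have hex : ∀ k ≤ m.natDegree, ∃ f : MvPolynomial (Fin s) F, q k = aeval t f := by
    intro k hk
    obtain ⟨f, g, hg0, hfg⟩ : ∃ f g : MvPolynomial (Fin s) F, g ≠ 0 ∧
        q k * aeval t g = aeval t f := by
      have h5 : m'.coeff k ∈ IntermediateField.adjoin F (Set.range t) := by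
        rw [hm', Polynomial.coeff_map]
        exact (m.coeff k).2
      rw [IntermediateField.mem_adjoin_range_iff] at h5
      obtain ⟨f, g, hfg⟩ := h5
      by_cases hg0 : g = 0
      · refine ⟨0, 1, one_ne_zero, ?_⟩
        rw [hq]
        show φ P.leadingCoeff * m'.coeff k * _ = _
        rw [hfg, hg0]
        simp
      · refine ⟨P.leadingCoeff * f, g, hg0, ?_⟩
        have h6 : aeval t g ≠ 0 := by
          rw [← hφa]
          exact hφ0 hg0
        rw [hq]
        show φ P.leadingCoeff * m'.coeff k * _ = _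
        rw [hfg, map_mul, hφa]
        field_simp
    refine h2 F Ω s t ht (q k) f g hg0 hfg fun π hp => ?_
    obtain ⟨V, hV, hVσ⟩ := hπ π hp
    refine ⟨V, hV, ?_⟩
    refine (hup V 1 one_ne_zero (fun σ => by simpa using hVσ σ) k hk).trans ?_
    obtain ⟨j, hj, hj0, hjle⟩ := h4 Ω V 1 one_ne_zero P' hP'0
    rw [map_one, one_pow, one_mul]
    rw [map_one, one_pow, mul_one] at hjle
    refine hjle.trans ?_
    rw [hP', Polynomial.coeff_map, hφa]
    exact hV.1 _
  choose! Q hQ using hex
  -- the degrees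
  have hQd : ∀ k ≤ m.natDegree, Q k ≠ 0 → (Q k).totalDegree + k ≤ d := by
    intro k hk hk0
    obtain ⟨V, hV, hVσ⟩ := hinf
    have hX0 : (X j₀ : MvPolynomial (Fin s) F) ≠ 0 := X_ne_zero _
    have hT0 : t j₀ ≠ 0 := by
      have := hφ0 hX0
      rwa [hφa, aeval_X] at this
    have hXd : ∀ n : ℕ, ((X j₀ : MvPolynomial (Fin s) F) ^ n).totalDegree = n := fun n =>
      totalDegree_X_pow j₀ n
    have hT1 : 1 ≤ V.valuation (t j₀) := by
      have h5 := (hV 1 (X j₀) one_ne_zero hX0).1 (by simp)
      rwa [map_one, map_one, aeval_X] at h5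
    have hTne : V.valuation (t j₀) ≠ 0 := (V.valuation.ne_zero_iff).2 hT0
    have h5 := hup V (t j₀) hT0 hVσ k hk
    obtain ⟨j, hj, hj0, hjle⟩ := h4 Ω V (t j₀) hT0 P' hP'0
    have hPj : P.coeff j ≠ 0 := by
      intro h0
      rw [hP', Polynomial.coeff_map, h0, map_zero] at hj0
      exact hj0 rfl
    have hPjd := hPd j hPj
    have hPE := hPd P.natDegree (by rwa [Polynomial.coeff_natDegree])
    rw [hdeg] at hj hjle
    have h6 : V.valuation (P'.coeff j) ≤ V.valuation (t j₀) ^ (d - j) := by
      have h7 := (hV (P.coeff j) (X j₀ ^ (d - j)) hPj (pow_ne_zero _ hX0)).1 (by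
        rw [hXd]
        omega)
      rw [map_pow, aeval_X, map_pow] at h7
      rwa [hP', Polynomial.coeff_map, hφa]
    have h7 : V.valuation (q k) ≤ V.valuation (t j₀) ^ (d - k) := by
      have h8 : V.valuation (q k) * V.valuation (t j₀) ^ (P.natDegree - j) ≤
          V.valuation (t j₀) ^ (d - k) * V.valuation (t j₀) ^ (P.natDegree - j) := by
        calc V.valuation (q k) * V.valuation (t j₀) ^ (P.natDegree - j)
            ≤ V.valuation (t j₀) ^ (m.natDegree - k) * (V.valuation P'.leadingCoeff *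
              (P'.roots.map fun a => max 1 (V.valuation (a / t j₀))).prod) *
                V.valuation (t j₀) ^ (P.natDegree - j) := mul_le_mul_left h5 _
          _ = V.valuation (t j₀) ^ (m.natDegree - k) * (V.valuation P'.leadingCoeff *
              (P'.roots.map fun a => max 1 (V.valuation (a / t j₀))).prod *
                V.valuation (t j₀) ^ (P.natDegree - j)) := mul_assoc _ _ _
          _ ≤ V.valuation (t j₀) ^ (m.natDegree - k) * V.valuation (t j₀) ^ (d - j) :=
              mul_le_mul_right (hjle.trans h6) _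
          _ = V.valuation (t j₀) ^ (m.natDegree - k + (d - j)) := (pow_add _ _ _).symm
          _ ≤ V.valuation (t j₀) ^ (d - k + (P.natDegree - j)) :=
              pow_le_pow_right₀ hT1 (by omega)
          _ = _ := pow_add _ _ _
      exact le_of_mul_le_mul_right h8 (pow_pos (zero_lt_iff.2 hTne) _)
    by_contra hcon
    have h8 := (hV (X j₀ ^ (d - k)) (Q k) (pow_ne_zero _ hX0) hk0).2 (by
      rw [hXd]
      omega)
    rw [map_pow, aeval_X, map_pow, ← hQ k hk] at h8
    exact absurd h7 (not_le.2 h8)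
  -- the relation
  obtain ⟨R, hR⟩ : ∃ R : Polynomial (MvPolynomial (Fin s) F),
    R = ∑ k ∈ Finset.range (m.natDegree + 1), Polynomial.monomial k (Q k) := ⟨_, rfl⟩
  have hRc : ∀ k, R.coeff k = if k ≤ m.natDegree then Q k else 0 := by
    intro k
    rw [hR, Polynomial.finsetSum_coeff]
    simp only [Polynomial.coeff_monomial, Finset.sum_ite_eq', Finset.mem_range]
    simp only [Nat.lt_succ_iff]
  refine not_ind_of_pol R ?_ ?_ ?_
  · intro h0
    have h5 := hRc m.natDegree
    rw [if_pos le_rfl, h0, Polynomial.coeff_zero] at h5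
    have h6 := hQ _ (le_refl m.natDegree)
    rw [← h5, map_zero, hq] at h6
    have h7 : m'.coeff m.natDegree = 1 := by
      rw [← hmm.natDegree_map (algebraMap _ Ω), ← hm']
      exact hm'm.coeff_natDegree
    have h8 : φ P.leadingCoeff * m'.coeff m.natDegree = 0 := h6
    rw [h7, mul_one] at h8
    exact hφ0 hlc0 h8
  · rw [← hφ, hR, Polynomial.eval₂_finsetSum]
    have h5 : ∀ k ∈ Finset.range (m.natDegree + 1),
        (Polynomial.monomial k (Q k)).eval₂ φ (z : Ω) =
          φ P.leadingCoeff * (m'.coeff k * (z : Ω) ^ k) := by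
      intro k hk
      rw [Finset.mem_range, Nat.lt_succ_iff] at hk
      rw [Polynomial.eval₂_monomial, hφa, ← hQ k hk, hq]
      show φ P.leadingCoeff * m'.coeff k * _ = _
      ring
    rw [Finset.sum_congr rfl h5, ← Finset.mul_sum]
    have h6 : m'.eval (z : Ω) = 0 := by
      rw [hm', Polynomial.eval_map_algebraMap]
      have h7 := minpoly.aeval (IntermediateField.adjoin F (Set.range t)) z
      rw [← hm] at h7
      have h8 := congrArg (algebraMap L Ω) h7
      rw [map_zero, ← Polynomial.aeval_algebraMap_apply] at h8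
      exact h8
    rw [Polynomial.eval_eq_sum_range, hm', hmm.natDegree_map, ← hm'] at h6
    rw [h6, mul_zero]
  · intro k hk
    rw [hRc] at hk ⊢
    split_ifs at hk ⊢ with h5
    · exact hQd k h5 hk
    · exact absurd rfl hk

end Pool.Agent.Lib.MP_c50dba_nt.RD
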