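import Mathlib
import Pool.Agent.Lib.MP_c50dba_nt.LR.ExcMain
import Pool.Agent.Lib.MP_c50dba_nt.Gen.CoreB

set_option autoImplicit false

/-!
Statements of the modules for the sharp bound on the exceptional subgroups.
Paper proofs: /team-store/MP_c50dba_rd_blueprint.md
-/

namespace Pool.Agent.Lib.MP_c50dba_nt.RD

open scoped BigOperators
open Pool.Agent.Lib.MP_c50dba_nt Pool.Agent.Lib.MP_c50dba_nt.Gen
open Pool.Agent.Lib.MP_c50dba_nt.LR MvPolynomial

/-! ### Part A: algebra -/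

section

variable {F Ω : Type} [Field F] [Field Ω] [Algebra F Ω]

/-- The valuation ring `V` lies over the prime polynomial `π`. -/
def OverPrime {s : ℕ} (t : Fin s → Ω) (π : MvPolynomial (Fin s) F) (V : ValuationSubring Ω) :
    Prop :=
  (∀ f : MvPolynomial (Fin s) F, V.valuation (aeval t f) ≤ 1) ∧
  (∀ f : MvPolynomial (Fin s) F, ¬ π ∣ f → V.valuation (aeval t f) = 1) ∧
  V.valuation (aeval t π) < 1

/-- The valuation ring `V` lies over the infinite place given by the total degree. -/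
def OverInf (F : Type) {Ω : Type} [Field F] [Field Ω] [Algebra F Ω] {s : ℕ} (t : Fin s → Ω)
    (V : ValuationSubring Ω) : Prop :=
  ∀ f g : MvPolynomial (Fin s) F, f ≠ 0 → g ≠ 0 →
    (f.totalDegree ≤ g.totalDegree → V.valuation (aeval t f) ≤ V.valuation (aeval t g)) ∧
    (f.totalDegree < g.totalDegree → V.valuation (aeval t f) < V.valuation (aeval t g))

end

/-- A1. Valuation rings over the primes. -/
def StOverPrime : Prop :=
  ∀ (F Ω : Type) [Field F] [Field Ω] [Algebra F Ω] (s : ℕ) (t : Fin s → Ω),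
    Function.Injective (aeval t : MvPolynomial (Fin s) F →ₐ[F] Ω) →
    ∀ π : MvPolynomial (Fin s) F, Prime π → ∃ V : ValuationSubring Ω, OverPrime t π V

/-- A2. Valuation rings over the infinite place. -/
def StOverInf : Prop :=
  ∀ (F Ω : Type) [Field F] [Field Ω] [Algebra F Ω] (s : ℕ) (t : Fin s → Ω),
    Function.Injective (aeval t : MvPolynomial (Fin s) F →ₐ[F] Ω) →
    ∃ V : ValuationSubring Ω, OverInf F t V

/-- A3. A quotient of polynomials which is integral at all primes is a polynomial. -/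
def StUfd : Prop :=
  ∀ (F Ω : Type) [Field F] [Field Ω] [Algebra F Ω] (s : ℕ) (t : Fin s → Ω),
    Function.Injective (aeval t : MvPolynomial (Fin s) F →ₐ[F] Ω) →
    ∀ (h : Ω) (f g : MvPolynomial (Fin s) F), g ≠ 0 → h * aeval t g = aeval t f →
    (∀ π : MvPolynomial (Fin s) F, Prime π →
      ∃ V : ValuationSubring Ω, OverPrime t π V ∧ V.valuation h ≤ 1) →
    ∃ q : MvPolynomial (Fin s) F, h = aeval t q

/-- A4. Upper bound for the coefficients of a product of linear polynomials. -/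
def StGaussUp : Prop :=
  ∀ (Ω : Type) [Field Ω] (V : ValuationSubring Ω) (T : Ω), T ≠ 0 → ∀ (S : Multiset Ω) (k : ℕ),
    k ≤ S.card →
    V.valuation ((S.map fun a => Polynomial.X - Polynomial.C a).prod.coeff k) ≤
      V.valuation T ^ (S.card - k) * (S.map fun a => max 1 (V.valuation (a / T))).prod

/-- A5. Lower bound for the coefficients of a polynomial. -/
def StGaussLow : Prop :=
  ∀ (Ω : Type) [Field Ω] [IsAlgClosed Ω] (V : ValuationSubring Ω) (T : Ω), T ≠ 0 →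
    ∀ P : Polynomial Ω, P ≠ 0 → ∃ k ≤ P.natDegree, P.coeff k ≠ 0 ∧
      V.valuation P.leadingCoeff * (P.roots.map fun a => max 1 (V.valuation (a / T))).prod *
        V.valuation T ^ (P.natDegree - k) ≤ V.valuation (P.coeff k)

/-- A6. An element `z` which is bounded by `x` at all places is dependent if `x` is. -/
def StDep : Prop :=
  ∀ (F Ω : Type) [Field F] [CharZero F] [Field Ω] [IsAlgClosed Ω] [Algebra F Ω] (s d : ℕ)
    (t : Fin s → Ω), Function.Injective (aeval t : MvPolynomial (Fin s) F →ₐ[F] Ω) →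
    ∀ (j₀ : Fin s)
      (L : IntermediateField (IntermediateField.adjoin F (Set.range t)) Ω),
      FiniteDimensional (IntermediateField.adjoin F (Set.range t)) L → ∀ x z : L,
    ¬ Ind F d (Fin.cons (x : Ω) t : Fin (s + 1) → Ω) →
    (∀ σ σ' : L →ₐ[IntermediateField.adjoin F (Set.range t)] Ω, σ x = σ' x → σ z = σ' z) →
    (∀ π : MvPolynomial (Fin s) F, Prime π → ∃ V : ValuationSubring Ω, OverPrime t π V ∧
      ∀ σ : L →ₐ[IntermediateField.adjoin F (Set.range t)] Ω,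
        V.valuation (σ z) ≤ max 1 (V.valuation (σ x))) →
    (∃ V : ValuationSubring Ω, OverInf F t V ∧
      ∀ σ : L →ₐ[IntermediateField.adjoin F (Set.range t)] Ω,
        V.valuation (σ z / t j₀) ≤ max 1 (V.valuation (σ x / t j₀))) →
    ¬ Ind F d (Fin.cons (z : Ω) t : Fin (s + 1) → Ω)

/-- A7. A valuation takes finitely many values on a finite dimensional space of constants. -/
def StFinVal : Prop :=
  ∀ (F Ω : Type) [Field F] [Field Ω] [Algebra F Ω] (V : ValuationSubring Ω),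
    (∀ c : F, V.valuation (algebraMap F Ω c) ≤ 1) →
    ∀ (U : Submodule F Ω) [FiniteDimensional F U], {γ | ∃ u ∈ U, γ = V.valuation u}.Finite

/-- A8. The family of subspaces. -/
def StFam : Prop :=
  ∀ (F Ω : Type) [Field F] [IsAlgClosed F] [CharZero F] [Field Ω] [IsAlgClosed Ω] [Algebra F Ω]
    (s d : ℕ) (t : Fin s → Ω), Function.Injective (aeval t : MvPolynomial (Fin s) F →ₐ[F] Ω) →
    1 ≤ d → ∀ (U : Submodule F Ω) [FiniteDimensional F U], (1 : Ω) ∈ U → (∀ j, t j ∈ U) →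
    ∃ 𝒱 : Set (Submodule F Ω), 𝒱.Finite ∧
      (∀ V ∈ 𝒱, V ≤ U ∧ (1 : Ω) ∈ V ∧ (∀ j, t j ∈ V) ∧
        Module.finrank F V ≤ (s + d).choose s) ∧
      ∀ x ∈ U, ¬ Ind F d (Fin.cons x t : Fin (s + 1) → Ω) → ∃ V ∈ 𝒱, x ∈ V

/-- A9. The rank of the group of a subspace which contains vectors independent of the `l i`. -/
def StRank : Prop :=
  ∀ (F Ω : Type) [Field F] [CharZero F] [Field Ω] [Algebra F Ω] (r M : ℕ) (b : Fin r → Ω)
    (l : Fin M → Ω), LinearIndependent F (Sum.elim b l : Fin r ⊕ Fin M → Ω) →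
    ∀ (V : Submodule F Ω) [FiniteDimensional F V], (∀ j, b j ∈ V) →
      Module.finrank ℤ (grp l V) + r ≤ Module.finrank F V

/-! ### Part B: the inhomogeneous theorem of Baker and Brumer -/

/-- The `m`-th derivative of `u ^ b * e ^ (w * u)` divided by `e ^ (w * u)`. -/
def pe {C : Type} [Field C] (b : ℕ) (w u : C) (m : ℕ) : C :=
  ∑ r ∈ Finset.range (m + 1),
    (m.choose r : C) * (b.descFactorial r : C) * u ^ (b - r) * w ^ (m - r)

/-- B1. Extrapolation for exponential polynomials. -/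
def StExtrapI : Prop :=
  ∀ (p : ℕ) [Fact p.Prime] (C : Type) [NormedField C] [CompleteSpace C] [IsUltrametricDist C]
    [NormedAlgebra ℚ_[p] C] (ι : Type) [Fintype ι] (c w : ι → C) (b : ι → ℕ),
    (∀ k, ‖c k‖ ≤ 1) → (∀ k, ‖w k‖ ≤ 1) → ∀ ϖ : C, ‖ϖ‖ ≤ 1 / 4 → ϖ ≠ 0 → ∀ S m : ℕ,
    (∀ i < S, ∀ j < m, ∑ k, c k * pe (b k) (w k) ((i : C) * ϖ) j *
      ex (w k * ((i : C) * ϖ)) = 0) →
    ∀ i₀ : ℕ, ‖∑ k, c k * pe (b k) (w k) ((i₀ : C) * ϖ) m * ex (w k * ((i₀ : C) * ϖ))‖ ≤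
      4 ^ m * (1 / 2) ^ (S * m)

section

open NumberField

variable {C : Type} [NormedField C] {K : Type} [Field K] [NumberField K] {n g : ℕ}

/-- The derivative of order `τ` at the point `∑ s j • y j` of the exponential polynomial with the
coefficients `ξ`; `pe` is used for the variable `σ₀`, whose values are `∑ s j * η j`. -/
noncomputable def dF (φ : K →+* C) (x : Fin g → Fin n → 𝓞 K) (A : Fin g → Fin n → K)
    (σ₀ : Fin n) (η : Fin n → 𝓞 K) {D₀ D : ℕ} (ξ : Fin D₀ × (Fin g → Fin D) → 𝓞 K)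
    (s τ : Fin n → ℕ) : C :=
  ∑ i : Fin D₀ × (Fin g → Fin D), φ (ξ i : K) * φ (apow A (fun j => (i.2 j : ℕ)) s) *
    ((∏ σ ∈ Finset.univ.erase σ₀, φ (kap x (fun j => (i.2 j : ℕ)) σ : K) ^ τ σ) *
      pe (i.1 : ℕ) (φ (kap x (fun j => (i.2 j : ℕ)) σ₀ : K))
        (φ (∑ j, (s j : K) * (η j : K))) (τ σ₀))

end

open NumberField in
/-- B2. The analytic upper bound. -/
def StUpperI : Prop :=
  ∀ (p : ℕ) [Fact p.Prime] (C : Type) [NormedField C] [CompleteSpace C] [IsUltrametricDist C]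
    [NormedAlgebra ℚ_[p] C] (K : Type) [Field K] [NumberField K] (φ : K →+* C) (n g : ℕ),
    1 ≤ n → ∀ (x : Fin g → Fin n → 𝓞 K) (y : Fin n → Fin n → C),
    (∀ j σ, ‖y j σ‖ ≤ ‖(p : C) ^ 2‖) → (Matrix.of y).det ≠ 0 →
    ∀ A : Fin g → Fin n → K, (∀ j j', φ (A j j') = ex (∑ σ, φ (x j σ : K) * y j' σ)) →
    ∀ (σ₀ : Fin n) (η : Fin n → 𝓞 K), (∀ j, φ (η j : K) = y j σ₀) →
    ∀ (D₀ D : ℕ) (ξ : Fin D₀ × (Fin g → Fin D) → 𝓞 K) (S t : ℕ), 2 ≤ S →
    ∀ B : ℝ, 0 ≤ B → (∀ σ j, ‖(Matrix.of y)⁻¹ σ j‖ ≤ B) →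
    (∀ s : Fin n → ℕ, (∀ j, s j < S) → ∀ τ : Fin n → ℕ, ∑ j, τ j < t →
      dF φ x A σ₀ η ξ s τ = 0) →
    ∀ s : Fin n → ℕ, (∀ j, s j < S) → ∀ τ : Fin n → ℕ, ∑ j, τ j = t →
      ‖dF φ x A σ₀ η ξ s τ‖ ^ n ≤ (B ^ t) ^ n * (4 * (1 / 2 : ℝ) ^ S) ^ t

/-- B3. Exponential polynomials are independent. -/
def StMomentsI : Prop :=
  ∀ (K : Type) [Field K] [CharZero K] (n : ℕ) (σ₀ : Fin n) (ι : Type) [Fintype ι]
    (κ : ι → Fin n → K), Function.Injective κ → ∀ (D₀ : ℕ) (ξ : Fin D₀ × ι → K),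
    (∀ τ : Fin n → ℕ, ∑ i, ξ i * ((∏ σ ∈ Finset.univ.erase σ₀, κ i.2 σ ^ τ σ) *
      pe (i.1 : ℕ) (κ i.2 σ₀) 0 (τ σ₀)) = 0) → ξ = 0

open NumberField in
/-- B4. p-adic Schneider-Lang theorem for one variable and `g` exponentials in `n ≤ g`
variables. -/
def StCoreI : Prop :=
  ∀ (p : ℕ) [Fact p.Prime] (C : Type) [NormedField C] [CompleteSpace C] [IsUltrametricDist C]
    [NormedAlgebra ℚ_[p] C] (K : Type) [Field K] [NumberField K] (φ : K →+* C) (n g : ℕ),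
    1 ≤ n → n ≤ g → ∀ (x : Fin g → Fin n → 𝓞 K),
    (∀ k k' : Fin g → ℕ, (∀ σ, ∑ j, (k j : 𝓞 K) * x j σ = ∑ j, (k' j : 𝓞 K) * x j σ) → k = k') →
    ∀ y : Fin n → Fin n → C, (∀ j σ, ‖y j σ‖ ≤ ‖(p : C) ^ 2‖) → (Matrix.of y).det ≠ 0 →
    ∀ A : Fin g → Fin n → K, (∀ j j', φ (A j j') = ex (∑ σ, φ (x j σ : K) * y j' σ)) →
    ∀ (σ₀ : Fin n) (η : Fin n → 𝓞 K), (∀ j, φ (η j : K) = y j σ₀) → False

/-- B5. The theorem of Baker and Brumer, inhomogeneous form. -/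
def StBakerI : Prop :=
  ∀ (p : ℕ) [Fact p.Prime] (L : PadicAlgCl p → PadicAlgCl p), IsIwasawaLog p L →
    ∀ (m : ℕ) (α : Fin m → PadicAlgCl p), (∀ i, α i ≠ 0) → (∀ i, IsAlgebraic ℚ (α i)) →
      LinearIndependent ℚ (fun i => L (α i)) →
      ∀ (β₀ : PadicAlgCl p) (β : Fin m → PadicAlgCl p), IsAlgebraic ℚ β₀ →
        (∀ i, IsAlgebraic ℚ (β i)) → β₀ + ∑ i, β i * L (α i) = 0 → β₀ = 0 ∧ β = 0

end Pool.Agent.Lib.MP_c50dba_nt.RD
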