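import Mathlib
import Pool.Agent.Lib.MP_c50dba_nt.RD.Stmts

set_option autoImplicit false

/-!
A valuation which is trivial on `F` takes finitely many values on a finite dimensional `F`-space.
-/

namespace Pool.Agent.Lib.MP_c50dba_nt.RD

namespace FinValaux

variable {F Ω : Type} [Field F] [Field Ω] [Algebra F Ω] {V : ValuationSubring Ω}

/-- The value of a nonzero constant. -/
theorem val_const (hV : ∀ c : F, V.valuation (algebraMap F Ω c) ≤ 1) {c : F} (hc : c ≠ 0) :
    V.valuation (algebraMap F Ω c) = 1 := by
  refine le_antisymm (hV c) ?_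
  have h1 := hV c⁻¹
  rw [map_inv₀, map_inv₀] at h1
  have h2 : V.valuation (algebraMap F Ω c) ≠ 0 := (map_ne_zero _).2 ((map_ne_zero _).2 hc)
  exact (inv_le_one₀ (zero_lt_iff.2 h2)).1 h1

/-- Vectors with distinct nonzero values are linearly independent. -/
theorem li (hV : ∀ c : F, V.valuation (algebraMap F Ω c) ≤ 1) {ι : Type} {u : ι → Ω}
    (hu : ∀ i, V.valuation (u i) ≠ 0) (hinj : Function.Injective fun i => V.valuation (u i)) :
    LinearIndependent F u := by
  classical
  rw [linearIndependent_iff']
  intro s c hs i hi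
  by_contra hne
  set s' := s.filter (fun i => c i ≠ 0) with hs'
  have hne' : s'.Nonempty := ⟨i, Finset.mem_filter.2 ⟨hi, hne⟩⟩
  obtain ⟨j, hj, hmax⟩ := s'.exists_max_image (fun i => V.valuation (u i)) hne'
  have hval : ∀ k ∈ s', V.valuation (c k • u k) = V.valuation (u k) := by
    intro k hk
    rw [Algebra.smul_def, map_mul, val_const hV (Finset.mem_filter.1 hk).2, one_mul]
  have hsum : ∑ k ∈ s', c k • u k = 0 := by
    rw [← hs, hs']
    refine Finset.sum_filter_of_ne fun k _ hk h => hk ?_
    rw [h, zero_smul]
  rw [← Finset.add_sum_erase _ _ hj] at hsum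
  have h1 : V.valuation (∑ k ∈ s'.erase j, c k • u k) < V.valuation (u j) := by
    refine Valuation.map_sum_lt _ (hu j) fun k hk => ?_
    rw [hval k (Finset.mem_of_mem_erase hk)]
    exact lt_of_le_of_ne (hmax k (Finset.mem_of_mem_erase hk))
      fun h => (Finset.ne_of_mem_erase hk) (hinj h)
  have h2 : c j • u j = -∑ k ∈ s'.erase j, c k • u k := eq_neg_of_add_eq_zero_left hsum
  rw [← hval j hj, h2, Valuation.map_neg] at h1
  exact lt_irrefl _ h1

end FinValaux

open FinValaux in
/-- A valuation which is trivial on `F` takes finitely many values on a finite dimensional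
`F`-space. -/
theorem stFinVal : StFinVal := by
  intro F Ω _ _ _ V hV U _
  by_contra hinf
  have hinf' : ({γ | ∃ u ∈ U, γ = V.valuation u} \ {0}).Infinite :=
    Set.Infinite.sdiff hinf (Set.finite_singleton 0)
  let g := hinf'.natEmbedding
  have hg : ∀ n, ∃ u ∈ U, (g n : V.ValueGroup) = V.valuation u := fun n => (g n).2.1
  choose u hu hgu using hg
  have h1 : LinearIndependent F u := by
    refine li hV (fun n => ?_) fun n m h => ?_
    · rw [← hgu n]
      exact (g n).2.2
    · apply g.injective
      apply Subtype.ext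
      rw [hgu n, hgu m]
      exact h
  have h2 : LinearIndependent F (fun n => (⟨u n, hu n⟩ : U)) :=
    LinearIndependent.of_comp U.subtype h1
  have h3 := h2.finite
  exact not_finite ℕ

end Pool.Agent.Lib.MP_c50dba_nt.RD
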