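import Pool.Agent.Lib.MP_c50dba_nt.RD.Fam
import Pool.Agent.Lib.MP_c50dba_nt.RD.FinVal

set_option autoImplicit false

/-!
The family of subspaces, with a uniform bound for the number of its members.
-/

namespace Pool.Agent.Lib.MP_c50dba_nt.RD

open scoped BigOperators
open Pool.Agent.Lib.MP_c50dba_nt Pool.Agent.Lib.MP_c50dba_nt.Gen
open Pool.Agent.Lib.MP_c50dba_nt.LR MvPolynomial

/-- The family of subspaces, uniform version. -/
def StFamU : Prop :=
  ∀ (s d n : ℕ), ∃ C : ℕ, ∀ (F Ω : Type) [Field F] [IsAlgClosed F] [CharZero F] [Field Ω]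
    [IsAlgClosed Ω] [Algebra F Ω] (t : Fin s → Ω),
    Function.Injective (aeval t : MvPolynomial (Fin s) F →ₐ[F] Ω) →
    1 ≤ d → ∀ (U : Submodule F Ω) [FiniteDimensional F U], Module.finrank F U ≤ n →
    (1 : Ω) ∈ U → (∀ j, t j ∈ U) →
    ∃ 𝒱 : Finset (Submodule F Ω), 𝒱.card ≤ C ∧
      (∀ V ∈ 𝒱, V ≤ U ∧ (1 : Ω) ∈ V ∧ (∀ j, t j ∈ V) ∧
        Module.finrank F V ≤ (s + d).choose s) ∧
      ∀ x ∈ U, ¬ Ind F d (Fin.cons x t : Fin (s + 1) → Ω) → ∃ V ∈ 𝒱, x ∈ V

namespace FamUaux

section

variable {F Ω : Type} [Field F] [Field Ω] [Algebra F Ω] {s : ℕ} {t : Fin s → Ω}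

/-- Dependent elements are zeros of polynomials of bounded degrees. -/
theorem exists_pol_dep {x : Ω} {d : ℕ} (h : ¬ Ind F d (Fin.cons x t : Fin (s + 1) → Ω)) :
    ∃ P : Polynomial (MvPolynomial (Fin s) F), P ≠ 0 ∧ P.natDegree ≤ d ∧
      P.leadingCoeff.totalDegree ≤ d ∧
      P.eval₂ (aeval t : MvPolynomial (Fin s) F →ₐ[F] Ω).toRingHom x = 0 := by
  unfold Ind at h
  push Not at h
  obtain ⟨Q, hQd, hQ0, hQne⟩ := h
  have hne : finSuccEquiv F s Q ≠ 0 :=
    fun h => hQne ((map_eq_zero_iff _ (finSuccEquiv F s).injective).mp h)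
  refine ⟨finSuccEquiv F s Q, hne, ?_, ?_, ?_⟩
  · rw [natDegree_finSuccEquiv]
    exact (degreeOf_le_totalDegree _ _).trans hQd
  · have h1 := totalDegree_coeff_finSuccEquiv_add_le Q (finSuccEquiv F s Q).natDegree
      (Polynomial.leadingCoeff_ne_zero.mpr hne)
    exact (le_self_add.trans h1).trans hQd
  · rw [← aeval_cons]
    exact hQ0

/-- The number of prime factors. -/
theorem card_factors {f : Multiset (MvPolynomial (Fin s) F)} (hf : ∀ π ∈ f, Prime π) :
    f.card ≤ f.prod.totalDegree := by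
  induction f using Multiset.induction_on with
  | empty => simp
  | cons π f ih =>
    have h1 : Prime π := hf π (Multiset.mem_cons_self π f)
    have h2 : ∀ π ∈ f, Prime π := fun π hπ => hf π (Multiset.mem_cons_of_mem hπ)
    have h3 : f.prod ≠ 0 := Multiset.prod_ne_zero fun h => (h2 0 h).ne_zero rfl
    rw [Multiset.prod_cons, Multiset.card_cons, totalDegree_mul_of_isDomain h1.ne_zero h3]
    have h4 : π.totalDegree ≠ 0 := by
      intro h0
      rw [totalDegree_eq_zero_iff_eq_C] at h0
      apply h1.not_isUnit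
      rw [h0]
      apply IsUnit.map
      rw [isUnit_iff_ne_zero]
      intro h5
      rw [h5, C_0] at h0
      exact h1.ne_zero h0
    have h5 := ih h2
    omega

/-- The number of values of a valuation on a space. -/
theorem card_values {V : ValuationSubring Ω}
    (hV : ∀ c : F, V.valuation (algebraMap F Ω c) ≤ 1) (W : Submodule F Ω)
    [FiniteDimensional F W] :
    {γ | ∃ u ∈ W, γ = V.valuation u}.ncard ≤ Module.finrank F W + 1 := by
  classical
  have hfin := stFinVal F Ω V hV W
  set T := hfin.toFinset.erase 0 with hT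
  have h1 : ∀ γ : T, ∃ u ∈ W, (γ : V.ValueGroup) = V.valuation u := by
    intro γ
    have h2 := Finset.mem_of_mem_erase γ.2
    rw [Set.Finite.mem_toFinset] at h2
    exact h2
  choose u hu hγ using h1
  have h2 : LinearIndependent F u := by
    refine FinValaux.li hV (fun γ => ?_) fun γ γ' h => ?_
    · rw [← hγ γ]
      exact Finset.ne_of_mem_erase γ.2
    · apply Subtype.ext
      rw [hγ γ, hγ γ']
      exact h
  have h3 : LinearIndependent F (fun γ => (⟨u γ, hu γ⟩ : W)) :=
    LinearIndependent.of_comp W.subtype h2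
  have h4 := h3.fintype_card_le_finrank
  rw [Fintype.card_coe] at h4
  have h5 : hfin.toFinset.card - 1 ≤ T.card := Finset.pred_card_le_card_erase
  rw [Set.ncard_eq_toFinset_card _ hfin]
  omega

end

/-- Coding of the elements of a finite set. -/
theorem exists_code {α : Type} {S : Set α} (hS : S.Finite) {m : ℕ} (hm : S.ncard ≤ m)
    (h0 : 0 < m) : ∃ e : α → Fin m, Set.InjOn e S := by
  classical
  rw [Set.ncard_eq_toFinset_card _ hS] at hm
  refine ⟨fun a => if h : a ∈ hS.toFinset then Fin.castLE hm (hS.toFinset.equivFin ⟨a, h⟩)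
    else ⟨0, h0⟩, ?_⟩
  intro a ha a' ha' h
  have h1 : a ∈ hS.toFinset := hS.mem_toFinset.mpr ha
  have h2 : a' ∈ hS.toFinset := hS.mem_toFinset.mpr ha'
  simp only [h1, h2, dif_pos] at h
  have h3 := hS.toFinset.equivFin.injective (Fin.castLE_injective hm h)
  exact congrArg Subtype.val h3

/-- The number of embeddings. -/
theorem card_emb {K Ω : Type} [Field K] [Field Ω] [Algebra K Ω] {m d : ℕ} (x : Fin m → Ω)
    [Finite (IntermediateField.adjoin K (Set.range x) →ₐ[K] Ω)]
    (R : Fin m → Finset Ω) (hR : ∀ i, (R i).card ≤ d)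
    (h : ∀ (σ : IntermediateField.adjoin K (Set.range x) →ₐ[K] Ω) (i : Fin m),
      σ ⟨x i, IntermediateField.subset_adjoin K _ ⟨i, rfl⟩⟩ ∈ R i) :
    Nat.card (IntermediateField.adjoin K (Set.range x) →ₐ[K] Ω) ≤ d ^ m := by
  classical
  have := Fintype.ofFinite (IntermediateField.adjoin K (Set.range x) →ₐ[K] Ω)
  rw [Nat.card_eq_fintype_card, ← Finset.card_univ]
  have h1 : (Finset.univ : Finset (IntermediateField.adjoin K (Set.range x) →ₐ[K] Ω)).card ≤
      (Fintype.piFinset R).card := by
    refine Finset.card_le_card_of_injOn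
      (fun σ i => σ ⟨x i, IntermediateField.subset_adjoin K _ ⟨i, rfl⟩⟩) ?_ ?_
    · intro σ _
      exact Fintype.mem_piFinset.mpr fun i => h σ i
    · intro σ _ σ' _ hσ
      refine IntermediateField.adjoin_algHom_ext K ?_
      rintro _ ⟨i, rfl⟩
      exact congrFun hσ i
  refine h1.trans ?_
  rw [Fintype.card_piFinset]
  refine (Finset.prod_le_prod' fun i _ => hR i).trans ?_
  rw [Finset.prod_const, Finset.card_univ, Fintype.card_fin]

/-- Constants are dependent. -/
theorem dep_one {F Ω : Type} [Field F] [Field Ω] [Algebra F Ω] {s d : ℕ} (t : Fin s → Ω)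
    (hd : 1 ≤ d) : ¬ Ind F d (Fin.cons (1 : Ω) t : Fin (s + 1) → Ω) := by
  intro h
  have h1 := h (X 0 - 1) ?_ ?_
  · have h2 := congrArg (eval (fun _ => (0 : F))) h1
    rw [map_sub, eval_X, map_one, map_zero, zero_sub] at h2
    exact one_ne_zero (neg_eq_zero.mp h2)
  · refine (totalDegree_sub _ _).trans ?_
    rw [totalDegree_X, totalDegree_one]
    exact max_le hd (Nat.zero_le d)
  · rw [map_sub, aeval_X, map_one, Fin.cons_zero, sub_self]

/-- The elements `t j` are dependent. -/
theorem dep_t {F Ω : Type} [Field F] [Field Ω] [Algebra F Ω] {s d : ℕ} (t : Fin s → Ω)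
    (hd : 1 ≤ d) (j : Fin s) : ¬ Ind F d (Fin.cons (t j) t : Fin (s + 1) → Ω) := by
  intro h
  have h1 := h (X 0 - X j.succ) ?_ ?_
  · have h2 := congrArg (eval (Fin.cons 1 fun _ => 0 : Fin (s + 1) → F)) h1
    rw [map_sub, eval_X, eval_X, map_zero, Fin.cons_zero, Fin.cons_succ, sub_zero] at h2
    exact one_ne_zero h2
  · refine (totalDegree_sub _ _).trans ?_
    rw [totalDegree_X, totalDegree_X]
    exact max_le hd hd
  · rw [map_sub, aeval_X, aeval_X, Fin.cons_zero, Fin.cons_succ, sub_self]

end FamUaux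

open Famaux FamUaux in
/-- The family of subspaces, uniform version. -/
theorem stFamU (h1 : StOverPrime) (h2 : StOverInf) (h6 : StDep) : StFamU := by
  classical
  intro s d n
  rcases s with _ | s
  · refine ⟨1, ?_⟩
    intro F Ω _ _ _ _ _ _ t ht hd U hUfin hUn h1U htU
    refine ⟨{Submodule.span F {(1 : Ω)}}, (Finset.card_singleton _).le, ?_, ?_⟩
    · intro V hV
      rw [Finset.mem_singleton] at hV
      subst hV
      refine ⟨?_, Submodule.mem_span_singleton_self 1, fun j => j.elim0, ?_⟩
      · rw [Submodule.span_le, Set.singleton_subset_iff]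
        exact h1U
      · rw [Nat.choose_zero_right]
        exact (finrank_span_le_card ({(1 : Ω)} : Set Ω)).trans (by simp)
    · intro x hx h
      exact ⟨_, Finset.mem_singleton_self _, (exc_family_zero U d hx h).2⟩
  · refine ⟨2 ^ (d ^ n * d ^ n) * (n + 1) ^ ((n * d + 1) * d ^ n), ?_⟩
    intro F Ω _ _ _ _ _ _ t ht hd U hUfin hUn h1U htU
    set G : Set Ω := {x | x ∈ U ∧ ¬ Ind F d (Fin.cons x t : Fin (s + 1 + 1) → Ω)} with hG
    set U' : Submodule F Ω := Submodule.span F G with hU'
    have hU'U : U' ≤ U := Submodule.span_le.mpr fun x hx => hx.1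
    have hfinU' : FiniteDimensional F U' := Submodule.finiteDimensional_of_le hU'U
    have hmn : Module.finrank F U' ≤ n := (Submodule.finrank_mono hU'U).trans hUn
    have h1U' : (1 : Ω) ∈ U' := Submodule.subset_span ⟨h1U, dep_one t hd⟩
    have htU' : ∀ j, t j ∈ U' := fun j => Submodule.subset_span ⟨htU j, dep_t t hd j⟩
    obtain ⟨b, hbG, hbspan, -⟩ := Submodule.exists_fun_fin_finrank_span_eq F G
    let L : IntermediateField (IntermediateField.adjoin F (Set.range t)) Ω :=
      IntermediateField.adjoin _ (Set.range b)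
    have hLfin : FiniteDimensional (IntermediateField.adjoin F (Set.range t)) L := by
      have : Finite (Set.range b) := Set.finite_range _
      apply IntermediateField.finiteDimensional_adjoin
      rintro _ ⟨i, rfl⟩
      exact (alg_of_dep ht (hbG i).2).isIntegral
    have hle : ∀ W : Submodule F Ω, (∀ i, b i ∈ W) → U' ≤ W := by
      intro W hW
      rw [hU', ← hbspan, Submodule.span_le]
      rintro _ ⟨i, rfl⟩
      exact hW i
    have hbL : ∀ i, b i ∈ L := fun i => IntermediateField.subset_adjoin _ (Set.range b) ⟨i, rfl⟩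
    have hUL : ∀ u ∈ U', u ∈ L := by
      have h8 : U' ≤ Fsp L := hle _ hbL
      exact fun u hu => h8 hu
    choose P hP0 hPd hPl hP using fun i => exists_pol_dep (hbG i).2
    let D₀ : MvPolynomial (Fin (s + 1)) F := ∏ i, (P i).leadingCoeff
    have hD₀ : D₀ ≠ 0 := Finset.prod_ne_zero_iff.mpr fun i _ =>
      Polynomial.leadingCoeff_ne_zero.mpr (hP0 i)
    have hD₀d : D₀.totalDegree ≤ n * d := by
      refine (totalDegree_finsetProd _ _).trans ?_
      refine (Finset.sum_le_card_nsmul _ _ d fun i _ => hPl i).trans ?_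
      rw [Finset.card_univ, Fintype.card_fin, smul_eq_mul]
      exact Nat.mul_le_mul_right d hmn
    -- the embeddings
    have hH := Fintype.ofFinite (L →ₐ[IntermediateField.adjoin F (Set.range t)] Ω)
    have hHcard : Fintype.card (L →ₐ[IntermediateField.adjoin F (Set.range t)] Ω) ≤ d ^ n := by
      rw [← Nat.card_eq_fintype_card]
      refine (card_emb b (fun i => ((P i).map (aeval t :
        MvPolynomial (Fin (s + 1)) F →ₐ[F] Ω).toRingHom).roots.toFinset) (fun i => ?_)
        fun σ i => ?_).trans (Nat.pow_le_pow_right hd hmn)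
      · refine (Multiset.toFinset_card_le _).trans ((Polynomial.card_roots' _).trans ?_)
        exact (Polynomial.natDegree_map_le).trans (hPd i)
      · rw [Multiset.mem_toFinset, Polynomial.mem_roots
          ((Polynomial.map_ne_zero_iff ht).mpr (hP0 i)), Polynomial.IsRoot, Polynomial.eval_map]
        exact eval_conj L σ ⟨b i, hbL i⟩ (P i) (hP i)
    -- the primes which do not divide the denominator
    have hgood : ∀ π, ¬ π ∣ D₀ → ∀ V : ValuationSubring Ω, OverPrime t π V →
        ∀ σ : L →ₐ[IntermediateField.adjoin F (Set.range t)] Ω, ∀ u (hu : u ∈ U'),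
        V.valuation (σ ⟨u, hUL u hu⟩) ≤ 1 := by
      intro π hπ V hV σ
      have h8 : U' ≤ Bsp L σ V (overPrime_const hV) 1 1 := by
        refine hle _ fun i => ⟨hbL i, ?_⟩
        rw [div_one]
        have h9 := eval_conj L σ ⟨b i, hbL i⟩ (P i) (hP i)
        rw [← Polynomial.eval_map] at h9
        refine val_root V _ (fun j => ?_) ?_ h9
        · rw [Polynomial.coeff_map]
          exact hV.1 _
        · rw [Polynomial.leadingCoeff_map_of_injective ht]
          refine hV.2.1 _ fun h11 => hπ (h11.trans ?_)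
          exact Finset.dvd_prod_of_mem (fun i => (P i).leadingCoeff) (Finset.mem_univ i)
      intro u hu
      obtain ⟨_, h12⟩ := h8 hu
      rwa [div_one] at h12
    -- the valuations
    obtain ⟨f, hf, hfD⟩ := UniqueFactorizationMonoid.exists_prime_factors D₀ hD₀
    obtain ⟨Vinf, hVinf⟩ := h2 F Ω (s + 1) t ht
    choose Vp hVp using h1 F Ω (s + 1) t ht
    have hprime : ∀ π ∈ f.toFinset, Prime π := fun π hπ => hf π (Multiset.mem_toFinset.mp hπ)
    let I : Type := Option {π // π ∈ f.toFinset}
    have hIcard : Fintype.card I ≤ n * d + 1 := by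
      have h8 : Fintype.card I = f.toFinset.card + 1 := by
        rw [Fintype.card_option, Fintype.card_coe]
      rw [h8]
      refine Nat.succ_le_succ ((Multiset.toFinset_card_le f).trans ((card_factors hf).trans ?_))
      exact (totalDegree_le_of_dvd_of_isDomain hfD.dvd hD₀).trans hD₀d
    let W : I → ValuationSubring Ω := fun i => match i with
      | none => Vinf
      | some π => Vp π.1 (hprime π.1 π.2)
    let T : I → Ω := fun i => match i with
      | none => t 0
      | some _ => 1
    have hWc : ∀ (i : I) (c : F), (W i).valuation (algebraMap F Ω c) ≤ 1 := by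
      rintro (_ | π) c
      · exact overInf_const hVinf c
      · exact overPrime_const (hVp π.1 (hprime π.1 π.2)) c
    have hX : ∀ j, (X j : MvPolynomial (Fin (s + 1)) F) ≠ 0 := fun j => X_ne_zero j
    have ht0 : t 0 ≠ 0 := by
      intro h
      apply hX 0
      apply ht
      rw [aeval_X, h, map_zero]
    have hdiv : ∀ y, Vinf.valuation y ≤ Vinf.valuation (t 0) → Vinf.valuation (y / t 0) ≤ 1 := by
      intro y hy
      rw [map_div₀]
      exact div_le_one_of_le₀ hy zero_le
    have hW1 : ∀ i : I, (W i).valuation (1 / T i) ≤ 1 := by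
      rintro (_ | π)
      · apply hdiv
        have h := (hVinf 1 (X 0) one_ne_zero (hX 0)).1 (by
          rw [totalDegree_one]
          exact Nat.zero_le _)
        rwa [map_one, aeval_X] at h
      · change (Vp π.1 (hprime π.1 π.2)).valuation (1 / 1) ≤ 1
        rw [div_one, map_one]
    have hWt : ∀ (i : I) j, (W i).valuation (t j / T i) ≤ 1 := by
      rintro (_ | π) j
      · apply hdiv
        have h := (hVinf (X j) (X 0) (hX j) (hX 0)).1 (by
          rw [totalDegree_X, totalDegree_X])
        rwa [aeval_X, aeval_X] at h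
      · change (Vp π.1 (hprime π.1 π.2)).valuation (t j / 1) ≤ 1
        rw [div_one]
        have h := (hVp π.1 (hprime π.1 π.2)).1 (X j)
        rwa [aeval_X] at h
    -- the patterns
    have hval : ∀ (i : I) (σ : L →ₐ[IntermediateField.adjoin F (Set.range t)] Ω),
        ∃ e : (W i).ValueGroup → Fin (n + 1), Set.InjOn e
          {γ : (W i).ValueGroup | ∃ u : U',
            γ = max 1 ((W i).valuation (σ ⟨u, hUL u u.2⟩ / T i))} := by
      intro i σ
      have h8 := stFinVal F Ω (W i) (hWc i) (LinearMap.range (conjMap U' L hUL σ (T i)))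
      have h9 := card_values (hWc i) (LinearMap.range (conjMap U' L hUL σ (T i)))
      have h10 : {γ : (W i).ValueGroup | ∃ u : U',
            γ = max 1 ((W i).valuation (σ ⟨u, hUL u u.2⟩ / T i))} ⊆
          (fun γ => max 1 γ) '' {γ | ∃ u ∈ LinearMap.range (conjMap U' L hUL σ (T i)),
            γ = (W i).valuation u} := by
        rintro γ ⟨u, rfl⟩
        exact ⟨_, ⟨_, ⟨u, rfl⟩, rfl⟩, rfl⟩
      have h11 : Module.finrank F (LinearMap.range (conjMap U' L hUL σ (T i))) ≤ n :=
        (LinearMap.finrank_range_le _).trans hmn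
      refine exists_code ((h8.image _).subset h10) ?_ (Nat.succ_pos n)
      refine (Set.ncard_le_ncard h10 (h8.image _)).trans ((Set.ncard_image_le h8).trans ?_)
      omega
    choose e he using hval
    let code : L → ((L →ₐ[IntermediateField.adjoin F (Set.range t)] Ω) ×
        (L →ₐ[IntermediateField.adjoin F (Set.range t)] Ω) → Bool) ×
        (I × (L →ₐ[IntermediateField.adjoin F (Set.range t)] Ω) → Fin (n + 1)) :=
      fun x => (fun p => decide (p.1 x = p.2 x),
        fun q => e q.1 q.2 (max 1 ((W q.1).valuation (q.2 x / T q.1))))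
    let Vc : (((L →ₐ[IntermediateField.adjoin F (Set.range t)] Ω) ×
        (L →ₐ[IntermediateField.adjoin F (Set.range t)] Ω) → Bool) ×
        (I × (L →ₐ[IntermediateField.adjoin F (Set.range t)] Ω) → Fin (n + 1))) →
        Submodule F Ω :=
      fun c => Submodule.span F (({1} ∪ Set.range t) ∪ {x | ∃ hx : x ∈ U',
        ¬ Ind F d (Fin.cons x t : Fin (s + 1 + 1) → Ω) ∧ code ⟨x, hUL x hx⟩ = c})
    let i1 : Fintype (I × (L →ₐ[IntermediateField.adjoin F (Set.range t)] Ω)) := inferInstance
    let i2 : Fintype ((L →ₐ[IntermediateField.adjoin F (Set.range t)] Ω) ×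
        (L →ₐ[IntermediateField.adjoin F (Set.range t)] Ω) → Bool) := inferInstance
    let i3 : DecidableEq (I × (L →ₐ[IntermediateField.adjoin F (Set.range t)] Ω)) := inferInstance
    let i4 : Fintype (I × (L →ₐ[IntermediateField.adjoin F (Set.range t)] Ω) → Fin (n + 1)) :=
      inferInstance
    refine ⟨(Finset.univ.filter fun c => ∃ x, ∃ hx : x ∈ U',
      ¬ Ind F d (Fin.cons x t : Fin (s + 1 + 1) → Ω) ∧ code ⟨x, hUL x hx⟩ = c).image Vc,
      ?_, ?_, ?_⟩
    · refine Finset.card_image_le.trans ((Finset.card_filter_le _ _).trans ?_)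
      rw [Finset.card_univ, Fintype.card_prod, Fintype.card_fun, Fintype.card_fun,
        Fintype.card_prod, Fintype.card_prod, Fintype.card_bool, Fintype.card_fin]
      refine Nat.mul_le_mul (Nat.pow_le_pow_right (by norm_num) (Nat.mul_le_mul hHcard hHcard))
        (Nat.pow_le_pow_right (Nat.succ_pos n) (Nat.mul_le_mul hIcard hHcard))
    · intro V hV
      obtain ⟨c, hc, rfl⟩ := Finset.mem_image.mp hV
      obtain ⟨x₀, hx₀, hdep₀, hc₀⟩ := (Finset.mem_filter.mp hc).2
      subst hc₀
      have hVU' : Vc (code ⟨x₀, hUL x₀ hx₀⟩) ≤ U' := by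
        rw [Submodule.span_le]
        rintro y ((hy | ⟨j, rfl⟩) | ⟨hy, -, -⟩)
        · rw [Set.mem_singleton_iff.mp hy]
          exact h1U'
        · exact htU' j
        · exact hy
      have hone : ∀ σ : L →ₐ[IntermediateField.adjoin F (Set.range t)] Ω,
          ∀ h : (1 : Ω) ∈ L, σ ⟨1, h⟩ = 1 := fun σ h => map_one σ
      have htj : ∀ σ : L →ₐ[IntermediateField.adjoin F (Set.range t)] Ω, ∀ j,
          ∀ h : t j ∈ L, σ ⟨t j, h⟩ = t j := fun σ j h =>
        σ.commutes (⟨t j, t_mem F t j⟩ : IntermediateField.adjoin F (Set.range t))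
      refine ⟨hVU'.trans hU'U, Submodule.subset_span (Or.inl (Or.inl rfl)),
        fun j => Submodule.subset_span (Or.inl (Or.inr ⟨j, rfl⟩)), ?_⟩
      have hfinV : FiniteDimensional F (Vc (code ⟨x₀, hUL x₀ hx₀⟩)) :=
        Submodule.finiteDimensional_of_le hVU'
      have hcard : (s + 1 + d).choose (s + 1) = (s + 1 + d).choose d := Nat.choose_symm_add
      rw [hcard]
      apply finrank_le_of_dep (ind_t ht d)
      intro z hz
      have hzL : z ∈ L := hUL z (hVU' hz)
      have hB : ∀ (i : I) (σ : L →ₐ[IntermediateField.adjoin F (Set.range t)] Ω),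
          (W i).valuation (σ ⟨z, hzL⟩ / T i) ≤
            max 1 ((W i).valuation (σ ⟨x₀, hUL x₀ hx₀⟩ / T i)) := by
        intro i σ
        have h8 : Vc (code ⟨x₀, hUL x₀ hx₀⟩) ≤ Bsp L σ (W i) (hWc i) (T i)
            (max 1 ((W i).valuation (σ ⟨x₀, hUL x₀ hx₀⟩ / T i))) := by
          rw [Submodule.span_le]
          rintro y ((hy | ⟨j, rfl⟩) | ⟨hy, -, hpy⟩)
          · rw [Set.mem_singleton_iff.mp hy]
            refine ⟨hUL _ h1U', ?_⟩
            rw [hone]
            exact (hW1 i).trans (le_max_left _ _)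
          · refine ⟨hUL _ (htU' j), ?_⟩
            rw [htj]
            exact (hWt i j).trans (le_max_left _ _)
          · refine ⟨hUL _ hy, ?_⟩
            have h9 := congrFun (congrArg Prod.snd hpy) (i, σ)
            have h10 : max 1 ((W i).valuation (σ ⟨y, hUL y hy⟩ / T i)) =
                max 1 ((W i).valuation (σ ⟨x₀, hUL x₀ hx₀⟩ / T i)) :=
              he i σ ⟨⟨y, hy⟩, rfl⟩ ⟨⟨x₀, hx₀⟩, rfl⟩ h9
            rw [← h10]
            exact le_max_right _ _
        obtain ⟨_, h10⟩ := h8 hz
        exact h10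
      refine h6 F Ω (s + 1) d t ht 0 L hLfin ⟨x₀, hUL x₀ hx₀⟩ ⟨z, hzL⟩ hdep₀ ?_ ?_ ?_
      · intro σ σ' hσ
        have h8 : Vc (code ⟨x₀, hUL x₀ hx₀⟩) ≤ Esp L σ σ' := by
          rw [Submodule.span_le]
          rintro y ((hy | ⟨j, rfl⟩) | ⟨hy, -, hpy⟩)
          · rw [Set.mem_singleton_iff.mp hy]
            refine ⟨hUL _ h1U', ?_⟩
            rw [hone, hone]
          · refine ⟨hUL _ (htU' j), ?_⟩
            rw [htj, htj]
          · refine ⟨hUL _ hy, ?_⟩
            have h9 := congrFun (congrArg Prod.fst hpy) (σ, σ')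
            have h10 : decide (σ ⟨y, hUL y hy⟩ = σ' ⟨y, hUL y hy⟩) =
                decide (σ ⟨x₀, hUL x₀ hx₀⟩ = σ' ⟨x₀, hUL x₀ hx₀⟩) := h9
            rw [decide_eq_decide] at h10
            exact h10.mpr hσ
        obtain ⟨_, h10⟩ := h8 hz
        exact h10
      · intro π hπ
        by_cases hπD : π ∣ D₀
        · have h8 : π ∣ f.prod := hπD.trans hfD.symm.dvd
          obtain ⟨c, hc, hπc⟩ := hπ.exists_mem_multiset_dvd h8
          have hass : Associated c π := (hπ.associated_of_dvd (hf c hc) hπc).symm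
          have hc' : c ∈ f.toFinset := Multiset.mem_toFinset.mpr hc
          refine ⟨Vp c (hprime c hc'), overPrime_of_associated hass (hVp c (hprime c hc')),
            fun σ => ?_⟩
          have h9 := hB (some ⟨c, hc'⟩) σ
          change (Vp c (hprime c hc')).valuation (σ ⟨z, hzL⟩ / 1) ≤
            max 1 ((Vp c (hprime c hc')).valuation (σ ⟨x₀, hUL x₀ hx₀⟩ / 1)) at h9
          rwa [div_one, div_one] at h9
        · exact ⟨Vp π hπ, hVp π hπ, fun σ =>
            (hgood π hπD _ (hVp π hπ) σ z (hVU' hz)).trans (le_max_left _ _)⟩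
      · exact ⟨Vinf, hVinf, fun σ => hB none σ⟩
    · intro x hx hdep
      have hxU' : x ∈ U' := Submodule.subset_span ⟨hx, hdep⟩
      refine ⟨Vc (code ⟨x, hUL x hxU'⟩), Finset.mem_image.mpr ⟨_, Finset.mem_filter.mpr
        ⟨Finset.mem_univ _, x, hxU', hdep, rfl⟩, rfl⟩,
        Submodule.subset_span (Or.inr ⟨hxU', hdep, rfl⟩)⟩

end Pool.Agent.Lib.MP_c50dba_nt.RD
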