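import Pool.Agent.Lib.MP_c50dba_nt.RD.Proj
import Pool.Agent.Lib.MP_c50dba_nt.RD.FamU

set_option autoImplicit false

/-!
The uniform version: the number of exceptional cosets is bounded by a constant which depends only
on the numbers of elements and the degree.
-/

namespace Pool.Agent.Lib.MP_c50dba_nt.RD

open scoped BigOperators
open Pool.Agent.Lib.MP_c50dba_nt Pool.Agent.Lib.MP_c50dba_nt.Gen
open Pool.Agent.Lib.MP_c50dba_nt.LR MvPolynomial

open Projaux Finalaux

/-- The exceptional cosets, uniform version. -/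
theorem cosetsU (hF : StFamU) (hR : StRank) (s d M : ℕ) : ∃ C : ℕ,
    ∀ {F Ω : Type} [Field F] [IsAlgClosed F] [CharZero F]
    [Field Ω] [IsAlgClosed Ω] [Algebra F Ω] {t : Fin s → Ω}
    (_ : Function.Injective (aeval t : MvPolynomial (Fin s) F →ₐ[F] Ω)) (_ : 1 ≤ d)
    (l : Fin M → Ω) (y : Ω),
    ∃ E : Finset ((Fin M → ℤ) × AddSubgroup (Fin M → ℤ)), E.card ≤ C ∧
      (∀ (r : ℕ) (b : Fin r → Ω), (∀ j, b j ∈ Submodule.span F (insert (1 : Ω) (Set.range t))) →
        LinearIndependent F (Sum.elim b l : Fin r ⊕ Fin M → Ω) →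
        ∀ e ∈ E, Module.finrank ℤ e.2 + r ≤ (s + d).choose s) ∧
      (y = 0 → ∀ e ∈ E, e.1 = 0) ∧
      ∀ k : Fin M → ℤ, ¬ Ind F d (Fin.cons (y + ∑ i, (k i : F) • l i) t : Fin (s + 1) → Ω) →
        ∃ e ∈ E, k - e.1 ∈ e.2 := by
  obtain ⟨C, hC⟩ := hF s d (s + M + 2)
  refine ⟨C, ?_⟩
  intro F Ω _ _ _ _ _ _ t ht hd l y
  classical
  let U : Submodule F Ω := Submodule.span F (insert 1 (insert y (Set.range t ∪ Set.range l)))
  have hfin : FiniteDimensional F U :=
    FiniteDimensional.span_of_finite F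
      ((((Set.finite_range t).union (Set.finite_range l)).insert y).insert 1)
  have hUn : Module.finrank F U ≤ s + M + 2 := by
    have hfs : (insert 1 (insert y (Set.range t ∪ Set.range l))).Finite :=
      (((Set.finite_range t).union (Set.finite_range l)).insert y).insert 1
    have := Fintype.ofFinite (insert 1 (insert y (Set.range t ∪ Set.range l)) : Set Ω)
    refine (finrank_span_le_card (insert 1 (insert y (Set.range t ∪ Set.range l)))).trans ?_
    rw [← Set.ncard_eq_toFinset_card']
    have e1 := Set.ncard_insert_le (1 : Ω) (insert y (Set.range t ∪ Set.range l))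
    have e2 := Set.ncard_insert_le y (Set.range t ∪ Set.range l)
    have e3 := Set.ncard_union_le (Set.range t) (Set.range l)
    have e4 : (Set.range t).ncard ≤ s := by
      rw [← Set.image_univ]
      refine (Set.ncard_image_le (Set.toFinite _)).trans ?_
      rw [Set.ncard_univ, Nat.card_eq_fintype_card, Fintype.card_fin]
    have e5 : (Set.range l).ncard ≤ M := by
      rw [← Set.image_univ]
      refine (Set.ncard_image_le (Set.toFinite _)).trans ?_
      rw [Set.ncard_univ, Nat.card_eq_fintype_card, Fintype.card_fin]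
    omega
  have h1U : (1 : Ω) ∈ U := Submodule.subset_span (Set.mem_insert _ _)
  have hyU : y ∈ U := Submodule.subset_span (Set.mem_insert_of_mem _ (Set.mem_insert _ _))
  have htU : ∀ j, t j ∈ U := fun j => Submodule.subset_span
    (Set.mem_insert_of_mem _ (Set.mem_insert_of_mem _ (Or.inl ⟨j, rfl⟩)))
  have hlU : ∀ j, l j ∈ U := fun j => Submodule.subset_span
    (Set.mem_insert_of_mem _ (Set.mem_insert_of_mem _ (Or.inr ⟨j, rfl⟩)))
  obtain ⟨𝒱, hcard𝒱, h1, h2⟩ := hC F Ω t ht hd U hUn h1U htU
  have hmem : ∀ k : Fin M → ℤ, y + ∑ i, (k i : F) • l i ∈ U := fun k =>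
    U.add_mem hyU (U.sum_mem fun i _ => U.smul_mem _ (hlU i))
  let base : Submodule F Ω → (Fin M → ℤ) := fun V =>
    if y = 0 then 0 else
      if h : ∃ k : Fin M → ℤ, y + ∑ i, (k i : F) • l i ∈ V then h.choose else 0
  refine ⟨𝒱.image (fun V => (base V, grp l V)), Finset.card_image_le.trans hcard𝒱, ?_, ?_, ?_⟩
  · intro r b hb hli e he
    obtain ⟨V, hV, rfl⟩ := Finset.mem_image.mp he
    obtain ⟨hle, hone, htV, hrk⟩ := h1 V hV
    have hfinV : FiniteDimensional F V := Submodule.finiteDimensional_of_le hle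
    refine (hR F Ω r M b l hli V fun j => ?_).trans hrk
    have hsp : Submodule.span F (insert (1 : Ω) (Set.range t)) ≤ V := by
      rw [Submodule.span_le]
      rintro x (rfl | ⟨j, rfl⟩)
      · exact hone
      · exact htV j
    exact hsp (hb j)
  · intro hy e he
    obtain ⟨V, -, rfl⟩ := Finset.mem_image.mp he
    exact if_pos hy
  · intro k hk
    obtain ⟨V, hV, hkV⟩ := h2 _ (hmem k) hk
    have hex : ∃ k : Fin M → ℤ, y + ∑ i, (k i : F) • l i ∈ V := ⟨k, hkV⟩
    refine ⟨(base V, grp l V), Finset.mem_image.mpr ⟨V, hV, rfl⟩, ?_⟩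
    have hb : y + ∑ i, (base V i : F) • l i ∈ V := by
      by_cases hy : y = 0
      · have : base V = 0 := if_pos hy
        rw [this, hy]
        simp
      · have : base V = hex.choose := by
          show (if y = 0 then 0 else _) = _
          rw [if_neg hy]
          exact dif_pos hex
        rw [this]
        exact hex.choose_spec
    rw [mem_grp]
    have h3 : ∑ i, ((k - base V) i : F) • l i =
        (y + ∑ i, (k i : F) • l i) - (y + ∑ i, (base V i : F) • l i) := by
      rw [add_sub_add_left_eq_sub, ← Finset.sum_sub_distrib]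
      refine Finset.sum_congr rfl fun i _ => ?_
      rw [Pi.sub_apply, Int.cast_sub, sub_smul]
    rw [h3]
    exact V.sub_mem hkV hb

/-- Uniform version: the elements of a group with a homogeneous relation of degree `d` with `w` (which is `1` or a
logarithm), given logarithms and further numbers. -/
theorem projectiveU (hF : StFamU) (hR : StRank) (hB : StBakerI) (r q d M : ℕ) : ∃ C : ℕ,
    ∀ {p : ℕ} [Fact p.Prime]
    {L : PadicAlgCl p → PadicAlgCl p} (_ : IsIwasawaLog p L) (_ : 1 ≤ d)
    (a : Fin M → PadicAlgCl p) (_ : ∀ i, a i ≠ 0 ∧ IsAlgebraic ℚ (a i))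
    (b : Fin r → PadicAlgCl p) (_ : ∀ j, b j ≠ 0 ∧ IsAlgebraic ℚ (b j))
    (t : Fin q → PadicAlgCl p) (w : PadicAlgCl p)
    (_ : (w = 1 ∧ LinearIndependent ℚ
        (Fin.append (fun j => L (b j)) (fun i => L (a i)) : Fin (r + M) → PadicAlgCl p)) ∨
      ∃ b₀, b₀ ≠ 0 ∧ IsAlgebraic ℚ b₀ ∧ w = L b₀ ∧ LinearIndependent ℚ
        (Fin.cons (L b₀) (Fin.append (fun j => L (b j)) (fun i => L (a i))) :
          Fin (r + M + 1) → PadicAlgCl p))
    (_ : (r = 1 ∧ q = 0) ∨ AlgebraicIndependent ℚ (fun j : Fin (r + q) =>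
      (Fin.append (fun j => L (b j)) t : Fin (r + q) → PadicAlgCl p) j / w))
    (y : PadicAlgCl p),
    ∃ E : Finset ((Fin M → ℤ) × AddSubgroup (Fin M → ℤ)), E.card ≤ C ∧
      (∀ e ∈ E, Module.finrank ℤ e.2 ≤ (r + q + d).choose d - 1 - r) ∧
      (y = 0 → ∀ e ∈ E, e.1 = 0) ∧
      ∀ k : Fin M → ℤ,
        (∃ P : MvPolynomial (Fin (r + q + 2)) (PadicAlgCl p), P ≠ 0 ∧ P.IsHomogeneous d ∧
          (∀ m, IsAlgebraic ℚ (P.coeff m)) ∧
          MvPolynomial.eval (Fin.cons (y + L (∏ i, a i ^ k i))
            (Fin.cons w (Fin.append (fun j => L (b j)) t))) P = 0) →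
        ∃ e ∈ E, k - e.1 ∈ e.2 := by
  obtain ⟨C, hC⟩ := cosetsU hF hR (r + q) d M
  refine ⟨C, ?_⟩
  intro p _ L hL hd a ha b hb t w hw ht y
  have : IsAlgClosed (algebraicClosure ℚ (PadicAlgCl p)) :=
    (algebraicClosure.isAlgClosure ℚ (PadicAlgCl p)).isAlgClosed
  have : Algebra.IsAlgebraic ℚ (algebraicClosure ℚ (PadicAlgCl p)) :=
    algebraicClosure.isAlgebraic ℚ (PadicAlgCl p)
  have hli0 := li_w hB hL a ha b hb w hw
  have hw0 : w ≠ 0 := by
    have := hli0.ne_zero (Sum.inl 0)
    simpa using this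
  -- division by `w`
  have hli1 : LinearIndependent (algebraicClosure ℚ (PadicAlgCl p))
      (Sum.elim (Fin.cons 1 (fun j => L (b j) / w) : Fin (r + 1) → PadicAlgCl p)
        fun i => L (a i) / w) := li_div hw0 hli0
  -- algebraic independence
  have ht1 : AlgebraicIndependent ℚ (fun j : Fin (r + q) =>
      (Fin.append (fun j => L (b j)) t : Fin (r + q) → PadicAlgCl p) j / w) := by
    rcases ht with ⟨hr, hq⟩ | ht
    · subst hr
      subst hq
      have htr : AlgebraicIndependent ℚ (fun _ : Fin 1 => L (b 0) / w) := by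
        rw [algebraicIndependent_unique_type_iff]
        intro halgL
        have h3 := hli1.comp (Sum.inl : Fin (1 + 1) → Fin (1 + 1) ⊕ Fin M) Sum.inl_injective
        rw [Fintype.linearIndependent_iff] at h3
        have h4 := h3 (Fin.cons (-⟨L (b 0) / w, mem_algebraicClosure_iff.2 halgL⟩) fun _ => 1) (by
          rw [Fin.sum_univ_two]
          simp only [Function.comp_apply, Sum.elim_inl, Fin.cons_zero, Fin.cons_one, one_smul,
            neg_smul]
          rw [Algebra.smul_def, mul_one]
          exact neg_add_cancel (L (b 0) / w)) 1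
        simp at h4
      have heq : (fun j : Fin (1 + 0) =>
          (Fin.append (fun j => L (b j)) t : Fin (1 + 0) → PadicAlgCl p) j / w) =
          fun _ : Fin 1 => L (b 0) / w := by
        funext i
        refine Fin.addCases (fun j => ?_) (fun j => j.elim0) i
        rw [Fin.append_left, Subsingleton.elim j 0]
      rw [heq]
      exact htr
    · exact ht
  have ht' : AlgebraicIndependent (algebraicClosure ℚ (PadicAlgCl p)) (fun j : Fin (r + q) =>
      (Fin.append (fun j => L (b j)) t : Fin (r + q) → PadicAlgCl p) j / w) :=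
    ht1.extendScalars (algebraicClosure ℚ (PadicAlgCl p))
  obtain ⟨E, h0, h1, h2, h3⟩ := hC (F := algebraicClosure ℚ (PadicAlgCl p)) ht' hd
    (fun i => L (a i) / w) (y / w)
  refine ⟨E, h0, ?_, fun hy => h2 (by rw [hy, zero_div]), ?_⟩
  · intro e he
    have h4 := h1 (r + 1) (Fin.cons 1 fun j => L (b j) / w) (fun j => by
      refine Fin.cases ?_ (fun i => ?_) j
      · exact Submodule.subset_span (Set.mem_insert _ _)
      · refine Submodule.subset_span (Set.mem_insert_of_mem _ ⟨Fin.castAdd q i, ?_⟩)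
        show (Fin.append (fun j => L (b j)) t : Fin (r + q) → PadicAlgCl p)
          (Fin.castAdd q i) / w = _
        rw [Fin.append_left, Fin.cons_succ]) hli1 e he
    rw [Nat.choose_symm_add] at h4
    omega
  · intro k hk
    refine h3 k ?_
    have h4 := not_ind hw0 hk
    have h5 : (y + L (∏ i, a i ^ k i)) / w = y / w +
        ∑ i, ((k i : ℤ) : algebraicClosure ℚ (PadicAlgCl p)) • (L (a i) / w) := by
      rw [log_prod hL Finset.univ a (fun i => (ha i).1) k, add_div, Finset.sum_div]
      congr 1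
      refine Finset.sum_congr rfl fun i _ => ?_
      rw [mul_div_assoc]
      rfl
    rw [h5] at h4
    exact h4

end Pool.Agent.Lib.MP_c50dba_nt.RD
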