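import Pool.Agent.Lib.MP_c50dba_nt.RD.Stmts

set_option autoImplicit false

/-!
Module A9: the rank of the group of a subspace which contains vectors independent of the `l i`.
-/

namespace Pool.Agent.Lib.MP_c50dba_nt.RD

open scoped BigOperators
open Pool.Agent.Lib.MP_c50dba_nt Pool.Agent.Lib.MP_c50dba_nt.Gen
open Pool.Agent.Lib.MP_c50dba_nt.LR MvPolynomial

theorem stRank : StRank := by
  intro F Ω _ _ _ _ r M b l hbl V _ hb
  obtain ⟨hbi, hli, hdis⟩ := linearIndependent_sum.mp hbl
  rw [Sum.elim_comp_inl] at hbi hdis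
  rw [Sum.elim_comp_inr] at hli hdis
  have hfree : Module.Free ℤ (grp l V) :=
    inferInstanceAs (Module.Free ℤ (AddSubgroup.toIntSubmodule (grp l V)))
  have hfinite : Module.Finite ℤ (grp l V) :=
    inferInstanceAs (Module.Finite ℤ (AddSubgroup.toIntSubmodule (grp l V)))
  let c := Module.finBasis ℤ (grp l V)
  have hc : LinearIndependent ℤ (fun j => (c j : Fin M → ℤ)) :=
    c.linearIndependent.map' (grp l V).subtype.toIntLinearMap (by
      rw [LinearMap.ker_eq_bot]
      exact Subtype.val_injective)
  have h1 := li_int (F := F) _ hc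
  have h2 : LinearIndependent F (fun j => ∑ i, ((c j : Fin M → ℤ) i : F) • l i) := by
    have h3 := h1.map' (Fintype.linearCombination F l) (by
      rw [LinearMap.ker_eq_bot]
      exact linearIndependent_iff_injective_fintypeLinearCombination.mp hli)
    have h4 : (fun j => ∑ i, ((c j : Fin M → ℤ) i : F) • l i) =
        (Fintype.linearCombination F l) ∘ (fun j i => ((c j : Fin M → ℤ) i : F)) := by
      funext j
      rfl
    rw [h4]
    exact h3
  have h3 : Submodule.span F (Set.range fun j => ∑ i, ((c j : Fin M → ℤ) i : F) • l i) ≤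
      Submodule.span F (Set.range l) := by
    rw [Submodule.span_le]
    rintro _ ⟨j, rfl⟩
    exact Submodule.sum_mem _ fun i _ =>
      Submodule.smul_mem _ _ (Submodule.subset_span (Set.mem_range_self i))
  have h4 : LinearIndependent F
      (Sum.elim b (fun j => ∑ i, ((c j : Fin M → ℤ) i : F) • l i)) :=
    hbi.sum_type h2 (hdis.mono_right h3)
  have h5 : LinearIndependent F (Sum.elim (fun j => (⟨b j, hb j⟩ : V))
      (fun j => (⟨∑ i, ((c j : Fin M → ℤ) i : F) • l i, (c j).2⟩ : V))) := by
    apply LinearIndependent.of_comp V.subtype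
    convert h4 using 1
    funext x
    cases x <;> rfl
  have h6 := h5.fintype_card_le_finrank
  rw [Fintype.card_sum, Fintype.card_fin, Fintype.card_fin] at h6
  omega

end Pool.Agent.Lib.MP_c50dba_nt.RD
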