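import Pool.Agent.Lib.MP_c50dba_nt.RD.Stmts
import Pool.Agent.Lib.MP_c50dba_nt.Gen.Baker
import Pool.Agent.Lib.MP_c50dba_nt.Gen.Core
import Pool.Agent.Lib.MP_c50dba_nt.Gen.Schwarz
import Pool.Agent.Lib.MP_c50dba_nt.Gen.Moments

set_option autoImplicit false

/-!
The inhomogeneous p-adic theorem of Baker and Brumer from the Schneider-Lang theorem.
-/

namespace Pool.Agent.Lib.MP_c50dba_nt.RD

open scoped BigOperators
open NumberField Module
open Pool.Agent.Lib.MP_c50dba_nt Pool.Agent.Lib.MP_c50dba_nt.Gen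

namespace BakerIaux

variable {p : ℕ} [hp : Fact p.Prime]

/-- The inhomogeneous theorem over a Galois number field, for small logarithms. -/
theorem bakerI_galois (h : StCoreI) (C : Type) [NormedField C] [CompleteSpace C]
    [IsUltrametricDist C] [NormedAlgebra ℚ_[p] C] (K : Type) [Field K] [NumberField K]
    [IsGalois ℚ K] (φ : K →+* C) (m : ℕ) (lam : Fin m → C) (hp4 : ‖(p : C) ^ 2‖ ≤ 1 / 4)
    (hlam : ∀ i, ‖lam i‖ ≤ ‖(p : C) ^ 2‖)
    (a : Fin m → K) (ha : ∀ i, φ (a i) = ex (lam i)) (β₀ : 𝓞 K) (β : Fin m → 𝓞 K)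
    (hβ0 : φ (β₀ : K) + ∑ i, φ (β i : K) * lam i = 0) : β₀ = 0 := by
  classical
  by_contra hβ
  have : CharZero C := charZero_of_injective_algebraMap (algebraMap ℚ_[p] C).injective
  set μ : (K ≃ₐ[ℚ] K) → C := fun σ => ∑ i, φ (σ (β i : K)) * lam i with hμ
  have hμ1 : μ 1 = - φ (β₀ : K) := by
    have h1 : μ 1 = ∑ i, φ (β i : K) * lam i := by simp [hμ]
    rw [h1]
    linear_combination hβ0
  have hφβ : φ (β₀ : K) ≠ 0 := by
    rw [Ne, map_eq_zero_iff φ φ.injective]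
    intro h1
    exact hβ (RingOfIntegers.ext (by simpa using h1))
  have hμ1' : μ 1 ≠ 0 := by
    rw [hμ1]
    exact neg_ne_zero.2 hφβ
  -- integrality of conjugates
  have hconj : ∀ (σ : K ≃ₐ[ℚ] K) (w : 𝓞 K), ∃ w' : 𝓞 K, (w' : K) = σ (w : K) := by
    intro σ w
    exact ⟨⟨σ (w : K), (w.isIntegral_coe).map (σ.toRingEquiv.toRingHom.toIntAlgHom)⟩, rfl⟩
  have hnorm : ∀ (σ : K ≃ₐ[ℚ] K) (w : 𝓞 K), ‖φ (σ (w : K))‖ ≤ 1 := by
    intro σ w
    obtain ⟨w', hw'⟩ := hconj σ w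
    rw [← hw']
    exact norm_phi_le_one φ w'
  have hμn : ∀ σ, ‖μ σ‖ ≤ ‖(p : C) ^ 2‖ := by
    intro σ
    apply IsUltrametricDist.norm_sum_le_of_forall_le_of_nonneg (norm_nonneg _)
    intro i _
    rw [norm_mul]
    calc ‖φ (σ (β i : K))‖ * ‖lam i‖ ≤ 1 * ‖(p : C) ^ 2‖ := by
          gcongr
          · exact hnorm σ (β i)
          · exact hlam i
      _ = _ := one_mul _
  -- traces
  have htr : ∀ (w : K), ∑ i, φ (algebraMap ℚ K (Algebra.trace ℚ K (w * (β i : K)))) * lam i =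
      ∑ σ : K ≃ₐ[ℚ] K, φ (σ w) * μ σ := by
    intro w
    simp only [hμ, Finset.mul_sum]
    rw [Finset.sum_comm]
    apply Finset.sum_congr rfl
    intro i _
    rw [trace_eq_sum_automorphisms, map_sum, Finset.sum_mul]
    apply Finset.sum_congr rfl
    intro σ _
    rw [map_mul, map_mul]
    ring
  let Sg : Finset (K ≃ₐ[ℚ] K) := Finset.univ.filter fun σ => μ σ ≠ 0
  have h1mem : (1 : K ≃ₐ[ℚ] K) ∈ Sg := Finset.mem_filter.2 ⟨Finset.mem_univ _, hμ1'⟩
  have hne : Sg.Nonempty := ⟨1, h1mem⟩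
  -- numbering of the conjugates
  set n := Sg.card with hn
  have hn1 : 1 ≤ n := Finset.card_pos.2 hne
  let s : Fin n ≃ Sg := (Finset.equivFin Sg).symm
  have hsinj : Function.Injective (fun j : Fin n => (s j : K ≃ₐ[ℚ] K)) :=
    fun a b hab => s.injective (Subtype.ext hab)
  let g := Fintype.card (Free.ChooseBasisIndex ℤ (𝓞 K))
  let e := Fintype.equivFin (Free.ChooseBasisIndex ℤ (𝓞 K))
  let ωZ : Basis (Fin g) ℤ (𝓞 K) := (RingOfIntegers.basis K).reindex e
  let ωQ : Basis (Fin g) ℚ K := (integralBasis K).reindex e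
  have hωQ : ∀ j, ωQ j = (ωZ j : K) := by
    intro j
    simp only [ωQ, ωZ, Basis.reindex_apply, integralBasis_apply]
  have hg : g = Fintype.card (K ≃ₐ[ℚ] K) := by
    rw [← Nat.card_eq_fintype_card, IsGalois.card_aut_eq_finrank, Module.finrank_eq_card_basis ωQ,
      Fintype.card_fin]
  have hng : n ≤ g := by
    rw [hg]
    exact Finset.card_le_univ _
  obtain ⟨c, hc⟩ := exists_conj_minor K (fun j => (ωZ j : K)) ωQ hωQ (fun j => (s j : K ≃ₐ[ℚ] K)) hsinj
  choose cj hcj using hconj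
  have hs0 : ∀ σ : Fin n, μ (s σ) ≠ 0 := by
    intro σ
    exact (Finset.mem_filter.1 (s σ).2).2
  let σ₀ : Fin n := s.symm ⟨1, h1mem⟩
  have hσ₀ : (s σ₀ : K ≃ₐ[ℚ] K) = 1 := by
    show ((s (s.symm ⟨1, h1mem⟩)) : K ≃ₐ[ℚ] K) = 1
    rw [Equiv.apply_symm_apply]
  refine h p C K φ n g hn1 hng (fun j σ => cj (s σ) (ωZ j)) ?_
    (fun j' σ => φ ((s σ : K ≃ₐ[ℚ] K) (ωZ (c j') : K)) * μ (s σ)) ?_ ?_
    (fun j j' => ∏ i, a i ^ (Algebra.trace ℤ (𝓞 K) (ωZ j * ωZ (c j') * β i))) ?_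
    σ₀ (fun j' => - (ωZ (c j') * β₀)) ?_
  · intro k k' hkk
    have h1 := hkk ⟨0, hn1⟩
    set σ₁ : K ≃ₐ[ℚ] K := (s ⟨0, hn1⟩).1 with hσ₁
    have h2 : σ₁ (∑ j, (k j : K) * (ωZ j : K)) = σ₁ (∑ j, (k' j : K) * (ωZ j : K)) := by
      have h3 := congrArg (fun w : 𝓞 K => (w : K)) h1
      simp only [map_sum, map_mul, map_natCast, hcj] at h3
      simpa [map_sum, map_mul] using h3
    have h4 := σ₁.injective h2
    have h5 : ∑ j, ((k j : ℤ) - (k' j : ℤ)) • ωZ j = 0 := by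
      apply RingOfIntegers.ext
      simp only [map_sum, zsmul_eq_mul, map_mul, map_intCast, map_zero]
      have h6 : ∑ j, (k j : K) * (ωZ j : K) - ∑ j, (k' j : K) * (ωZ j : K) = 0 := sub_eq_zero.2 h4
      rw [← Finset.sum_sub_distrib] at h6
      rw [← h6]
      apply Finset.sum_congr rfl
      intro j _
      push_cast
      ring
    have h7 := Fintype.linearIndependent_iff.1 ωZ.linearIndependent _ h5
    funext j
    have := h7 j
    omega
  · intro j' σ
    rw [norm_mul]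
    calc ‖φ ((s σ : K ≃ₐ[ℚ] K) (ωZ (c j') : K))‖ * ‖μ (s σ)‖ ≤ 1 * ‖(p : C) ^ 2‖ := by
          gcongr
          · exact hnorm _ _
          · exact hμn _
      _ = _ := one_mul _
  · have h1 : (Matrix.of fun (j' σ : Fin n) => φ ((s σ : K ≃ₐ[ℚ] K) (ωZ (c j') : K)) * μ (s σ)) =
        ((Matrix.of fun σ j' : Fin n => (s σ : K ≃ₐ[ℚ] K) (ωZ (c j') : K)).transpose.map φ) *
          Matrix.diagonal (fun σ : Fin n => μ (s σ)) := by
      ext j' σ
      rw [Matrix.mul_diagonal]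
      rfl
    rw [h1, Matrix.det_mul, Matrix.det_diagonal]
    refine mul_ne_zero ?_ (Finset.prod_ne_zero_iff.2 fun σ _ => hs0 σ)
    have h2 := RingHom.map_det φ (Matrix.of fun σ j' : Fin n => (s σ : K ≃ₐ[ℚ] K) (ωZ (c j') : K)).transpose
    rw [RingHom.mapMatrix_apply] at h2
    rw [← h2, Matrix.det_transpose]
    exact fun h3 => hc (φ.injective (by rw [h3, map_zero]))
  · intro j j'
    have h1 : φ (∏ i, a i ^ (Algebra.trace ℤ (𝓞 K) (ωZ j * ωZ (c j') * β i))) =
        ex (∑ i, ((Algebra.trace ℤ (𝓞 K) (ωZ j * ωZ (c j') * β i) : ℤ) : C) * lam i) := by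
      rw [ex_sum (p := p), map_prod]
      · apply Finset.prod_congr rfl
        intro i _
        rw [map_zpow₀, ha, ex_int_mul (p := p) ((hlam i).trans hp4)]
      · intro i _
        rw [norm_mul]
        calc ‖((Algebra.trace ℤ (𝓞 K) (ωZ j * ωZ (c j') * β i) : ℤ) : C)‖ * ‖lam i‖ ≤ 1 * (1 / 4) := by
              gcongr
              · exact IsUltrametricDist.norm_intCast_le_one _ _
              · exact (hlam i).trans hp4
          _ = 1 / 4 := one_mul _
    rw [h1]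
    congr 1
    have h2 := htr ((ωZ j : K) * (ωZ (c j') : K))
    have h3 : ∑ i, ((Algebra.trace ℤ (𝓞 K) (ωZ j * ωZ (c j') * β i) : ℤ) : C) * lam i =
        ∑ i, φ (algebraMap ℚ K (Algebra.trace ℚ K ((ωZ j : K) * (ωZ (c j') : K) * (β i : K)))) *
          lam i := by
      apply Finset.sum_congr rfl
      intro i _
      have h4 := Algebra.coe_trace_int (K := K) (ωZ j * ωZ (c j') * β i)
      have h5 : ((ωZ j * ωZ (c j') * β i : 𝓞 K) : K) = (ωZ j : K) * (ωZ (c j') : K) * (β i : K) := by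
        push_cast
        rfl
      rw [h5] at h4
      rw [← h4, eq_ratCast, map_ratCast]
      push_cast
      rfl
    rw [h3, h2]
    have h6 : ∑ σ : K ≃ₐ[ℚ] K, φ (σ ((ωZ j : K) * (ωZ (c j') : K))) * μ σ =
        ∑ σ ∈ Sg, φ (σ ((ωZ j : K) * (ωZ (c j') : K))) * μ σ := by
      symm
      apply Finset.sum_subset (Finset.subset_univ _)
      intro σ _ hσ
      have : μ σ = 0 := by
        by_contra h7
        exact hσ (by simp [Sg, h7])
      rw [this, mul_zero]
    rw [h6, ← Finset.sum_coe_sort, ← s.sum_comp]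
    apply Finset.sum_congr rfl
    intro σ _
    rw [hcj, map_mul, map_mul]
    ring
  · intro j'
    show φ ((- (ωZ (c j') * β₀) : 𝓞 K) : K) =
      φ ((s σ₀ : K ≃ₐ[ℚ] K) (ωZ (c j') : K)) * μ (s σ₀)
    rw [hσ₀, hμ1]
    push_cast
    simp

end BakerIaux

open BakerIaux

theorem stBakerI (h : StCoreI) : StBakerI := by
  intro p hp L hL m α hα0 hαalg hind β₀ β hβ₀alg hβalg hβ0
  classical
  by_cases hz : β₀ = 0
  · refine ⟨hz, ?_⟩
    rw [hz, zero_add] at hβ0
    exact stBaker (stCore stSchwarz stMoments) p L hL m α hα0 hαalg hind β hβalg hβ0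
  exfalso
  obtain ⟨hmul, hLp, hser⟩ := hL
  have hpne : (p : PadicAlgCl p) ≠ 0 := by exact_mod_cast hp.out.ne_zero
  choose k mm hk hkm using fun i : Fin m => exists_pow_mul_near_one (hα0 i)
  set N := ∏ i, k i with hN
  have hN0 : N ≠ 0 := Finset.prod_ne_zero_iff.mpr (fun i _ => by have := hk i; omega)
  have hdvd : ∀ i, ∃ r, N = k i * r := fun i => Finset.dvd_prod_of_mem k (Finset.mem_univ i)
  choose r hr using hdvd
  obtain ⟨e, he⟩ := exists_p_pow_small (p := p) ‖(p : PadicAlgCl p) ^ 2‖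
    (norm_pos_iff.2 (pow_ne_zero _ hpne)) (fun i => L (α i))
  have hp4 : ‖(p : PadicAlgCl p) ^ 2‖ ≤ 1 / 4 := by
    rw [norm_pow, norm_p_eq]
    have h2 : (2 : ℝ) ≤ p := by exact_mod_cast hp.out.two_le
    have h3 : ((p : ℝ)⁻¹) ≤ 2⁻¹ := inv_anti₀ (by norm_num) h2
    calc ((p : ℝ)⁻¹) ^ 2 ≤ (2⁻¹) ^ 2 := by gcongr
      _ = 1 / 4 := by norm_num
  -- the new algebraic numbers
  let γ : Fin m → PadicAlgCl p := fun i =>
    ((α i ^ (k i) * (p : PadicAlgCl p) ^ (mm i)) ^ (r i)) ^ (p ^ e)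
  have hγ1 : ∀ i, ‖γ i - 1‖ ≤ 1 / 4 := fun i =>
    norm_pow_sub_one_le (norm_pow_sub_one_le (hkm i) _) _
  have hγL : ∀ i, L (γ i) = (N : PadicAlgCl p) * ((p : PadicAlgCl p) ^ e * L (α i)) := by
    intro i
    have h1 : α i ^ (k i) ≠ 0 := pow_ne_zero _ (hα0 _)
    have h2 : (p : PadicAlgCl p) ^ (mm i) ≠ 0 := zpow_ne_zero _ hpne
    simp only [γ]
    rw [L_pow L hmul (pow_ne_zero _ (mul_ne_zero h1 h2)), L_pow L hmul (mul_ne_zero h1 h2),
      hmul _ _ h1 h2, L_pow L hmul (hα0 _), L_zpow L hmul hpne, hLp, hr i]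
    push_cast
    ring
  have hγalg : ∀ i, IsAlgebraic ℚ (γ i) := by
    intro i
    have h1 : IsAlgebraic ℚ ((p : PadicAlgCl p) ^ (mm i)) := by
      have h2 : IsAlgebraic ℚ (p : PadicAlgCl p) := isAlgebraic_natCast p
      cases mm i with
      | ofNat n => simpa using h2.pow n
      | negSucc n =>
        rw [zpow_negSucc]
        exact (h2.pow _).inv
    exact (((hαalg i).pow _).mul h1).pow _ |>.pow _
  -- the constant term
  let β₁ : PadicAlgCl p := (N : PadicAlgCl p) * (p : PadicAlgCl p) ^ e * β₀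
  have hβ₁alg : IsAlgebraic ℚ β₁ :=
    ((isAlgebraic_natCast N).mul ((isAlgebraic_natCast p).pow e)).mul hβ₀alg
  -- the number field
  obtain ⟨K, hKfin, hKgal, hKmem⟩ := exists_galois_field
    (Sum.elim γ (fun o : Option (Fin m) => o.elim β₁ β)) (by
    rintro (i | i | i)
    · exact hγalg i
    · exact hβ₁alg
    · exact hβalg i)
  have hKnf : NumberField K := { to_charZero := inferInstance, to_finiteDimensional := hKfin }
  let φ : K →+* PadicComplex p := (emb p).comp K.val.toRingHom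
  let a : Fin m → K := fun i => ⟨γ i, hKmem (Sum.inl i)⟩
  let b : Option (Fin m) → K := fun i => ⟨i.elim β₁ β, hKmem (Sum.inr i)⟩
  obtain ⟨d, b', -, hd0, hb', -⟩ := exists_denominator K b
  have hlamn : ∀ i, ‖L (γ i)‖ ≤ ‖(p : PadicAlgCl p) ^ 2‖ := by
    intro i
    rw [hγL, norm_mul]
    calc ‖(N : PadicAlgCl p)‖ * ‖(p : PadicAlgCl p) ^ e * L (α i)‖
        ≤ 1 * ‖(p : PadicAlgCl p) ^ 2‖ := by
          gcongr
          · exact IsUltrametricDist.norm_natCast_le_one _ _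
          · exact he i
      _ = _ := one_mul _
  have hpC : ‖(p : PadicComplex p) ^ 2‖ = ‖(p : PadicAlgCl p) ^ 2‖ := by
    rw [← emb_norm, map_pow, map_natCast]
  have hc0 : (N : PadicAlgCl p) * (p : PadicAlgCl p) ^ e ≠ 0 :=
    mul_ne_zero (by exact_mod_cast hN0) (pow_ne_zero _ hpne)
  have key := bakerI_galois (p := p) h (PadicComplex p) K φ m (fun i => emb p (L (γ i)))
    (by rw [hpC]; exact hp4) (fun i => by rw [emb_norm, hpC]; exact hlamn i) a ?_ (b' none)
    (fun i => b' (some i)) ?_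
  · have h1 : (b' none : K) = 0 := by rw [key]; rfl
    rw [hb'] at h1
    have h2 : b none = 0 := by
      rcases mul_eq_zero.1 h1 with h | h
      · exact absurd h (by exact_mod_cast hd0)
      · exact h
    have h3 : β₁ = 0 := congrArg (fun w : K => (w : PadicAlgCl p)) h2
    exact hz ((mul_eq_zero.1 h3).resolve_left hc0)
  · intro i
    have h1 := ex_L L hmul hser (hγ1 i)
    have h2 : ‖L (γ i)‖ ≤ 1 / 4 := by rw [h1.2]; exact hγ1 _
    have h3 : φ (a i) = emb p (γ i) := rfl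
    rw [h3, ← emb_ex h2, h1.1]
  · have h1 : ∀ i, φ (b' (some i) : K) = emb p ((d : PadicAlgCl p) * β i) := by
      intro i
      rw [hb', map_mul, map_natCast, map_mul, map_natCast]
      rfl
    have h0 : φ (b' none : K) = emb p ((d : PadicAlgCl p) * β₁) := by
      rw [hb', map_mul, map_natCast, map_mul, map_natCast]
      rfl
    have h2 : emb p (((d : PadicAlgCl p) * ((N : PadicAlgCl p) * (p : PadicAlgCl p) ^ e)) *
        (β₀ + ∑ i, β i * L (α i))) =
          φ (b' none : K) + ∑ i, φ (b' (some i) : K) * emb p (L (γ i)) := by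
      rw [mul_add, map_add, Finset.mul_sum, map_sum, h0]
      congr 1
      · congr 1
        simp only [β₁]
        ring
      · apply Finset.sum_congr rfl
        intro i _
        rw [h1, ← map_mul, hγL]
        congr 1
        ring
    rw [← h2, hβ0, mul_zero, map_zero]

end Pool.Agent.Lib.MP_c50dba_nt.RD
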