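import Pool.Agent.Lib.MP_c50dba_nt.RD.Stmts
import Pool.Agent.Lib.MP_c50dba_nt.Gen.Core

set_option autoImplicit false

/-!
B4. The p-adic Schneider-Lang theorem for one variable and `g` exponentials in `n ≤ g` variables.
-/

namespace Pool.Agent.Lib.MP_c50dba_nt.RD

open Pool.Agent.Lib.MP_c50dba_nt Pool.Agent.Lib.MP_c50dba_nt.Gen NumberField Module

namespace CoreIaux

/-- Parameters. -/
lemma exists_param2 (M M2 n A : ℕ) (hn : 1 ≤ n) (hM : 1 ≤ M) : ∃ l : ℕ,
    2 * (M * (l + 1)) ^ n * (2 * (M * (l + 1)) ^ n + n + M2 * (l + 1) + A) ≤ 2 ^ l := by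
  obtain ⟨l, hl⟩ := exists_param (2 * M ^ n * (2 * M ^ n + n + M2 + A)) (2 * n)
  refine ⟨l, le_trans ?_ ((Nat.le_mul_of_pos_left _ two_pos).trans hl)⟩
  set M' := 2 * M ^ n * (2 * M ^ n + n + M2 + A) with hM'
  have hMn : 1 ≤ M ^ n := Nat.one_le_pow _ _ hM
  have h1 : 1 ≤ M' := by
    rw [hM']
    exact Nat.mul_pos (by omega) (by omega)
  have h2 : (l + 1) ≤ (l + 1) ^ n := Nat.le_self_pow (by omega) _
  have h0 : 1 ≤ (l + 1) ^ n := Nat.one_le_pow _ _ (by omega)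
  calc 2 * (M * (l + 1)) ^ n * (2 * (M * (l + 1)) ^ n + n + M2 * (l + 1) + A) ≤
        2 * (M * (l + 1)) ^ n * (2 * (M * (l + 1)) ^ n + n * (l + 1) ^ n + M2 * (l + 1) ^ n +
          A * (l + 1) ^ n) := by
        gcongr
        · exact Nat.le_mul_of_pos_right _ h0
        · exact Nat.le_mul_of_pos_right _ h0
    _ = M' * (l + 1) ^ (2 * n) := by
        rw [hM', mul_pow, Nat.two_mul n, pow_add]
        ring
    _ ≤ M' ^ (2 * n) * (l + 1) ^ (2 * n) := by
        gcongr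
        exact Nat.le_self_pow (by omega) _
    _ = (M' * (l + 1)) ^ (2 * n) := (mul_pow _ _ _).symm

section

variable {K : Type} [Field K] [NumberField K] {n g : ℕ}

/-- Integral version of `pe`. -/
def peI (b : ℕ) (w u : 𝓞 K) (m : ℕ) : 𝓞 K :=
  ∑ r ∈ Finset.range (m + 1),
    (m.choose r : 𝓞 K) * (b.descFactorial r : 𝓞 K) * u ^ (b - r) * w ^ (m - r)

omit [NumberField K] in
lemma coe_peI (b : ℕ) (w u : 𝓞 K) (m : ℕ) :
    (peI b w u m : K) = pe b (w : K) (u : K) m := by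
  have h3 : ∀ z : 𝓞 K, (z : K) = algebraMap (𝓞 K) K z := fun _ => rfl
  unfold peI pe
  rw [h3, map_sum]
  simp only [map_mul, map_pow, map_natCast, h3]

omit [NumberField K] in
lemma map_pe {C : Type} [Field C] (φ : K →+* C) (b : ℕ) (w u : K) (m : ℕ) :
    φ (pe b w u m) = pe b (φ w) (φ u) m := by
  unfold pe
  rw [map_sum]
  simp only [map_mul, map_pow, map_natCast]

/-- The values of the variable. -/
def etas (η : Fin n → 𝓞 K) (s : Fin n → ℕ) : 𝓞 K := ∑ j, (s j : 𝓞 K) * η j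

omit [NumberField K] in
lemma coe_etas (η : Fin n → 𝓞 K) (s : Fin n → ℕ) :
    (etas η s : K) = ∑ j, (s j : K) * (η j : K) := by
  have h3 : ∀ z : 𝓞 K, (z : K) = algebraMap (𝓞 K) K z := fun _ => rfl
  unfold etas
  rw [h3, map_sum]
  simp only [map_mul, map_natCast, h3]

lemma house_etas_le (η : Fin n → 𝓞 K) {A₃ S : ℕ} (hη : ∀ j, house (η j : K) ≤ 2 ^ A₃)
    (s : Fin n → ℕ) (hs : ∀ j, s j < S) : house (etas η s : K) ≤ 2 ^ (n + S + A₃) := by
  rw [coe_etas]
  calc house (∑ j, (s j : K) * (η j : K)) ≤ ∑ j, house ((s j : K) * (η j : K)) :=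
        house_sum_le_sum_house _ _
    _ ≤ ∑ _j : Fin n, (2 : ℝ) ^ S * 2 ^ A₃ := by
        apply Finset.sum_le_sum
        intro j _
        rw [house_nat_mul]
        refine mul_le_mul ?_ (hη j) (house_nonneg _) (by positivity)
        have h1 : s j ≤ 2 ^ S := (hs j).le.trans (Nat.lt_two_pow_self).le
        exact_mod_cast h1
    _ = n * (2 ^ S * 2 ^ A₃) := by simp
    _ ≤ 2 ^ n * (2 ^ S * 2 ^ A₃) := by
        gcongr
        exact_mod_cast (Nat.lt_two_pow_self).le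
    _ = 2 ^ (n + S + A₃) := by rw [← pow_add, ← pow_add]; congr 1; ring

lemma house_peI_le (b : ℕ) (w u : 𝓞 K) (m : ℕ) {D₀ q : ℕ} (hb : b < D₀) {W : ℕ}
    (hw : house (w : K) ≤ 2 ^ W) (hu : house (u : K) ≤ 2 ^ q) :
    house (peI b w u m : K) ≤ 2 ^ (D₀ * (D₀ + q) + (W + 1) * m) := by
  have h3 : ∀ z : 𝓞 K, (z : K) = algebraMap (𝓞 K) K z := fun _ => rfl
  have h4 : (peI b w u m : K) = ∑ r ∈ Finset.range (m + 1),
      ((m.choose r * b.descFactorial r : ℕ) : K) * ((u : K) ^ (b - r) * (w : K) ^ (m - r)) := by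
    rw [coe_peI]
    unfold pe
    apply Finset.sum_congr rfl
    intro r _
    push_cast
    ring
  have hdesc : ∀ r, b.descFactorial r ≤ 2 ^ (D₀ * D₀) := by
    intro r
    rcases lt_or_ge b r with h | h
    · rw [Nat.descFactorial_eq_zero_iff_lt.mpr h]
      exact Nat.zero_le _
    · calc b.descFactorial r ≤ b ^ r := Nat.descFactorial_le_pow _ _
        _ ≤ D₀ ^ r := Nat.pow_le_pow_left hb.le _
        _ ≤ D₀ ^ D₀ := Nat.pow_le_pow_right (by omega) (by omega)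
        _ ≤ (2 ^ D₀) ^ D₀ := Nat.pow_le_pow_left (Nat.lt_two_pow_self).le _
        _ = 2 ^ (D₀ * D₀) := by rw [← pow_mul]
  rw [h4]
  calc house (∑ r ∈ Finset.range (m + 1),
        ((m.choose r * b.descFactorial r : ℕ) : K) * ((u : K) ^ (b - r) * (w : K) ^ (m - r))) ≤
        ∑ r ∈ Finset.range (m + 1), house
          (((m.choose r * b.descFactorial r : ℕ) : K) * ((u : K) ^ (b - r) * (w : K) ^ (m - r))) :=
        house_sum_le_sum_house _ _
    _ ≤ ∑ r ∈ Finset.range (m + 1), (2 : ℝ) ^ (D₀ * (D₀ + q)) *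
        (1 ^ r * ((2 : ℝ) ^ W) ^ (m - r) * (m.choose r : ℝ)) := by
        apply Finset.sum_le_sum
        intro r _
        rw [house_nat_mul]
        have h5 : house ((u : K) ^ (b - r) * (w : K) ^ (m - r)) ≤
            (2 ^ q) ^ D₀ * (2 ^ W) ^ (m - r) := by
          refine (house_mul_le _ _).trans ?_
          gcongr
          · exact house_nonneg _
          · refine (house_pow_le _ _).trans ((pow_le_pow_left₀ (house_nonneg _) hu _).trans ?_)
            exact pow_le_pow_right₀ (one_le_pow₀ (by norm_num)) (by omega)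
          · exact (house_pow_le _ _).trans (pow_le_pow_left₀ (house_nonneg _) hw _)
        have h6 : ((m.choose r * b.descFactorial r : ℕ) : ℝ) ≤ (m.choose r : ℝ) * 2 ^ (D₀ * D₀) := by
          push_cast
          gcongr
          exact_mod_cast hdesc r
        calc ((m.choose r * b.descFactorial r : ℕ) : ℝ) *
              house ((u : K) ^ (b - r) * (w : K) ^ (m - r)) ≤
              ((m.choose r : ℝ) * 2 ^ (D₀ * D₀)) * ((2 ^ q) ^ D₀ * (2 ^ W) ^ (m - r)) := by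
              gcongr
              exact house_nonneg _
          _ = 2 ^ (D₀ * (D₀ + q)) * (1 ^ r * (2 ^ W) ^ (m - r) * (m.choose r : ℝ)) := by
              rw [mul_add, pow_add, one_pow, ← pow_mul 2 q D₀, mul_comm q D₀]
              ring
    _ = 2 ^ (D₀ * (D₀ + q)) * (1 + 2 ^ W) ^ m := by
        rw [← Finset.mul_sum, ← add_pow]
    _ ≤ 2 ^ (D₀ * (D₀ + q)) * (2 ^ (W + 1)) ^ m := by
        gcongr
        have h7 : (1 : ℝ) ≤ 2 ^ W := one_le_pow₀ (by norm_num)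
        rw [pow_succ]
        linarith
    _ = 2 ^ (D₀ * (D₀ + q) + (W + 1) * m) := by rw [← pow_mul, ← pow_add]

/-- The coefficient of the linear forms. -/
def coeffI (x : Fin g → Fin n → 𝓞 K) (dd : ℕ) (β : Fin g × Fin n → 𝓞 K) (e : ℕ) (σ₀ : Fin n)
    (η : Fin n → 𝓞 K) (τ : Fin n → ℕ) (s : Fin n → ℕ) (b : ℕ) (k : Fin g → ℕ) : 𝓞 K :=
  ((∏ σ ∈ Finset.univ.erase σ₀, kap x k σ ^ τ σ) * peI b (kap x k σ₀) (etas η s) (τ σ₀)) *
    bint dd β e k s

lemma house_coeffI_le (x : Fin g → Fin n → 𝓞 K) (A : Fin g → Fin n → K) (dd : ℕ)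
    (β : Fin g × Fin n → 𝓞 K) {A₀ A₁ A₃ l : ℕ} (hx : ∀ j σ, house (x j σ : K) ≤ 2 ^ A₁)
    (hdd : (dd : ℝ) ≤ 2 ^ A₀) (hβ : ∀ i, house (β i : K) ≤ 2 ^ A₀) (e : ℕ) (σ₀ : Fin n)
    (η : Fin n → 𝓞 K) (hη : ∀ j, house (η j : K) ≤ 2 ^ A₃) {D₀ S : ℕ}
    (hD₀ : D₀ * (D₀ + (n + S + A₃)) ≤ 2 ^ l)
    (τ : Fin n → ℕ) (s : Fin n → ℕ) (hs : ∀ j, s j < S) (b : ℕ) (hb : b < D₀)
    (k : Fin g → Fin (2 ^ l))
    (he : ∑ j, ∑ j', (k j : ℕ) * s j' ≤ e) {t : ℕ} (hτ : ∑ j, τ j ≤ t) (ht : 2 ^ l ≤ t) :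
    house (coeffI x dd β e σ₀ η τ s b (fun i => (k i : ℕ)) : K) ≤
      2 ^ ((g + 1 + (A₁ + 1) + l) * t + A₀ * e) := by
  have h3 : ∀ z : 𝓞 K, (z : K) = algebraMap (𝓞 K) K z := fun _ => rfl
  have h6 : (coeffI x dd β e σ₀ η τ s b (fun i => (k i : ℕ)) : K) =
      ((∏ σ ∈ Finset.univ.erase σ₀, (kap x (fun i => (k i : ℕ)) σ : K) ^ τ σ) *
        (peI b (kap x (fun i => (k i : ℕ)) σ₀) (etas η s) (τ σ₀) : K)) *
        (bint dd β e (fun i => (k i : ℕ)) s : K) := by
    unfold coeffI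
    rw [h3, map_mul, map_mul, map_prod]
    simp only [map_pow]
  have h7 : ∑ σ ∈ Finset.univ.erase σ₀, τ σ + τ σ₀ ≤ t := by
    rw [Finset.sum_erase_add _ _ (Finset.mem_univ σ₀)]
    exact hτ
  rw [h6]
  calc _ ≤ house ((∏ σ ∈ Finset.univ.erase σ₀, (kap x (fun i => (k i : ℕ)) σ : K) ^ τ σ) *
        (peI b (kap x (fun i => (k i : ℕ)) σ₀) (etas η s) (τ σ₀) : K)) *
        house (bint dd β e (fun i => (k i : ℕ)) s : K) := house_mul_le _ _
    _ ≤ ((∏ σ ∈ Finset.univ.erase σ₀, (2 ^ (g + A₁ + l) : ℝ) ^ τ σ) *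
        2 ^ (D₀ * (D₀ + (n + S + A₃)) + (g + A₁ + l + 1) * τ σ₀)) * 2 ^ (A₀ * e) := by
        gcongr
        · exact house_nonneg _
        · refine (house_mul_le _ _).trans ?_
          gcongr
          · exact house_nonneg _
          · refine (house_prod_le' _ _).trans ?_
            apply Finset.prod_le_prod (fun _ _ => house_nonneg _)
            intro σ _
            exact (house_pow_le _ _).trans (pow_le_pow_left₀ (house_nonneg _) (house_kap_le x hx k σ) _)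
          · exact house_peI_le b _ _ _ hb (house_kap_le x hx k σ₀) (house_etas_le η hη s hs)
        · exact house_bint_le A dd β hdd hβ e _ s he
    _ = 2 ^ ((g + A₁ + l) * (∑ σ ∈ Finset.univ.erase σ₀, τ σ) +
        (D₀ * (D₀ + (n + S + A₃)) + (g + A₁ + l + 1) * τ σ₀) + A₀ * e) := by
        rw [Finset.prod_pow_eq_pow_sum, ← pow_mul, ← pow_add, ← pow_add]
    _ ≤ 2 ^ ((g + 1 + (A₁ + 1) + l) * t + A₀ * e) := by
        apply pow_le_pow_right₀ (by norm_num)
        have h8 : (g + A₁ + l) * (∑ σ ∈ Finset.univ.erase σ₀, τ σ) +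
            (g + A₁ + l + 1) * τ σ₀ ≤ (g + A₁ + l + 1) * t := by
          calc (g + A₁ + l) * (∑ σ ∈ Finset.univ.erase σ₀, τ σ) +
              (g + A₁ + l + 1) * τ σ₀ ≤ (g + A₁ + l + 1) * (∑ σ ∈ Finset.univ.erase σ₀, τ σ) +
              (g + A₁ + l + 1) * τ σ₀ :=
                Nat.add_le_add_right (Nat.mul_le_mul_right _ (by omega)) _
            _ = (g + A₁ + l + 1) * (∑ σ ∈ Finset.univ.erase σ₀, τ σ + τ σ₀) := by ring
            _ ≤ _ := Nat.mul_le_mul_left _ h7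
        have h9 : (g + 1 + (A₁ + 1) + l) * t = (g + A₁ + l + 1) * t + t := by ring
        rw [h9]
        omega

end

end CoreIaux

open CoreIaux in
theorem stCoreI (h2 : StUpperI) (h3 : StMomentsI) : StCoreI := by
  intro p hp C _ _ _ _ K _ _ φ n g hn hng x hx y hy hdet A hA σ₀ η hη
  classical
  have hchar : CharZero C := charZero_of_injective_algebraMap (algebraMap ℚ_[p] C).injective
  obtain ⟨dd, β, A₀, hdd0, hβ, hddA, hβA⟩ := exists_denominator K
    (fun ki : Fin g × Fin n => A ki.1 ki.2)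
  obtain ⟨A₁, hA₁⟩ : ∃ A₁ : ℕ, ∀ j σ, house (x j σ : K) ≤ 2 ^ A₁ := by
    obtain ⟨A₁, h⟩ := pow_unbounded_of_one_lt (∑ j, ∑ σ, house (x j σ : K)) one_lt_two
    refine ⟨A₁, fun j σ => le_trans ?_ h.le⟩
    have h1 := Finset.single_le_sum (f := fun σ => house (x j σ : K))
      (fun j _ => house_nonneg _) (Finset.mem_univ σ)
    have h2 := Finset.single_le_sum (f := fun j => ∑ σ, house (x j σ : K))
      (fun j _ => Finset.sum_nonneg (fun _ _ => house_nonneg _)) (Finset.mem_univ j)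
    exact h1.trans h2
  obtain ⟨A₂, hA₂⟩ : ∃ A₂ : ℕ, ∀ σ j, ‖(Matrix.of y)⁻¹ σ j‖ ≤ 2 ^ A₂ := by
    obtain ⟨A₂, h⟩ := pow_unbounded_of_one_lt (∑ σ, ∑ j, ‖(Matrix.of y)⁻¹ σ j‖) one_lt_two
    refine ⟨A₂, fun j σ => le_trans ?_ h.le⟩
    have h1 := Finset.single_le_sum (f := fun σ => ‖(Matrix.of y)⁻¹ j σ‖)
      (fun j _ => norm_nonneg _) (Finset.mem_univ σ)
    have h2 := Finset.single_le_sum (f := fun j => ∑ σ, ‖(Matrix.of y)⁻¹ j σ‖)
      (fun j _ => Finset.sum_nonneg (fun _ _ => norm_nonneg _)) (Finset.mem_univ j)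
    exact h1.trans h2
  obtain ⟨A₃, hA₃⟩ : ∃ A₃ : ℕ, ∀ j, house (η j : K) ≤ 2 ^ A₃ := by
    obtain ⟨A₃, h⟩ := pow_unbounded_of_one_lt (∑ j, house (η j : K)) one_lt_two
    refine ⟨A₃, fun j => le_trans ?_ h.le⟩
    exact Finset.single_le_sum (f := fun j => house (η j : K))
      (fun j _ => house_nonneg _) (Finset.mem_univ j)
  obtain ⟨c, hc1, hsiegel⟩ := siegel K
  obtain ⟨c₀, hc₀⟩ := pow_unbounded_of_one_lt c one_lt_two
  set N0 := finrank ℚ K * n with hN0
  set M1 := 4 * N0 * A₀ * (g + 1) * n + 1 with hM1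
  set M2 := 2 * (A₂ * n + 2 + N0 * (4 * (g + 1) + c₀ + 2 * (A₁ + 1) + 2)) + 2 with hM2
  obtain ⟨l, hl⟩ := exists_param2 (M1 * M2) M2 n A₃ hn (Nat.mul_pos (by omega) (by omega))
  set D := 2 ^ l with hD
  set D₀ := 2 * (M1 * M2 * (l + 1)) ^ n with hD₀def
  set T := M1 * D with hT
  set S := M2 * (l + 1) with hSdef
  set e := (g + 1) * n * D * S with he
  have hDpos : 0 < D := by positivity
  have hT1 : 1 ≤ T := Nat.mul_pos (by omega) hDpos
  have hDT : D ≤ T := Nat.le_mul_of_pos_left _ (by omega)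
  have hS2 : 2 ≤ S := by
    calc 2 ≤ M2 := by omega
      _ ≤ M2 * (l + 1) := Nat.le_mul_of_pos_right _ (by omega)
  have hD₀l : D₀ * (D₀ + (n + S + A₃)) ≤ 2 ^ l := by
    have h1 : D₀ + (n + S + A₃) = D₀ + n + S + A₃ := by ring
    rw [h1]
    exact hl
  have hD₀D : D₀ ≤ D := by
    refine le_trans ?_ hD₀l
    exact Nat.le_mul_of_pos_right _ (by omega)
  have hE : ∀ (k : Fin g → Fin D) (s : Fin n → ℕ), (∀ j, s j < S) →
      ∑ j, ∑ j', (k j : ℕ) * s j' ≤ e := by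
    intro k s hs
    calc ∑ j, ∑ j', (k j : ℕ) * s j' ≤ ∑ _j : Fin g, ∑ _j' : Fin n, D * S := by
          apply Finset.sum_le_sum
          intro j _
          apply Finset.sum_le_sum
          intro j' _
          exact Nat.mul_le_mul (k j).isLt.le (hs j').le
      _ = g * n * D * S := by simp; ring
      _ ≤ e := by
          rw [he]
          gcongr
          omega
  -- Siegel
  let α := {τ // τ ∈ expSet n T} × (Fin n → Fin S)
  let ι := Fin D₀ × (Fin g → Fin D)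
  have hιcard : Fintype.card ι = D₀ * D ^ g := by simp [ι]
  have hαcard : Fintype.card α ≤ T ^ n * S ^ n := by
    simp only [α, Fintype.card_prod, Fintype.card_coe, Fintype.card_fun, Fintype.card_fin]
    exact Nat.mul_le_mul_right _ (card_expSet_le n T)
  have hα0 : 0 < Fintype.card α := by
    apply Fintype.card_pos_iff.mpr
    refine ⟨⟨⟨fun _ => 0, ?_⟩, fun _ => ⟨0, by omega⟩⟩⟩
    rw [expSet, Finset.mem_biUnion]
    exact ⟨0, Finset.mem_range.mpr hT1, by simp; rfl⟩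
  have hαι : 2 * Fintype.card α ≤ Fintype.card ι := by
    rw [hιcard]
    calc 2 * Fintype.card α ≤ 2 * (T ^ n * S ^ n) := Nat.mul_le_mul_left _ hαcard
      _ = D₀ * D ^ n := by
          rw [hT, hSdef, hD₀def]
          simp only [mul_pow]
          ring
      _ ≤ D₀ * D ^ g := Nat.mul_le_mul_left _ (Nat.pow_le_pow_right hDpos hng)
  have hsum_expSet : ∀ τ : Fin n → ℕ, τ ∈ expSet n T ↔ ∑ j, τ j < T := by
    intro τ
    rw [expSet, Finset.mem_biUnion]
    constructor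
    · rintro ⟨j, hj, h⟩
      rw [Finset.mem_piAntidiag] at h
      rw [h.1]
      exact Finset.mem_range.mp hj
    · intro h
      exact ⟨_, Finset.mem_range.mpr h, by simp [Finset.mem_piAntidiag]⟩
  obtain ⟨ξ, hξ0, hξ, hξb⟩ := hsiegel α ι
    (fun a i => coeffI x dd β e σ₀ η a.1.1 (fun j => (a.2 j : ℕ)) (i.1 : ℕ) (fun j => (i.2 j : ℕ)))
    (2 ^ ((g + 1 + (A₁ + 1) + l) * T + A₀ * e)) (one_le_pow₀ (by norm_num))
    (by
      intro a i
      apply house_coeffI_le x A dd β hA₁ hddA hβA e σ₀ η hA₃ hD₀l _ _ (fun j => (a.2 j).isLt) _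
        i.1.isLt i.2 (hE i.2 _ (fun j => (a.2 j).isLt)) _ hDT
      exact ((hsum_expSet _).mp a.1.2).le)
    hα0 hαι
  -- the linear forms
  let Λ : (Fin n → ℕ) → (Fin n → ℕ) → 𝓞 K := fun τ s =>
    ∑ i : ι, coeffI x dd β e σ₀ η τ s (i.1 : ℕ) (fun j => (i.2 j : ℕ)) * ξ i
  have hΛφ : ∀ (τ s : Fin n → ℕ), (∀ j, s j < S) → φ (Λ τ s : K) = (dd : C) ^ e *
      dF φ x A σ₀ η ξ s τ := by
    intro τ s hs
    have h3 : ∀ z : 𝓞 K, (z : K) = algebraMap (𝓞 K) K z := fun _ => rfl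
    have h4 : (Λ τ s : K) = ∑ i : ι, (((∏ σ ∈ Finset.univ.erase σ₀,
        (kap x (fun j => (i.2 j : ℕ)) σ : K) ^ τ σ) *
          pe (i.1 : ℕ) (kap x (fun j => (i.2 j : ℕ)) σ₀ : K) (∑ j, (s j : K) * (η j : K))
            (τ σ₀)) * ((dd : K) ^ e * apow A (fun j => (i.2 j : ℕ)) s)) * (ξ i : K) := by
      simp only [Λ]
      rw [h3, map_sum]
      apply Finset.sum_congr rfl
      intro i _
      rw [map_mul]
      congr 1
      unfold coeffI
      rw [map_mul, map_mul, map_prod]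
      simp only [map_pow]
      congr 1
      · congr 1
        rw [← coe_etas]
        exact coe_peI _ _ _ _
      · exact bint_coe A dd β hβ e _ s (hE i.2 s hs)
    rw [h4, map_sum]
    unfold dF
    rw [Finset.mul_sum]
    apply Finset.sum_congr rfl
    intro i _
    rw [map_mul, map_mul, map_mul, map_mul, map_pow, map_natCast, map_prod, map_pe]
    simp only [map_pow]
    ring
  have hddC : (dd : C) ^ e ≠ 0 := pow_ne_zero _ (by exact_mod_cast hdd0)
  have hΛzero : ∀ (τ s : Fin n → ℕ), (∀ j, s j < S) → (Λ τ s = 0 ↔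
      dF φ x A σ₀ η ξ s τ = 0) := by
    intro τ s hs
    have h3 : Λ τ s = 0 ↔ φ (Λ τ s : K) = 0 := by
      rw [map_eq_zero]
      exact (RingOfIntegers.coe_eq_zero_iff).symm
    rw [h3, hΛφ τ s hs, mul_eq_zero]
    exact ⟨fun h => h.resolve_left hddC, Or.inr⟩
  have hιle : ((Fintype.card ι : ℕ) : ℝ) ≤ 2 ^ (l * (g + 1)) := by
    rw [hιcard]
    have h1 : D₀ * D ^ g ≤ 2 ^ (l * (g + 1)) := by
      calc D₀ * D ^ g ≤ D * D ^ g := Nat.mul_le_mul_right _ hD₀D
        _ = 2 ^ (l * (g + 1)) := by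
            rw [hD, ← pow_mul, ← pow_add]
            congr 1
            ring
    exact_mod_cast h1
  -- vanishing at all orders
  have hVall : ∀ t, T ≤ t → ∀ s : Fin n → ℕ, (∀ j, s j < S) → ∀ τ : Fin n → ℕ, ∑ j, τ j < t →
      dF φ x A σ₀ η ξ s τ = 0 := by
    intro t ht
    induction t, ht using Nat.le_induction with
    | base =>
      intro s hs τ hτ
      rw [← hΛzero τ s hs]
      exact hξ (⟨τ, (hsum_expSet τ).mpr hτ⟩, fun j => ⟨s j, hs j⟩)
    | succ t ht ih =>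
      intro s hs τ hτ
      by_cases hτt : ∑ j, τ j < t
      · exact ih s hs τ hτt
      have hτt' : ∑ j, τ j = t := by omega
      by_contra hne
      have hΛne : Λ τ s ≠ 0 := fun h => hne ((hΛzero τ s hs).mp h)
      -- house
      set h := 2 * l * (g + 1) + c₀ + (g + 1 + (A₁ + 1) + l) * (T + t) + 2 * A₀ * e with hh
      have hhouse : house (Λ τ s : K) ≤ 2 ^ h := by
        have h3 : ∀ z : 𝓞 K, (z : K) = algebraMap (𝓞 K) K z := fun _ => rfl
        have h4 : (Λ τ s : K) = ∑ i : ι, (coeffI x dd β e σ₀ η τ s (i.1 : ℕ)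
            (fun j => (i.2 j : ℕ)) : K) * (ξ i : K) := by
          simp only [Λ]
          rw [h3, map_sum]
          apply Finset.sum_congr rfl
          intro k _
          rw [map_mul]
        rw [h4]
        calc house (∑ i : ι, (coeffI x dd β e σ₀ η τ s (i.1 : ℕ)
              (fun j => (i.2 j : ℕ)) : K) * (ξ i : K)) ≤
              ∑ i : ι, house ((coeffI x dd β e σ₀ η τ s (i.1 : ℕ)
              (fun j => (i.2 j : ℕ)) : K) * (ξ i : K)) :=
              house_sum_le_sum_house _ _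
          _ ≤ ∑ _i : ι, (2 ^ ((g + 1 + (A₁ + 1) + l) * t + A₀ * e) : ℝ) *
              (2 ^ c₀ * 2 ^ (l * (g + 1)) * 2 ^ ((g + 1 + (A₁ + 1) + l) * T + A₀ * e)) := by
              apply Finset.sum_le_sum
              intro i _
              refine (house_mul_le _ _).trans ?_
              have h6 := hξb i
              have h7 : c * (Fintype.card ι : ℝ) * 2 ^ ((g + 1 + (A₁ + 1) + l) * T + A₀ * e) ≤
                  2 ^ c₀ * 2 ^ (l * (g + 1)) * 2 ^ ((g + 1 + (A₁ + 1) + l) * T + A₀ * e) := by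
                gcongr
              gcongr
              · exact house_nonneg _
              · exact house_coeffI_le x A dd β hA₁ hddA hβA e σ₀ η hA₃ hD₀l τ s hs _
                  i.1.isLt i.2 (hE i.2 s hs) hτt'.le (hDT.trans ht)
              · exact h6.trans h7
          _ = (Fintype.card ι : ℝ) * ((2 ^ ((g + 1 + (A₁ + 1) + l) * t + A₀ * e) : ℝ) *
              (2 ^ c₀ * 2 ^ (l * (g + 1)) * 2 ^ ((g + 1 + (A₁ + 1) + l) * T + A₀ * e))) := by
              rw [Finset.sum_const, Finset.card_univ, nsmul_eq_mul]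
          _ ≤ 2 ^ (l * (g + 1)) * ((2 ^ ((g + 1 + (A₁ + 1) + l) * t + A₀ * e) : ℝ) *
              (2 ^ c₀ * 2 ^ (l * (g + 1)) * 2 ^ ((g + 1 + (A₁ + 1) + l) * T + A₀ * e))) := by
              gcongr
          _ = 2 ^ h := by
              rw [hh]
              simp only [← pow_add]
              congr 1
              ring
      have hliou := liouville (p := p) φ (Λ τ s) hΛne hhouse
      -- upper bound
      set q : ℝ := 4 * (1 / 2 : ℝ) ^ S with hq
      have hq0 : 0 ≤ q := by positivity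
      have hU := h2 p C K φ n g hn x y hy hdet A hA σ₀ η hη D₀ D ξ S t hS2 (2 ^ A₂)
        (by positivity) hA₂ ih s hs τ hτt'
      have hφΛ : ‖φ (Λ τ s : K)‖ ≤ ‖dF φ x A σ₀ η ξ s τ‖ := by
        rw [hΛφ τ s hs, norm_mul, norm_pow]
        calc ‖(dd : C)‖ ^ e * _ ≤ 1 * ‖dF φ x A σ₀ η ξ s τ‖ := by
              gcongr
              exact pow_le_one₀ (norm_nonneg _) (IsUltrametricDist.norm_natCast_le_one C dd)
          _ = _ := one_mul _
      have h10 : (1 : ℝ) ≤ ((2 ^ A₂) ^ t) ^ n * q ^ t * ((2 ^ h) ^ (finrank ℚ K)) ^ n := by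
        calc (1 : ℝ) ≤ (‖φ (Λ τ s : K)‖ * (2 ^ h) ^ (finrank ℚ K)) ^ n := one_le_pow₀ hliou
          _ = ‖φ (Λ τ s : K)‖ ^ n * ((2 ^ h) ^ (finrank ℚ K)) ^ n := mul_pow _ _ _
          _ ≤ ‖dF φ x A σ₀ η ξ s τ‖ ^ n * ((2 ^ h) ^ (finrank ℚ K)) ^ n := by gcongr
          _ ≤ _ := by gcongr
      have h11 := param_ineq N0 A₀ (A₁ + 1) A₂ c₀ (g + 1) n l t D S T M1 M2 hM1 hM2 hT hSdef ht
        (by omega)
      have h12 : ((2 ^ A₂) ^ t) ^ n * q ^ t * ((2 ^ h) ^ (finrank ℚ K)) ^ n =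
          (2 : ℝ) ^ (A₂ * t * n + 2 * t + h * N0) * (1 / 2) ^ (S * t) := by
        rw [hq, mul_pow]
        have h13 : (4 : ℝ) ^ t = 2 ^ (2 * t) := by
          rw [pow_mul]; norm_num
        rw [h13, ← pow_mul, ← pow_mul, ← pow_mul, ← pow_mul, ← pow_mul, hN0, pow_add, pow_add]
        ring
      rw [h12] at h10
      have h15 : (2 : ℝ) ^ (A₂ * t * n + 2 * t + h * N0) * (1 / 2) ^ (S * t) < 1 := by
        calc (2 : ℝ) ^ (A₂ * t * n + 2 * t + h * N0) * (1 / 2) ^ (S * t) <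
              2 ^ (S * t) * (1 / 2) ^ (S * t) := by
              gcongr
              · norm_num
          _ = 1 := by rw [← mul_pow]; norm_num
      linarith
  -- conclusion
  have hzero : ∀ τ : Fin n → ℕ, ∑ i : ι, (ξ i : K) *
      ((∏ σ ∈ Finset.univ.erase σ₀, (kap x (fun j => (i.2 j : ℕ)) σ : K) ^ τ σ) *
        pe (i.1 : ℕ) (kap x (fun j => (i.2 j : ℕ)) σ₀ : K) 0 (τ σ₀)) = 0 := by
    intro τ
    have h1 := hVall (max T (∑ j, τ j + 1)) (le_max_left _ _) (fun _ => 0) (fun _ => by omega) τ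
      (lt_of_lt_of_le (Nat.lt_succ_self _) (le_max_right _ _))
    unfold dF at h1
    have h2 : ∀ k : Fin g → ℕ, apow A k (fun _ => 0) = 1 := by
      intro k
      simp [apow]
    simp only [h2, map_one, mul_one, Nat.cast_zero, zero_mul, Finset.sum_const_zero,
      map_zero] at h1
    have h3 : φ (∑ i : ι, (ξ i : K) *
      ((∏ σ ∈ Finset.univ.erase σ₀, (kap x (fun j => (i.2 j : ℕ)) σ : K) ^ τ σ) *
        pe (i.1 : ℕ) (kap x (fun j => (i.2 j : ℕ)) σ₀ : K) 0 (τ σ₀))) = 0 := by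
      rw [← h1, map_sum]
      apply Finset.sum_congr rfl
      intro k _
      rw [map_mul, map_mul, map_prod, map_pe, map_zero]
      simp only [map_pow]
    exact (map_eq_zero φ).mp h3
  have hinj : Function.Injective (fun (k : Fin g → Fin D) (σ : Fin n) =>
      (kap x (fun i => (k i : ℕ)) σ : K)) := by
    intro k k' h
    have h1 := hx (fun i => (k i : ℕ)) (fun i => (k' i : ℕ)) (fun σ => by
      have h2 := congrFun h σ
      exact RingOfIntegers.coe_injective h2)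
    funext i
    exact Fin.ext (congrFun h1 i)
  have hfin := h3 K n σ₀ (Fin g → Fin D) (fun k σ => (kap x (fun i => (k i : ℕ)) σ : K)) hinj
    D₀ (fun i => (ξ i : K)) hzero
  apply hξ0
  funext k
  have h1 := congrFun hfin k
  exact RingOfIntegers.coe_eq_zero_iff.mp h1

end Pool.Agent.Lib.MP_c50dba_nt.RD
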