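import Pool.Agent.Lib.MP_c50dba_nt.RD.Stmts
import Pool.Agent.Lib.MP_c50dba_nt.Gen.Schwarz

set_option autoImplicit false

/-!
Extrapolation for exponential polynomials in one variable.
-/

namespace Pool.Agent.Lib.MP_c50dba_nt.RD

open scoped BigOperators
open Pool.Agent.Lib.MP_c50dba_nt Pool.Agent.Lib.MP_c50dba_nt.Gen

namespace ExtrapIaux

section algebra

variable {C : Type} [Field C]

lemma pe_zero_left (w u : C) (m : ℕ) : pe 0 w u m = w ^ m := by
  unfold pe
  rw [Finset.sum_eq_single 0]
  · simp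
  · intro r _ hr
    obtain ⟨q, rfl⟩ := Nat.exists_eq_succ_of_ne_zero hr
    simp
  · intro h
    simp at h

lemma pe_zero_right (b : ℕ) (w u : C) : pe b w u 0 = u ^ b := by
  unfold pe
  simp

lemma pe_succ (b : ℕ) (w u : C) (m : ℕ) :
    pe (b + 1) w u (m + 1) = u * pe b w u (m + 1) + ((m + 1 : ℕ) : C) * pe b w u m := by
  unfold pe
  rw [Finset.sum_range_succ' _ (m + 1), Finset.sum_range_succ' _ (m + 1), mul_add, Finset.mul_sum,
    Finset.mul_sum]
  have h0 : ((m + 1).choose 0 : C) * ((b + 1).descFactorial 0 : C) * u ^ (b + 1 - 0) *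
      w ^ (m + 1 - 0) = u * (((m + 1).choose 0 : C) * (b.descFactorial 0 : C) * u ^ (b - 0) *
        w ^ (m + 1 - 0)) := by
    simp only [Nat.sub_zero, pow_succ u b]
    simp
    ring
  have h1 : ∀ r ∈ Finset.range (m + 1),
      ((m + 1).choose (r + 1) : C) * ((b + 1).descFactorial (r + 1) : C) *
        u ^ (b + 1 - (r + 1)) * w ^ (m + 1 - (r + 1)) =
      u * (((m + 1).choose (r + 1) : C) * (b.descFactorial (r + 1) : C) * u ^ (b - (r + 1)) *
        w ^ (m + 1 - (r + 1))) +
      ((m + 1 : ℕ) : C) * ((m.choose r : C) * (b.descFactorial r : C) * u ^ (b - r) *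
        w ^ (m - r)) := by
    intro r _
    have e1 : b + 1 - (r + 1) = b - r := by omega
    have e2 : m + 1 - (r + 1) = m - r := by omega
    have e3 : ((m + 1 : ℕ) : C) * (m.choose r : C) = ((m + 1).choose (r + 1) : C) * ((r + 1 : ℕ) : C) := by
      exact_mod_cast congrArg (fun z : ℕ => (z : C)) (Nat.add_one_mul_choose_eq m r)
    rw [e1, e2, Nat.succ_descFactorial_succ, Nat.descFactorial_succ]
    rcases lt_trichotomy b r with h | h | h
    · rw [Nat.descFactorial_of_lt h]
      simp
    · subst h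
      simp only [Nat.sub_self, zero_mul, Nat.cast_zero, mul_zero, zero_add, Nat.cast_mul]
      linear_combination (-(b.descFactorial b : C) * u ^ 0 * w ^ (m - b)) * e3
    · obtain ⟨q, hq⟩ : ∃ q, b = r + 1 + q := ⟨b - (r + 1), by omega⟩
      have e4 : b - r = q + 1 := by omega
      have e5 : b - (r + 1) = q := by omega
      have e6 : ((b + 1 : ℕ) : C) = ((q + 1 : ℕ) : C) + ((r + 1 : ℕ) : C) := by
        rw [hq]
        push_cast
        ring
      rw [e4, e5, Nat.cast_mul, Nat.cast_mul, e6, pow_succ u q]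
      linear_combination (-(b.descFactorial r : C) * (u ^ q * u) * w ^ (m - r)) * e3
  rw [Finset.sum_congr rfl h1, Finset.sum_add_distrib, h0]
  ring

end algebra

section analytic

variable {p : ℕ} [hp : Fact p.Prime] {C : Type} [NormedField C] [CompleteSpace C]
  [IsUltrametricDist C] [NormedAlgebra ℚ_[p] C]

/-- the coefficients of `u ^ b * e ^ (w u)` -/
noncomputable def fe (b : ℕ) (w : C) (m : ℕ) : C := if b ≤ m then ecoef w (m - b) else 0

omit [CompleteSpace C] [IsUltrametricDist C] in
lemma fe_zero (w : C) : fe 0 w = ecoef w := by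
  funext m
  simp [fe]

omit [CompleteSpace C] [IsUltrametricDist C] in
lemma fe_succ_zero (b : ℕ) (w : C) : fe (b + 1) w 0 = 0 := by
  simp [fe]

omit [CompleteSpace C] [IsUltrametricDist C] in
lemma fe_succ_succ (b : ℕ) (w : C) (m : ℕ) : fe (b + 1) w (m + 1) = fe b w m := by
  unfold fe
  by_cases h : b ≤ m
  · rw [if_pos h, if_pos (by omega)]
    congr 1
    omega
  · rw [if_neg h, if_neg (by omega)]

include hp in
omit [CompleteSpace C] [IsUltrametricDist C] in
lemma norm_fe_le (b : ℕ) {w : C} (hw : ‖w‖ ≤ 1) (m : ℕ) : ‖fe b w m‖ ≤ 1 * 2 ^ m := by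
  unfold fe
  rw [one_mul]
  split_ifs with h
  · refine (norm_ecoef_le (p := p) hw (m - b)).trans ?_
    exact pow_le_pow_right₀ (by norm_num) (by omega)
  · rw [norm_zero]
    positivity

/-- Taylor coefficients of a product with the variable. -/
lemma tc_shift {g h : ℕ → C} {M : ℝ} (hg : ∀ k, ‖g k‖ ≤ M * 2 ^ k) (h0 : h 0 = 0)
    (hh : ∀ m, h (m + 1) = g m) {c : C} (hc : ‖c‖ ≤ 1 / 4) :
    tc h c 0 = c * tc g c 0 ∧ ∀ b, tc h c (b + 1) = c * tc g c (b + 1) + tc g c b := by
  constructor
  · have s0 := weight_summable hg (fun _ => 1) 0 hc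
    have sh : Summable (fun m => ((m + 0).choose 0 : C) * h (m + 0) * c ^ m) := by
      rw [← summable_nat_add_iff 1]
      refine (s0.mul_left c).congr ?_
      intro m
      simp only [Nat.cast_one, one_mul, add_zero, hh, pow_succ, Nat.choose_zero_right]
      ring
    unfold tc
    rw [sh.tsum_eq_zero_add, ← tsum_mul_left]
    simp only [add_zero, h0, mul_zero, zero_mul, zero_add, hh, Nat.choose_zero_right, Nat.cast_one,
      one_mul]
    congr 1
    funext m
    rw [pow_succ]
    ring
  · intro b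
    have s1 := weight_summable hg (fun m => (m + b).choose b) b hc
    have s2 := weight_summable hg (fun m => (m + b).choose (b + 1)) b hc
    have e1 : ∑' m, ((m + b).choose (b + 1) : C) * g (m + b) * c ^ m = c * tc g c (b + 1) := by
      rw [s2.tsum_eq_zero_add]
      unfold tc
      rw [← tsum_mul_left]
      simp only [Nat.choose_succ_self, Nat.cast_zero, zero_mul, zero_add]
      congr 1
      funext m
      have : m + 1 + b = m + (b + 1) := by ring
      rw [this, pow_succ]
      ring
    have e2 : tc h c (b + 1) = ∑' m, (((m + b).choose b : C) * g (m + b) * c ^ m +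
        ((m + b).choose (b + 1) : C) * g (m + b) * c ^ m) := by
      unfold tc
      congr 1
      funext m
      have h2 : ((m + b + 1).choose (b + 1) : C) =
          ((m + b).choose b : C) + ((m + b).choose (b + 1) : C) := by
        rw [Nat.choose_succ_succ]
        push_cast
        ring
      rw [← add_assoc, hh, h2]
      ring
    rw [e2, s1.tsum_add s2, e1]
    unfold tc
    ring

include hp in
/-- Taylor coefficients of `u ^ b * e ^ (w u)`. -/
lemma tc_fe {w z : C} (hw : ‖w‖ ≤ 1) (hz : ‖z‖ ≤ 1 / 4) (b : ℕ) :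
    ∀ n, tc (fe b w) z n = pe b w z n * ex (w * z) / (n.factorial : C) := by
  have : CharZero C := charZero_of_injective_algebraMap (algebraMap ℚ_[p] C).injective
  induction b with
  | zero =>
    intro n
    have h := tc_sum (p := p) (fun _ : Unit => (1 : C)) (fun _ : Unit => w) (fun _ => hw) hz n
    simp only [Finset.univ_unique, Finset.sum_singleton, one_mul] at h
    rw [fe_zero, pe_zero_left]
    refine Eq.trans h ?_
    unfold ecoef
    ring
  | succ b ih =>
    have h := tc_shift (norm_fe_le (p := p) b hw) (fe_succ_zero b w) (fe_succ_succ b w) hz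
    intro n
    cases n with
    | zero =>
      rw [h.1, ih 0, pe_zero_right, pe_zero_right, pow_succ]
      ring
    | succ n =>
      rw [h.2 n, ih (n + 1), ih n, pe_succ, Nat.factorial_succ]
      have h1 : (n.factorial : C) ≠ 0 := by exact_mod_cast n.factorial_ne_zero
      have h2 : ((n + 1 : ℕ) : C) ≠ 0 := by exact_mod_cast n.succ_ne_zero
      rw [Nat.cast_mul]
      field_simp

include hp in
/-- Extrapolation for exponential polynomials. -/
lemma extrap' {ι : Type} [Fintype ι] (c w : ι → C) (b : ι → ℕ) (hc : ∀ k, ‖c k‖ ≤ 1)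
    (hw : ∀ k, ‖w k‖ ≤ 1) {ϖ : C} (hϖ : ‖ϖ‖ ≤ 1 / 4) (hϖ0 : ϖ ≠ 0) (S m : ℕ)
    (hz : ∀ i < S, ∀ j < m, ∑ k, c k * pe (b k) (w k) ((i : C) * ϖ) j *
      ex (w k * ((i : C) * ϖ)) = 0) (i₀ : ℕ) :
    ‖∑ k, c k * pe (b k) (w k) ((i₀ : C) * ϖ) m * ex (w k * ((i₀ : C) * ϖ))‖ ≤
      4 ^ m * (1 / 2) ^ (S * m) := by
  classical
  have : CharZero C := charZero_of_injective_algebraMap (algebraMap ℚ_[p] C).injective
  set f : ℕ → C := fun m => ∑ k, c k * fe (b k) (w k) m with hf
  have hfb : ∀ m, ‖f m‖ ≤ 1 * 2 ^ m := by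
    intro m
    rw [one_mul]
    apply IsUltrametricDist.norm_sum_le_of_forall_le_of_nonneg (by positivity)
    intro k _
    rw [norm_mul]
    calc ‖c k‖ * ‖fe (b k) (w k) m‖ ≤ 1 * (1 * 2 ^ m) := by
          gcongr
          · exact hc k
          · exact norm_fe_le (p := p) (b k) (hw k) m
      _ = 2 ^ m := by rw [one_mul, one_mul]
  have hin : ∀ i : ℕ, ‖(i : C) * ϖ‖ ≤ 1 / 4 := by
    intro i
    rw [norm_mul]
    calc ‖(i : C)‖ * ‖ϖ‖ ≤ 1 * (1 / 4) := by
          gcongr
          exact IsUltrametricDist.norm_natCast_le_one C i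
      _ = 1 / 4 := one_mul _
  have hval : ∀ (i n : ℕ), tc f ((i : C) * ϖ) n =
      (∑ k, c k * pe (b k) (w k) ((i : C) * ϖ) n * ex (w k * ((i : C) * ϖ))) /
        (n.factorial : C) := by
    intro i n
    have h1 : tc f ((i : C) * ϖ) n = ∑ k, c k * tc (fe (b k) (w k)) ((i : C) * ϖ) n := by
      unfold tc
      have h2 : ∀ m, ((m + n).choose n : C) * f (m + n) * ((i : C) * ϖ) ^ m =
          ∑ k, c k * (((m + n).choose n : C) * fe (b k) (w k) (m + n) * ((i : C) * ϖ) ^ m) := by
        intro m
        rw [hf]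
        simp only
        rw [Finset.mul_sum, Finset.sum_mul]
        apply Finset.sum_congr rfl
        intro k _
        ring
      simp only [h2]
      rw [Summable.tsum_finsetSum]
      · apply Finset.sum_congr rfl
        intro k _
        rw [tsum_mul_left]
      · intro k _
        exact (weight_summable (norm_fe_le (p := p) (b k) (hw k)) (fun m => (m + n).choose n) n
          (hin i)).mul_left _
    rw [h1, Finset.sum_div]
    apply Finset.sum_congr rfl
    intro k _
    rw [tc_fe (p := p) (hw k) (hin i)]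
    ring
  set s : Finset C := (Finset.range S).image (fun i : ℕ => (i : C) * ϖ) with hs
  have hcard : s.card = S := by
    rw [hs, Finset.card_image_of_injective, Finset.card_range]
    intro i j hij
    have h1 := mul_right_cancel₀ hϖ0 hij
    exact_mod_cast h1
  have hzero : ∀ a ∈ s, ‖a‖ ≤ 1 / 4 ∧ ∀ b < m, tc f a b = 0 := by
    intro a ha
    rw [hs, Finset.mem_image] at ha
    obtain ⟨i, hi, rfl⟩ := ha
    refine ⟨hin i, fun b hb => ?_⟩
    rw [hval, hz i (Finset.mem_range.mp hi) b hb, zero_div]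
  have h1 := stSchwarz C f 1 zero_le_one hfb s m hzero ((i₀ : C) * ϖ) (hin i₀)
  rw [hcard, one_mul, hval] at h1
  have h2 : (m.factorial : C) ≠ 0 := by exact_mod_cast m.factorial_ne_zero
  set X := ∑ k, c k * pe (b k) (w k) ((i₀ : C) * ϖ) m * ex (w k * ((i₀ : C) * ϖ)) with hX
  have h3 : X = (m.factorial : C) * (X / (m.factorial : C)) := (mul_div_cancel₀ _ h2).symm
  rw [h3, norm_mul]
  calc ‖(m.factorial : C)‖ * ‖X / (m.factorial : C)‖
      ≤ 1 * (4 ^ m * (1 / 2) ^ (S * m)) := by
        gcongr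
        exact IsUltrametricDist.norm_natCast_le_one C _
    _ = _ := one_mul _

end analytic

end ExtrapIaux

/-- Extrapolation for exponential polynomials. -/
theorem stExtrapI : StExtrapI := by
  intro p _ C _ _ _ _ ι _ c w b hc hw ϖ hϖ hϖ0 S m hz i₀
  exact ExtrapIaux.extrap' (p := p) c w b hc hw hϖ hϖ0 S m hz i₀

end Pool.Agent.Lib.MP_c50dba_nt.RD
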