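import Pool.Agent.Lib.MP_c50dba_nt.RD.Stmts

set_option autoImplicit false

/-!
Module Fam: the family of subspaces.
-/

namespace Pool.Agent.Lib.MP_c50dba_nt.RD

open scoped BigOperators
open Pool.Agent.Lib.MP_c50dba_nt Pool.Agent.Lib.MP_c50dba_nt.Gen
open Pool.Agent.Lib.MP_c50dba_nt.LR MvPolynomial

namespace Famaux

section

variable {F Ω : Type} [Field F] [Field Ω] [Algebra F Ω] {s : ℕ} {t : Fin s → Ω}

theorem t_mem (F : Type) {Ω : Type} [Field F] [Field Ω] [Algebra F Ω] {s : ℕ} (t : Fin s → Ω)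
    (j : Fin s) : t j ∈ IntermediateField.adjoin F (Set.range t) :=
  IntermediateField.subset_adjoin F _ ⟨j, rfl⟩

/-- polynomials in `t` as elements of the field generated by `t` -/
noncomputable def rho (F : Type) {Ω : Type} [Field F] [Field Ω] [Algebra F Ω] {s : ℕ}
    (t : Fin s → Ω) : MvPolynomial (Fin s) F →ₐ[F] IntermediateField.adjoin F (Set.range t) :=
  aeval fun j => ⟨t j, t_mem F t j⟩

theorem coe_rho (f : MvPolynomial (Fin s) F) : ((rho F t f : IntermediateField.adjoin F
    (Set.range t)) : Ω) = aeval t f := by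
  have : (IntermediateField.val _).comp (rho F t) =
      (aeval t : MvPolynomial (Fin s) F →ₐ[F] Ω) := by
    ext i
    simp [rho]
  exact DFunLike.congr_fun this f

theorem rho_inj (ht : Function.Injective (aeval t : MvPolynomial (Fin s) F →ₐ[F] Ω)) :
    Function.Injective (rho F t) := by
  intro f g h
  apply ht
  rw [← coe_rho, ← coe_rho, h]

theorem comp_rho : (algebraMap (IntermediateField.adjoin F (Set.range t)) Ω).comp
    (rho F t).toRingHom = (aeval t : MvPolynomial (Fin s) F →ₐ[F] Ω).toRingHom :=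
  RingHom.ext fun f => coe_rho f

theorem ind_t (ht : Function.Injective (aeval t : MvPolynomial (Fin s) F →ₐ[F] Ω)) (D : ℕ) :
    Ind F D t := by
  intro P _ hP
  exact ht (by rw [hP, map_zero])

/-- dependent elements are algebraic -/
theorem alg_of_dep (ht : Function.Injective (aeval t : MvPolynomial (Fin s) F →ₐ[F] Ω)) {x : Ω}
    {d : ℕ} (h : ¬ Ind F d (Fin.cons x t : Fin (s + 1) → Ω)) :
    IsAlgebraic (IntermediateField.adjoin F (Set.range t)) x := by
  unfold Ind at h
  push Not at h
  obtain ⟨Q, -, hQ0, hQne⟩ := h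
  refine ⟨(finSuccEquiv F s Q).map (rho F t).toRingHom, ?_, ?_⟩
  · rw [Polynomial.map_ne_zero_iff (rho_inj ht)]
    exact fun h => hQne ((map_eq_zero_iff _ (finSuccEquiv F s).injective).mp h)
  · rw [Polynomial.aeval_def, Polynomial.eval₂_map, comp_rho, ← aeval_cons]
    exact hQ0

/-- algebraic elements are zeros of polynomials over the polynomial ring -/
theorem exists_pol_alg (ht : Function.Injective (aeval t : MvPolynomial (Fin s) F →ₐ[F] Ω))
    {u : Ω} (hu : IsAlgebraic (IntermediateField.adjoin F (Set.range t)) u) :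
    ∃ P : Polynomial (MvPolynomial (Fin s) F), P ≠ 0 ∧
      P.eval₂ (aeval t : MvPolynomial (Fin s) F →ₐ[F] Ω).toRingHom u = 0 := by
  let _ : Algebra (MvPolynomial (Fin s) F) Ω :=
    (aeval t : MvPolynomial (Fin s) F →ₐ[F] Ω).toRingHom.toAlgebra
  let _ : Algebra (MvPolynomial (Fin s) F) (IntermediateField.adjoin F (Set.range t)) :=
    (rho F t).toRingHom.toAlgebra
  have htow : IsScalarTower (MvPolynomial (Fin s) F) (IntermediateField.adjoin F (Set.range t)) Ω :=
    IsScalarTower.of_algebraMap_eq fun f => (coe_rho f).symm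
  have hfrac : IsFractionRing (MvPolynomial (Fin s) F)
      (IntermediateField.adjoin F (Set.range t)) := by
    refine (isLocalization_iff _ _).mpr ⟨?_, ?_, ?_⟩
    · rintro ⟨y, hy⟩
      refine isUnit_iff_ne_zero.mpr fun h0 => ?_
      have h1 : y = 0 := rho_inj ht (h0.trans (map_zero _).symm)
      exact nonZeroDivisors.ne_zero hy h1
    · intro z
      obtain ⟨r, q, hrq⟩ := (IntermediateField.mem_adjoin_range_iff F t (z : Ω)).mp z.2
      by_cases hq : q = 0
      · refine ⟨(0, 1), ?_⟩
        have hz : z = 0 := by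
          apply Subtype.ext
          rw [hrq, hq, map_zero, div_zero]
          rfl
        rw [hz, zero_mul, map_zero]
      · refine ⟨(r, ⟨q, mem_nonZeroDivisors_of_ne_zero hq⟩), ?_⟩
        have hq' : (aeval t q : Ω) ≠ 0 := fun h => hq (ht (h.trans (map_zero _).symm))
        apply Subtype.ext
        change (z : Ω) * ((rho F t q : IntermediateField.adjoin F (Set.range t)) : Ω) =
          ((rho F t r : IntermediateField.adjoin F (Set.range t)) : Ω)
        rw [coe_rho, coe_rho, hrq, div_mul_cancel₀ _ hq']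
    · intro x y hxy
      exact ⟨1, by rw [rho_inj ht hxy]⟩
  have h1 : IsAlgebraic (MvPolynomial (Fin s) F) u :=
    (IsFractionRing.isAlgebraic_iff (MvPolynomial (Fin s) F)
      (IntermediateField.adjoin F (Set.range t)) Ω).mpr hu
  obtain ⟨P, hP, h0⟩ := h1
  exact ⟨P, hP, h0⟩

/-- zeros of polynomials with unit leading coefficient are integral -/
theorem val_root (V : ValuationSubring Ω) (q : Polynomial Ω)
    (hc : ∀ i, V.valuation (q.coeff i) ≤ 1) (hl : V.valuation q.leadingCoeff = 1) {y : Ω}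
    (hy : q.eval y = 0) : V.valuation y ≤ 1 := by
  classical
  by_contra hlt
  push Not at hlt
  have hy0 : 0 < V.valuation y := lt_trans zero_lt_one hlt
  have h1 : q.eval y = ∑ i ∈ Finset.range q.natDegree, q.coeff i * y ^ i +
      q.leadingCoeff * y ^ q.natDegree := by
    rw [Polynomial.eval_eq_sum_range, Finset.sum_range_succ]
    rfl
  have h2 : V.valuation (∑ i ∈ Finset.range q.natDegree, q.coeff i * y ^ i) <
      V.valuation (q.leadingCoeff * y ^ q.natDegree) := by
    apply Valuation.map_sum_lt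
    · rw [map_mul, hl, one_mul, map_pow]
      exact pow_ne_zero _ hy0.ne'
    · intro i hi
      rw [map_mul, map_mul, hl, one_mul, map_pow, map_pow]
      refine lt_of_le_of_lt (mul_le_of_le_one_left' (hc i)) ?_
      exact pow_lt_pow_right₀ hlt (Finset.mem_range.mp hi)
  have h3 : V.valuation (q.eval y) = V.valuation (q.leadingCoeff * y ^ q.natDegree) := by
    rw [h1, add_comm]
    exact Valuation.map_add_eq_of_lt_left _ h2
  rw [hy, map_zero] at h3
  rw [← h3] at h2
  exact absurd h2 not_lt_zero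

/-- the conjugates of an element are zeros of the same polynomial -/
theorem eval_conj (L : IntermediateField (IntermediateField.adjoin F (Set.range t)) Ω)
    (σ : L →ₐ[IntermediateField.adjoin F (Set.range t)] Ω) (u : L)
    (P : Polynomial (MvPolynomial (Fin s) F))
    (h : P.eval₂ (aeval t : MvPolynomial (Fin s) F →ₐ[F] Ω).toRingHom (u : Ω) = 0) :
    P.eval₂ (aeval t : MvPolynomial (Fin s) F →ₐ[F] Ω).toRingHom (σ u) = 0 := by
  set φ : MvPolynomial (Fin s) F →+* L :=
    (algebraMap (IntermediateField.adjoin F (Set.range t)) L).comp (rho F t).toRingHom with hφ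
  have h1 : (algebraMap L Ω).comp φ = (aeval t : MvPolynomial (Fin s) F →ₐ[F] Ω).toRingHom := by
    rw [hφ, ← RingHom.comp_assoc, ← IsScalarTower.algebraMap_eq, comp_rho]
  have h2 : σ.toRingHom.comp φ = (aeval t : MvPolynomial (Fin s) F →ₐ[F] Ω).toRingHom := by
    rw [← comp_rho]
    apply RingHom.ext
    intro f
    exact σ.commutes _
  have h3 : P.eval₂ φ u = 0 := by
    apply (algebraMap L Ω).injective
    rw [Polynomial.hom_eval₂, h1, map_zero]
    exact h
  have h4 := congrArg σ.toRingHom h3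
  rw [Polynomial.hom_eval₂, h2, map_zero] at h4
  exact h4

/-- the algebraic elements -/
def Alg (F : Type) {Ω : Type} [Field F] [Field Ω] [Algebra F Ω] {s : ℕ} (t : Fin s → Ω) :
    Submodule F Ω where
  carrier := {u | IsAlgebraic (IntermediateField.adjoin F (Set.range t)) u}
  add_mem' := fun hu hv => IsAlgebraic.add hu hv
  zero_mem' := isAlgebraic_zero
  smul_mem' := by
    intro f u hu
    rw [Set.mem_ofPred_eq] at hu ⊢
    have h2 : f • u = (algebraMap F (IntermediateField.adjoin F (Set.range t)) f) • u := by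
      rw [algebraMap_smul]
    rw [h2]
    exact hu.smul _

theorem mem_Alg {u : Ω} : u ∈ Alg F t ↔
    IsAlgebraic (IntermediateField.adjoin F (Set.range t)) u := Iff.rfl

/-- an intermediate field as a space over `F` -/
def Fsp (L : IntermediateField (IntermediateField.adjoin F (Set.range t)) Ω) :
    Submodule F Ω where
  carrier := {u | u ∈ L}
  add_mem' := fun hu hv => L.add_mem hu hv
  zero_mem' := L.zero_mem
  smul_mem' := by
    intro f u hu
    rw [Set.mem_ofPred_eq] at hu ⊢
    have h2 : f • u = (algebraMap F (IntermediateField.adjoin F (Set.range t)) f) • u := by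
      rw [algebraMap_smul]
    rw [h2]
    exact L.smul_mem hu

theorem smul_conj (L : IntermediateField (IntermediateField.adjoin F (Set.range t)) Ω)
    (σ : L →ₐ[IntermediateField.adjoin F (Set.range t)] Ω) (f : F) (u : Ω) (hu : u ∈ L)
    (hfu : f • u ∈ L) : σ ⟨f • u, hfu⟩ = algebraMap F Ω f * σ ⟨u, hu⟩ := by
  have h2 : (⟨f • u, hfu⟩ : L) =
      (algebraMap F (IntermediateField.adjoin F (Set.range t)) f) • (⟨u, hu⟩ : L) := by
    apply Subtype.ext
    change f • u = (algebraMap F (IntermediateField.adjoin F (Set.range t)) f) • u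
    rw [algebraMap_smul]
  rw [h2, map_smul, Algebra.smul_def]
  rfl

/-- elements on which two embeddings agree -/
def Esp (L : IntermediateField (IntermediateField.adjoin F (Set.range t)) Ω)
    (σ σ' : L →ₐ[IntermediateField.adjoin F (Set.range t)] Ω) : Submodule F Ω where
  carrier := {u | ∃ hu : u ∈ L, σ ⟨u, hu⟩ = σ' ⟨u, hu⟩}
  add_mem' := by
    rintro u v ⟨hu, hu2⟩ ⟨hv, hv2⟩
    refine ⟨L.add_mem hu hv, ?_⟩
    have h : (⟨u + v, L.add_mem hu hv⟩ : L) = ⟨u, hu⟩ + ⟨v, hv⟩ := rfl
    rw [h, map_add, map_add, hu2, hv2]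
  zero_mem' := by
    refine ⟨L.zero_mem, ?_⟩
    have h : (⟨0, L.zero_mem⟩ : L) = 0 := rfl
    rw [h, map_zero, map_zero]
  smul_mem' := by
    rintro f u ⟨hu, hu2⟩
    have h0 : f • u ∈ L := (Fsp L).smul_mem f hu
    refine ⟨h0, ?_⟩
    rw [smul_conj L σ f u hu h0, smul_conj L σ' f u hu h0, hu2]

/-- elements with bounded conjugates -/
def Bsp (L : IntermediateField (IntermediateField.adjoin F (Set.range t)) Ω)
    (σ : L →ₐ[IntermediateField.adjoin F (Set.range t)] Ω) (V : ValuationSubring Ω)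
    (hV : ∀ c : F, V.valuation (algebraMap F Ω c) ≤ 1) (T : Ω) (γ : V.ValueGroup) :
    Submodule F Ω where
  carrier := {u | ∃ hu : u ∈ L, V.valuation (σ ⟨u, hu⟩ / T) ≤ γ}
  add_mem' := by
    rintro u v ⟨hu, hu2⟩ ⟨hv, hv2⟩
    refine ⟨L.add_mem hu hv, ?_⟩
    have h : (⟨u + v, L.add_mem hu hv⟩ : L) = ⟨u, hu⟩ + ⟨v, hv⟩ := rfl
    rw [h, map_add, add_div]
    exact (Valuation.map_add _ _ _).trans (max_le hu2 hv2)
  zero_mem' := by
    refine ⟨L.zero_mem, ?_⟩
    have h : (⟨0, L.zero_mem⟩ : L) = 0 := rfl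
    rw [h, map_zero, zero_div, map_zero]
    exact zero_le
  smul_mem' := by
    rintro f u ⟨hu, hu2⟩
    have h0 : f • u ∈ L := (Fsp L).smul_mem f hu
    refine ⟨h0, ?_⟩
    rw [smul_conj L σ f u hu h0, mul_div_assoc, map_mul]
    exact (mul_le_of_le_one_left' (hV f)).trans hu2

/-- the conjugates divided by `T` as a linear map -/
noncomputable def conjMap (U : Submodule F Ω)
    (L : IntermediateField (IntermediateField.adjoin F (Set.range t)) Ω) (hUL : ∀ u ∈ U, u ∈ L)
    (σ : L →ₐ[IntermediateField.adjoin F (Set.range t)] Ω) (T : Ω) : U →ₗ[F] Ω where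
  toFun u := σ ⟨u, hUL u u.2⟩ / T
  map_add' := by
    rintro ⟨u, hu⟩ ⟨v, hv⟩
    have h : (⟨u + v, hUL _ (U.add_mem hu hv)⟩ : L) = ⟨u, hUL u hu⟩ + ⟨v, hUL v hv⟩ := rfl
    change σ ⟨u + v, _⟩ / T = _
    rw [h, map_add, add_div]
  map_smul' := by
    rintro f ⟨u, hu⟩
    change σ ⟨f • u, hUL _ (U.smul_mem f hu)⟩ / T = f • (σ ⟨u, _⟩ / T)
    rw [smul_conj L σ f u (hUL u hu) (hUL _ (U.smul_mem f hu)), Algebra.smul_def, mul_div_assoc]

end

/-- a finite type of values -/
theorem finite_values (h7 : StFinVal) {F Ω : Type} [Field F] [Field Ω] [Algebra F Ω] {s : ℕ}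
    {t : Fin s → Ω} (U : Submodule F Ω) [FiniteDimensional F U]
    (L : IntermediateField (IntermediateField.adjoin F (Set.range t)) Ω) (hUL : ∀ u ∈ U, u ∈ L)
    (σ : L →ₐ[IntermediateField.adjoin F (Set.range t)] Ω) (V : ValuationSubring Ω)
    (hV : ∀ c : F, V.valuation (algebraMap F Ω c) ≤ 1) (T : Ω) :
    {γ : V.ValueGroup | ∃ u : U, γ = max 1 (V.valuation (σ ⟨u, hUL u u.2⟩ / T))}.Finite := by
  have h := h7 F Ω V hV (LinearMap.range (conjMap U L hUL σ T))
  refine (h.image (fun γ => max 1 γ)).subset ?_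
  rintro γ ⟨u, rfl⟩
  exact ⟨_, ⟨_, ⟨u, rfl⟩, rfl⟩, rfl⟩

theorem overPrime_of_associated {F Ω : Type} [Field F] [Field Ω] [Algebra F Ω] {s : ℕ}
    {t : Fin s → Ω} {π b : MvPolynomial (Fin s) F} {V : ValuationSubring Ω} (h : Associated b π)
    (hV : OverPrime t b V) : OverPrime t π V := by
  obtain ⟨h1, h2, h3⟩ := hV
  refine ⟨h1, fun f hf => h2 f fun hb => hf ((h.symm.dvd).trans hb), ?_⟩
  obtain ⟨u, rfl⟩ := h
  rw [map_mul, map_mul]
  exact lt_of_le_of_lt (mul_le_of_le_one_right' (h1 _)) h3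

theorem overInf_const {F Ω : Type} [Field F] [Field Ω] [Algebra F Ω] {s : ℕ}
    {t : Fin s → Ω} {V : ValuationSubring Ω} (hV : OverInf F t V) (c : F) :
    V.valuation (algebraMap F Ω c) ≤ 1 := by
  by_cases hc : c = 0
  · rw [hc, map_zero, map_zero]
    exact zero_le
  · have h := (hV (C c) 1 (by rwa [Ne, C_eq_zero]) one_ne_zero).1 (by
      rw [totalDegree_C, totalDegree_one])
    rwa [aeval_C, map_one, map_one] at h

theorem overPrime_const {F Ω : Type} [Field F] [Field Ω] [Algebra F Ω] {s : ℕ}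
    {t : Fin s → Ω} {π : MvPolynomial (Fin s) F} {V : ValuationSubring Ω}
    (hV : OverPrime t π V) (c : F) : V.valuation (algebraMap F Ω c) ≤ 1 := by
  have h := hV.1 (C c)
  rwa [aeval_C] at h

end Famaux

open Famaux in
/-- A8 -/
theorem stFam (h1 : StOverPrime) (h2 : StOverInf) (h6 : StDep) (h7 : StFinVal) : StFam := by
  classical
  intro F Ω _ _ _ _ _ _ s d t ht hd U hUfin h1U htU
  rcases s with _ | s
  · refine ⟨{Submodule.span F {(1 : Ω)}}, Set.finite_singleton _, ?_, ?_⟩
    · intro V hV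
      rw [Set.mem_singleton_iff] at hV
      subst hV
      refine ⟨?_, Submodule.mem_span_singleton_self 1, fun j => j.elim0, ?_⟩
      · rw [Submodule.span_le, Set.singleton_subset_iff]
        exact h1U
      · rw [Nat.choose_zero_right]
        exact (finrank_span_le_card ({(1 : Ω)} : Set Ω)).trans (by simp)
    · intro x hx h
      exact ⟨_, rfl, (exc_family_zero U d hx h).2⟩
  · let U' : Submodule F Ω := U ⊓ Alg F t
    have hfinU' : FiniteDimensional F U' := Submodule.finiteDimensional_of_le inf_le_left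
    let b := Module.finBasis F U'
    let L : IntermediateField (IntermediateField.adjoin F (Set.range t)) Ω :=
      IntermediateField.adjoin _ (Set.range fun i => (b i : Ω))
    have hLfin : FiniteDimensional (IntermediateField.adjoin F (Set.range t)) L := by
      have : Finite (Set.range fun i => (b i : Ω)) := Set.finite_range _
      apply IntermediateField.finiteDimensional_adjoin
      rintro _ ⟨i, rfl⟩
      exact (mem_Alg.mp (b i).2.2).isIntegral
    have hUL : ∀ u ∈ U', u ∈ L := by
      have h8 : U' ≤ Fsp L := le_of_basis b fun i =>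
        IntermediateField.subset_adjoin _ (Set.range fun i => (b i : Ω)) ⟨i, rfl⟩
      exact fun u hu => h8 hu
    have h1U' : (1 : Ω) ∈ U' := ⟨h1U, isAlgebraic_one⟩
    have htU' : ∀ j, t j ∈ U' := fun j => ⟨htU j,
      isAlgebraic_algebraMap (⟨t j, t_mem F t j⟩ : IntermediateField.adjoin F (Set.range t))⟩
    have hpol : ∀ i, ∃ P : Polynomial (MvPolynomial (Fin (s + 1)) F), P ≠ 0 ∧
        P.eval₂ (aeval t : MvPolynomial (Fin (s + 1)) F →ₐ[F] Ω).toRingHom (b i : Ω) = 0 :=
      fun i => exists_pol_alg ht (b i).2.2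
    choose P hP0 hP using hpol
    let D₀ : MvPolynomial (Fin (s + 1)) F := ∏ i, (P i).leadingCoeff
    have hD₀ : D₀ ≠ 0 := Finset.prod_ne_zero_iff.mpr fun i _ =>
      Polynomial.leadingCoeff_ne_zero.mpr (hP0 i)
    -- the primes which do not divide the denominator
    have hgood : ∀ π, ¬ π ∣ D₀ → ∀ V : ValuationSubring Ω, OverPrime t π V →
        ∀ σ : L →ₐ[IntermediateField.adjoin F (Set.range t)] Ω, ∀ u (hu : u ∈ U'),
        V.valuation (σ ⟨u, hUL u hu⟩) ≤ 1 := by
      intro π hπ V hV σ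
      have h8 : U' ≤ Bsp L σ V (overPrime_const hV) 1 1 := by
        refine le_of_basis b fun i => ⟨hUL _ (b i).2, ?_⟩
        rw [div_one]
        have h9 := eval_conj L σ ⟨b i, hUL _ (b i).2⟩ (P i) (hP i)
        rw [← Polynomial.eval_map] at h9
        refine val_root V _ (fun j => ?_) ?_ h9
        · rw [Polynomial.coeff_map]
          exact hV.1 _
        · rw [Polynomial.leadingCoeff_map_of_injective ht]
          refine hV.2.1 _ fun h11 => hπ (h11.trans ?_)
          exact Finset.dvd_prod_of_mem (fun i => (P i).leadingCoeff) (Finset.mem_univ i)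
      intro u hu
      obtain ⟨_, h12⟩ := h8 hu
      rwa [div_one] at h12
    -- the valuations
    obtain ⟨f, hf, hfD⟩ := UniqueFactorizationMonoid.exists_prime_factors D₀ hD₀
    obtain ⟨Vinf, hVinf⟩ := h2 F Ω (s + 1) t ht
    choose Vp hVp using h1 F Ω (s + 1) t ht
    have hprime : ∀ π ∈ f.toFinset, Prime π := fun π hπ => hf π (Multiset.mem_toFinset.mp hπ)
    let I : Type := Option {π // π ∈ f.toFinset}
    let W : I → ValuationSubring Ω := fun i => match i with
      | none => Vinf
      | some π => Vp π.1 (hprime π.1 π.2)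
    let T : I → Ω := fun i => match i with
      | none => t 0
      | some _ => 1
    have hWc : ∀ (i : I) (c : F), (W i).valuation (algebraMap F Ω c) ≤ 1 := by
      rintro (_ | π) c
      · exact overInf_const hVinf c
      · exact overPrime_const (hVp π.1 (hprime π.1 π.2)) c
    have hX : ∀ j, (X j : MvPolynomial (Fin (s + 1)) F) ≠ 0 := fun j => X_ne_zero j
    have ht0 : t 0 ≠ 0 := by
      intro h
      apply hX 0
      apply ht
      rw [aeval_X, h, map_zero]
    have hv0 : 0 < Vinf.valuation (t 0) := by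
      rw [zero_lt_iff]
      exact (Valuation.ne_zero_iff _).mpr ht0
    have hdiv : ∀ y, Vinf.valuation y ≤ Vinf.valuation (t 0) → Vinf.valuation (y / t 0) ≤ 1 := by
      intro y hy
      rw [map_div₀]
      exact div_le_one_of_le₀ hy zero_le
    have hW1 : ∀ i : I, (W i).valuation (1 / T i) ≤ 1 := by
      rintro (_ | π)
      · apply hdiv
        have h := (hVinf 1 (X 0) one_ne_zero (hX 0)).1 (by
          rw [totalDegree_one]
          exact Nat.zero_le _)
        rwa [map_one, aeval_X] at h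
      · change (Vp π.1 (hprime π.1 π.2)).valuation (1 / 1) ≤ 1
        rw [div_one, map_one]
    have hWt : ∀ (i : I) j, (W i).valuation (t j / T i) ≤ 1 := by
      rintro (_ | π) j
      · apply hdiv
        have h := (hVinf (X j) (X 0) (hX j) (hX 0)).1 (by
          rw [totalDegree_X, totalDegree_X])
        rwa [aeval_X, aeval_X] at h
      · change (Vp π.1 (hprime π.1 π.2)).valuation (t j / 1) ≤ 1
        rw [div_one]
        have h := (hVp π.1 (hprime π.1 π.2)).1 (X j)
        rwa [aeval_X] at h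
    -- the patterns
    let pat : L → Set ((L →ₐ[IntermediateField.adjoin F (Set.range t)] Ω) ×
        (L →ₐ[IntermediateField.adjoin F (Set.range t)] Ω)) ×
        ((i : I) → (L →ₐ[IntermediateField.adjoin F (Set.range t)] Ω) → (W i).ValueGroup) :=
      fun x => ({p | p.1 x = p.2 x}, fun i σ => max 1 ((W i).valuation (σ x / T i)))
    have hpat : (Set.range fun u : U' => pat ⟨u, hUL u u.2⟩).Finite := by
      have hfv := fun (i : I) (σ : L →ₐ[IntermediateField.adjoin F (Set.range t)] Ω) =>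
        finite_values h7 U' L hUL σ (W i) (hWc i) (T i)
      have h8 := Set.Finite.prod (Set.toFinite (Set.univ :
        Set (Set ((L →ₐ[IntermediateField.adjoin F (Set.range t)] Ω) ×
        (L →ₐ[IntermediateField.adjoin F (Set.range t)] Ω)))))
        (Set.Finite.pi fun i : I => Set.Finite.pi fun σ => hfv i σ)
      refine h8.subset ?_
      rintro _ ⟨u, rfl⟩
      refine ⟨Set.mem_univ _, ?_⟩
      intro i _ σ _
      exact ⟨u, rfl⟩
    let Vc : (Set ((L →ₐ[IntermediateField.adjoin F (Set.range t)] Ω) ×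
        (L →ₐ[IntermediateField.adjoin F (Set.range t)] Ω)) ×
        ((i : I) → (L →ₐ[IntermediateField.adjoin F (Set.range t)] Ω) → (W i).ValueGroup)) →
        Submodule F Ω :=
      fun c => Submodule.span F (({1} ∪ Set.range t) ∪ {x | ∃ hx : x ∈ U',
        ¬ Ind F d (Fin.cons x t : Fin (s + 1 + 1) → Ω) ∧ pat ⟨x, hUL x hx⟩ = c})
    refine ⟨{V | ∃ x, ∃ hx : x ∈ U', ¬ Ind F d (Fin.cons x t : Fin (s + 1 + 1) → Ω) ∧
      V = Vc (pat ⟨x, hUL x hx⟩)}, ?_, ?_, ?_⟩
    · refine (hpat.image Vc).subset ?_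
      rintro V ⟨x, hx, -, rfl⟩
      exact ⟨_, ⟨⟨x, hx⟩, rfl⟩, rfl⟩
    · rintro V ⟨x₀, hx₀, hdep₀, rfl⟩
      have hVU' : Vc (pat ⟨x₀, hUL x₀ hx₀⟩) ≤ U' := by
        rw [Submodule.span_le]
        rintro y ((hy | ⟨j, rfl⟩) | ⟨hy, -, -⟩)
        · rw [Set.mem_singleton_iff.mp hy]
          exact h1U'
        · exact htU' j
        · exact hy
      have hone : ∀ σ : L →ₐ[IntermediateField.adjoin F (Set.range t)] Ω,
          ∀ h : (1 : Ω) ∈ L, σ ⟨1, h⟩ = 1 := fun σ h => map_one σ
      have htj : ∀ σ : L →ₐ[IntermediateField.adjoin F (Set.range t)] Ω, ∀ j,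
          ∀ h : t j ∈ L, σ ⟨t j, h⟩ = t j := fun σ j h =>
        σ.commutes (⟨t j, t_mem F t j⟩ : IntermediateField.adjoin F (Set.range t))
      refine ⟨hVU'.trans inf_le_left, Submodule.subset_span (Or.inl (Or.inl rfl)),
        fun j => Submodule.subset_span (Or.inl (Or.inr ⟨j, rfl⟩)), ?_⟩
      have hfinV : FiniteDimensional F (Vc (pat ⟨x₀, hUL x₀ hx₀⟩)) :=
        Submodule.finiteDimensional_of_le hVU'
      have hcard : (s + 1 + d).choose (s + 1) = (s + 1 + d).choose d := Nat.choose_symm_add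
      rw [hcard]
      apply finrank_le_of_dep (ind_t ht d)
      intro z hz
      have hzL : z ∈ L := hUL z (hVU' hz)
      have hB : ∀ (i : I) (σ : L →ₐ[IntermediateField.adjoin F (Set.range t)] Ω),
          (W i).valuation (σ ⟨z, hzL⟩ / T i) ≤
            max 1 ((W i).valuation (σ ⟨x₀, hUL x₀ hx₀⟩ / T i)) := by
        intro i σ
        have h8 : Vc (pat ⟨x₀, hUL x₀ hx₀⟩) ≤ Bsp L σ (W i) (hWc i) (T i)
            (max 1 ((W i).valuation (σ ⟨x₀, hUL x₀ hx₀⟩ / T i))) := by
          rw [Submodule.span_le]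
          rintro y ((hy | ⟨j, rfl⟩) | ⟨hy, -, hpy⟩)
          · rw [Set.mem_singleton_iff.mp hy]
            refine ⟨hUL _ h1U', ?_⟩
            rw [hone]
            exact (hW1 i).trans (le_max_left _ _)
          · refine ⟨hUL _ (htU' j), ?_⟩
            rw [htj]
            exact (hWt i j).trans (le_max_left _ _)
          · refine ⟨hUL _ hy, ?_⟩
            have h9 := congrFun (congrFun (congrArg Prod.snd hpy) i) σ
            change max 1 ((W i).valuation (σ ⟨y, hUL y hy⟩ / T i)) =
              max 1 ((W i).valuation (σ ⟨x₀, hUL x₀ hx₀⟩ / T i)) at h9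
            rw [← h9]
            exact le_max_right _ _
        obtain ⟨_, h10⟩ := h8 hz
        exact h10
      refine h6 F Ω (s + 1) d t ht 0 L hLfin ⟨x₀, hUL x₀ hx₀⟩ ⟨z, hzL⟩ hdep₀ ?_ ?_ ?_
      · intro σ σ' hσ
        have h8 : Vc (pat ⟨x₀, hUL x₀ hx₀⟩) ≤ Esp L σ σ' := by
          rw [Submodule.span_le]
          rintro y ((hy | ⟨j, rfl⟩) | ⟨hy, -, hpy⟩)
          · rw [Set.mem_singleton_iff.mp hy]
            refine ⟨hUL _ h1U', ?_⟩
            rw [hone, hone]
          · refine ⟨hUL _ (htU' j), ?_⟩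
            rw [htj, htj]
          · refine ⟨hUL _ hy, ?_⟩
            have h9 := congrArg Prod.fst hpy
            change {p : (L →ₐ[IntermediateField.adjoin F (Set.range t)] Ω) ×
              (L →ₐ[IntermediateField.adjoin F (Set.range t)] Ω) |
                p.1 ⟨y, hUL y hy⟩ = p.2 ⟨y, hUL y hy⟩} =
              {p | p.1 ⟨x₀, hUL x₀ hx₀⟩ = p.2 ⟨x₀, hUL x₀ hx₀⟩} at h9
            have h10 : (σ, σ') ∈ {p : (L →ₐ[IntermediateField.adjoin F (Set.range t)] Ω) ×
              (L →ₐ[IntermediateField.adjoin F (Set.range t)] Ω) |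
                p.1 ⟨x₀, hUL x₀ hx₀⟩ = p.2 ⟨x₀, hUL x₀ hx₀⟩} := hσ
            rw [← h9] at h10
            exact h10
        obtain ⟨_, h10⟩ := h8 hz
        exact h10
      · intro π hπ
        by_cases hπD : π ∣ D₀
        · have h8 : π ∣ f.prod := hπD.trans hfD.symm.dvd
          obtain ⟨c, hc, hπc⟩ := hπ.exists_mem_multiset_dvd h8
          have hass : Associated c π := (hπ.associated_of_dvd (hf c hc) hπc).symm
          have hc' : c ∈ f.toFinset := Multiset.mem_toFinset.mpr hc
          refine ⟨Vp c (hprime c hc'), overPrime_of_associated hass (hVp c (hprime c hc')),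
            fun σ => ?_⟩
          have h9 := hB (some ⟨c, hc'⟩) σ
          change (Vp c (hprime c hc')).valuation (σ ⟨z, hzL⟩ / 1) ≤
            max 1 ((Vp c (hprime c hc')).valuation (σ ⟨x₀, hUL x₀ hx₀⟩ / 1)) at h9
          rwa [div_one, div_one] at h9
        · exact ⟨Vp π hπ, hVp π hπ, fun σ =>
            (hgood π hπD _ (hVp π hπ) σ z (hVU' hz)).trans (le_max_left _ _)⟩
      · exact ⟨Vinf, hVinf, fun σ => hB none σ⟩
    · intro x hx hdep
      have hxU' : x ∈ U' := ⟨hx, alg_of_dep ht hdep⟩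
      exact ⟨_, ⟨x, hxU', hdep, rfl⟩, Submodule.subset_span (Or.inr ⟨hxU', hdep, rfl⟩)⟩

end Pool.Agent.Lib.MP_c50dba_nt.RD
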