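import Mathlib
import Pool.Agent.Lib.MP_c50dba_nt.RD.Stmts
import Pool.Agent.Lib.MP_c50dba_nt.LR.Conv

set_option autoImplicit false

/-!
Assembly: the exceptional subgroups.
-/

namespace Pool.Agent.Lib.MP_c50dba_nt.RD

open scoped BigOperators
open Pool.Agent.Lib.MP_c50dba_nt Pool.Agent.Lib.MP_c50dba_nt.Gen
open Pool.Agent.Lib.MP_c50dba_nt.LR MvPolynomial

namespace Finalaux

/-- The exceptional cosets. -/
theorem cosets (hF : StFam) (hR : StRank) {F Ω : Type} [Field F] [IsAlgClosed F] [CharZero F]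
    [Field Ω] [IsAlgClosed Ω] [Algebra F Ω] {s d M : ℕ} {t : Fin s → Ω}
    (ht : Function.Injective (aeval t : MvPolynomial (Fin s) F →ₐ[F] Ω)) (hd : 1 ≤ d)
    (l : Fin M → Ω) (y : Ω) :
    ∃ E : Finset ((Fin M → ℤ) × AddSubgroup (Fin M → ℤ)),
      (∀ (r : ℕ) (b : Fin r → Ω), (∀ j, b j ∈ Submodule.span F (insert (1 : Ω) (Set.range t))) →
        LinearIndependent F (Sum.elim b l : Fin r ⊕ Fin M → Ω) →
        ∀ e ∈ E, Module.finrank ℤ e.2 + r ≤ (s + d).choose s) ∧
      (y = 0 → ∀ e ∈ E, e.1 = 0) ∧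
      ∀ k : Fin M → ℤ, ¬ Ind F d (Fin.cons (y + ∑ i, (k i : F) • l i) t : Fin (s + 1) → Ω) →
        ∃ e ∈ E, k - e.1 ∈ e.2 := by
  classical
  let U : Submodule F Ω := Submodule.span F (insert 1 (insert y (Set.range t ∪ Set.range l)))
  have hfin : FiniteDimensional F U :=
    FiniteDimensional.span_of_finite F
      ((((Set.finite_range t).union (Set.finite_range l)).insert y).insert 1)
  have h1U : (1 : Ω) ∈ U := Submodule.subset_span (Set.mem_insert _ _)
  have hyU : y ∈ U := Submodule.subset_span (Set.mem_insert_of_mem _ (Set.mem_insert _ _))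
  have htU : ∀ j, t j ∈ U := fun j => Submodule.subset_span
    (Set.mem_insert_of_mem _ (Set.mem_insert_of_mem _ (Or.inl ⟨j, rfl⟩)))
  have hlU : ∀ j, l j ∈ U := fun j => Submodule.subset_span
    (Set.mem_insert_of_mem _ (Set.mem_insert_of_mem _ (Or.inr ⟨j, rfl⟩)))
  obtain ⟨𝒱, hfin𝒱, h1, h2⟩ := hF F Ω s d t ht hd U h1U htU
  have hmem : ∀ k : Fin M → ℤ, y + ∑ i, (k i : F) • l i ∈ U := fun k =>
    U.add_mem hyU (U.sum_mem fun i _ => U.smul_mem _ (hlU i))
  let base : Submodule F Ω → (Fin M → ℤ) := fun V =>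
    if y = 0 then 0 else
      if h : ∃ k : Fin M → ℤ, y + ∑ i, (k i : F) • l i ∈ V then h.choose else 0
  refine ⟨hfin𝒱.toFinset.image (fun V => (base V, grp l V)), ?_, ?_, ?_⟩
  · intro r b hb hli e he
    obtain ⟨V, hV, rfl⟩ := Finset.mem_image.mp he
    rw [Set.Finite.mem_toFinset] at hV
    obtain ⟨hle, hone, htV, hrk⟩ := h1 V hV
    have hfinV : FiniteDimensional F V := Submodule.finiteDimensional_of_le hle
    refine (hR F Ω r M b l hli V fun j => ?_).trans hrk
    have hsp : Submodule.span F (insert (1 : Ω) (Set.range t)) ≤ V := by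
      rw [Submodule.span_le]
      rintro x (rfl | ⟨j, rfl⟩)
      · exact hone
      · exact htV j
    exact hsp (hb j)
  · intro hy e he
    obtain ⟨V, -, rfl⟩ := Finset.mem_image.mp he
    exact if_pos hy
  · intro k hk
    obtain ⟨V, hV, hkV⟩ := h2 _ (hmem k) hk
    have hex : ∃ k : Fin M → ℤ, y + ∑ i, (k i : F) • l i ∈ V := ⟨k, hkV⟩
    refine ⟨(base V, grp l V), Finset.mem_image.mpr ⟨V, by rwa [Set.Finite.mem_toFinset], rfl⟩, ?_⟩
    have hb : y + ∑ i, (base V i : F) • l i ∈ V := by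
      by_cases hy : y = 0
      · have : base V = 0 := if_pos hy
        rw [this, hy]
        simp
      · have : base V = hex.choose := by
          show (if y = 0 then 0 else _) = _
          rw [if_neg hy]
          exact dif_pos hex
        rw [this]
        exact hex.choose_spec
    rw [mem_grp]
    have h3 : ∑ i, ((k - base V) i : F) • l i =
        (y + ∑ i, (k i : F) • l i) - (y + ∑ i, (base V i : F) • l i) := by
      rw [add_sub_add_left_eq_sub, ← Finset.sum_sub_distrib]
      refine Finset.sum_congr rfl fun i _ => ?_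
      rw [Pi.sub_apply, Int.cast_sub, sub_smul]
    rw [h3]
    exact V.sub_mem hkV hb

variable {p : ℕ} [Fact p.Prime]

/-- Linear independence over the algebraic numbers from the inhomogeneous theorem. -/
theorem li_one (hB : StBakerI) {L : PadicAlgCl p → PadicAlgCl p} (hL : IsIwasawaLog p L) {m : ℕ}
    (α : Fin m → PadicAlgCl p) (h0 : ∀ i, α i ≠ 0) (halg : ∀ i, IsAlgebraic ℚ (α i))
    (hli : LinearIndependent ℚ (fun i => L (α i))) :
    LinearIndependent (algebraicClosure ℚ (PadicAlgCl p))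
      (Sum.elim (fun _ : Fin 1 => (1 : PadicAlgCl p)) fun i => L (α i)) := by
  rw [Fintype.linearIndependent_iff]
  intro g hg
  rw [Fintype.sum_sum_type] at hg
  simp only [Sum.elim_inl, Sum.elim_inr, Finset.univ_unique, Finset.sum_singleton] at hg
  have h1 := hB p L hL m α h0 halg hli (g (Sum.inl default) : PadicAlgCl p)
    (fun i => (g (Sum.inr i) : PadicAlgCl p))
    (mem_algebraicClosure_iff.1 (SetLike.coe_mem _))
    (fun i => mem_algebraicClosure_iff.1 (SetLike.coe_mem _)) (by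
      rw [← hg]
      congr 1
      rw [Algebra.smul_def, mul_one]
      rfl)
  rintro (j | i)
  · rw [Subsingleton.elim j default]
    exact Subtype.ext h1.1
  · exact Subtype.ext (congrFun h1.2 i)

end Finalaux

open Finalaux

/-- `u` is a zero of a nonzero polynomial of total degree at most `d` with algebraic
coefficients. -/
def Dependent {Ω : Type} [Field Ω] [Algebra ℚ Ω] (d : ℕ) {n : ℕ} (u : Fin n → Ω) : Prop :=
  ∃ P : MvPolynomial (Fin n) Ω, P ≠ 0 ∧ P.totalDegree ≤ d ∧ (∀ m, IsAlgebraic ℚ (P.coeff m)) ∧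
    MvPolynomial.eval u P = 0

theorem not_ind_of_dependent {Ω : Type} [Field Ω] [Algebra ℚ Ω] {d n : ℕ} {u : Fin n → Ω}
    (h : Dependent d u) : ¬ Ind (algebraicClosure ℚ Ω) d u := by
  obtain ⟨P, hP0, hPd, hPa, hP⟩ := h
  rw [ind_iff_coeff]
  intro hcon
  exact hcon P hP0 hPd hPa hP

/-- The general theorem. -/
theorem general (hF : StFam) (hR : StRank) (hB : StBakerI) {p : ℕ} [Fact p.Prime]
    {L : PadicAlgCl p → PadicAlgCl p} (hL : IsIwasawaLog p L)
    {s d M : ℕ} (hd : 1 ≤ d) (a : Fin M → PadicAlgCl p) (ha : ∀ i, a i ≠ 0)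
    (halg : ∀ i, IsAlgebraic ℚ (a i)) (hli : LinearIndependent ℚ (fun i => L (a i)))
    (t : Fin s → PadicAlgCl p) (ht : AlgebraicIndependent ℚ t) (y : PadicAlgCl p) :
    ∃ E : Finset ((Fin M → ℤ) × AddSubgroup (Fin M → ℤ)),
      (∀ e ∈ E, Module.finrank ℤ e.2 + 1 ≤ (s + d).choose s) ∧
      (LinearIndependent (algebraicClosure ℚ (PadicAlgCl p))
        (Sum.elim (Fin.cons 1 t : Fin (s + 1) → PadicAlgCl p) fun i => L (a i)) →
        ∀ e ∈ E, Module.finrank ℤ e.2 + (s + 1) ≤ (s + d).choose s) ∧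
      (y = 0 → ∀ e ∈ E, e.1 = 0) ∧
      ∀ k : Fin M → ℤ,
        Dependent d (Fin.cons (y + L (∏ i, a i ^ k i)) t : Fin (s + 1) → PadicAlgCl p) →
        ∃ e ∈ E, k - e.1 ∈ e.2 := by
  have : IsAlgClosed (algebraicClosure ℚ (PadicAlgCl p)) :=
    (algebraicClosure.isAlgClosure ℚ (PadicAlgCl p)).isAlgClosed
  have : Algebra.IsAlgebraic ℚ (algebraicClosure ℚ (PadicAlgCl p)) :=
    algebraicClosure.isAlgebraic ℚ (PadicAlgCl p)
  have ht' : AlgebraicIndependent (algebraicClosure ℚ (PadicAlgCl p)) t :=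
    ht.extendScalars (algebraicClosure ℚ (PadicAlgCl p))
  obtain ⟨E, h1, h2, h3⟩ := cosets hF hR (F := algebraicClosure ℚ (PadicAlgCl p)) (d := d) ht' hd
    (fun i => L (a i)) y
  refine ⟨E, ?_, ?_, h2, ?_⟩
  · refine h1 1 (fun _ => 1) (fun j => Submodule.subset_span (Set.mem_insert _ _)) ?_
    exact li_one hB hL a ha halg hli
  · intro hli'
    refine h1 (s + 1) (Fin.cons 1 t) (fun j => ?_) hli'
    refine Fin.cases ?_ (fun i => ?_) j
    · exact Submodule.subset_span (Set.mem_insert _ _)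
    · exact Submodule.subset_span (Set.mem_insert_of_mem _ ⟨i, rfl⟩)
  · intro k hk
    refine h3 k ?_
    rw [log_prod hL Finset.univ a ha k] at hk
    exact not_ind_of_dependent hk

/-- The case of a logarithm. -/
theorem special (hF : StFam) (hR : StRank) (hB : StBakerI) {p : ℕ} [Fact p.Prime]
    {L : PadicAlgCl p → PadicAlgCl p} (hL : IsIwasawaLog p L)
    {d M : ℕ} (hd : 1 ≤ d) (a : Fin M → PadicAlgCl p) (ha : ∀ i, a i ≠ 0)
    (halg : ∀ i, IsAlgebraic ℚ (a i)) (b : PadicAlgCl p) (hb : b ≠ 0) (hbalg : IsAlgebraic ℚ b)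
    (hli : LinearIndependent ℚ (Fin.cons (L b) fun i => L (a i) : Fin (M + 1) → PadicAlgCl p)) :
    ∃ E : Finset (AddSubgroup (Fin M → ℤ)), (∀ H ∈ E, Module.finrank ℤ H + 1 ≤ d) ∧
      ∀ k : Fin M → ℤ, Dependent d ![L (∏ i, a i ^ k i), L b] → ∃ H ∈ E, k ∈ H := by
  classical
  have hcons : (fun i => L ((Fin.cons b a : Fin (M + 1) → PadicAlgCl p) i)) =
      (Fin.cons (L b) fun i => L (a i) : Fin (M + 1) → PadicAlgCl p) := by
    funext i
    refine Fin.cases rfl (fun i => rfl) i
  have hli1 := li_one hB hL (Fin.cons b a : Fin (M + 1) → PadicAlgCl p)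
    (fun i => Fin.cases hb (fun i => ha i) i) (fun i => Fin.cases hbalg (fun i => halg i) i)
    (by rw [hcons]; exact hli)
  rw [hcons] at hli1
  -- the logarithm of `b` is transcendental
  have htr : AlgebraicIndependent ℚ (fun _ : Fin 1 => L b) := by
    rw [algebraicIndependent_unique_type_iff]
    intro halgL
    rw [Fintype.linearIndependent_iff] at hli1
    have h1 := hli1 (Sum.elim (fun _ => -⟨L b, mem_algebraicClosure_iff.2 halgL⟩)
      (Fin.cons 1 fun _ => 0)) (by
        rw [Fintype.sum_sum_type, Fin.sum_univ_one, Fin.sum_univ_succ]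
        simp only [Sum.elim_inl, Sum.elim_inr, Fin.cons_zero, Fin.cons_succ, zero_smul,
          Finset.sum_const_zero, add_zero, one_smul, neg_smul]
        rw [Algebra.smul_def, mul_one]
        exact neg_add_cancel (L b)) (Sum.inr 0)
    simp at h1
  obtain ⟨E, h1, h2, h3, h4⟩ := general hF hR hB hL (s := 1) hd a ha halg
    (by
      have := hli.comp (Fin.succ : Fin M → Fin (M + 1)) (Fin.succ_injective M)
      exact this) (fun _ => L b) htr 0
  have hli2 : LinearIndependent (algebraicClosure ℚ (PadicAlgCl p))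
      (Sum.elim (Fin.cons 1 (fun _ => L b) : Fin (1 + 1) → PadicAlgCl p) fun i => L (a i)) := by
    rw [Fintype.linearIndependent_iff] at hli1 ⊢
    intro g hg
    have h5 := hli1 (Sum.elim (fun _ => g (Sum.inl 0))
      (Fin.cons (g (Sum.inl 1)) fun i => g (Sum.inr i))) (by
        rw [← hg, Fintype.sum_sum_type, Fintype.sum_sum_type, Fin.sum_univ_one,
          Fin.sum_univ_succ, Fin.sum_univ_two]
        simp only [Sum.elim_inl, Sum.elim_inr, Fin.cons_zero, Fin.cons_succ, Fin.cons_one]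
        rw [add_assoc])
    rintro (j | i)
    · fin_cases j
      · exact h5 (Sum.inl 0)
      · exact h5 (Sum.inr 0)
    · exact h5 (Sum.inr i.succ)
  refine ⟨E.image Prod.snd, ?_, ?_⟩
  · intro H hH
    obtain ⟨e, he, rfl⟩ := Finset.mem_image.mp hH
    have h5 := h2 hli2 e he
    rw [Nat.choose_one_right] at h5
    omega
  · intro k hk
    obtain ⟨e, he, hke⟩ := h4 k (by
      rw [zero_add]
      have : (Fin.cons (L (∏ i, a i ^ k i)) (fun _ => L b) : Fin (1 + 1) → PadicAlgCl p) =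
          ![L (∏ i, a i ^ k i), L b] := by
        funext j
        fin_cases j <;> rfl
      rw [this]
      exact hk)
    rw [h3 rfl e he, sub_zero] at hke
    exact ⟨e.2, Finset.mem_image_of_mem _ he, hke⟩

end Pool.Agent.Lib.MP_c50dba_nt.RD
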