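import Pool.Agent.Lib.MP_c50dba_nt.RD.Stmts

set_option autoImplicit false

/-!
Module Gauss: bounds for the coefficients of a product of linear factors.
-/

namespace Pool.Agent.Lib.MP_c50dba_nt.RD

open Polynomial

namespace Gaussaux

variable {Ω : Type} [Field Ω] (V : ValuationSubring Ω)

lemma val_eq (T : Ω) (hT : T ≠ 0) (a : Ω) :
    V.valuation a = V.valuation (a / T) * V.valuation T := by
  rw [← map_mul, div_mul_cancel₀ _ hT]

lemma natDeg (S : Multiset Ω) : ((S.map fun a => X - C a).prod : Polynomial Ω).natDegree = S.card := by
  rw [natDegree_multiset_prod_X_sub_C_eq_card]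

lemma step (T a : Ω) (hT : T ≠ 0) (f : Polynomial Ω) (m : V.ValueGroup)
    (h : ∃ k, m ≤ V.valuation (f.coeff k) * V.valuation T ^ k) (hf : f ≠ 0) :
    ∃ k, max (V.valuation T) (V.valuation a) * m ≤
      V.valuation (((X - C a) * f).coeff k) * V.valuation T ^ k := by
  have hT0 : V.valuation T ≠ 0 := (Valuation.ne_zero_iff _).mpr hT
  have hTp : 0 < V.valuation T := zero_lt_iff.mpr hT0
  obtain ⟨j, hj, hmax⟩ := f.support.exists_max_image
    (fun j => toLex (V.valuation (f.coeff j) * V.valuation T ^ j, j))
    (Polynomial.support_nonempty.mpr hf)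
  simp only [Prod.Lex.le_iff, ofLex_toLex] at hmax
  have hfj : f.coeff j ≠ 0 := Polynomial.mem_support_iff.mp hj
  set M := V.valuation (f.coeff j) * V.valuation T ^ j with hM
  have hM0 : M ≠ 0 := mul_ne_zero ((Valuation.ne_zero_iff _).mpr hfj) (pow_ne_zero _ hT0)
  have hMp : 0 < M := zero_lt_iff.mpr hM0
  have hle : ∀ i, V.valuation (f.coeff i) * V.valuation T ^ i ≤ M := by
    intro i
    by_cases hi : i ∈ f.support
    · rcases hmax i hi with h1 | h1
      · exact h1.le
      · exact h1.1.le
    · rw [Polynomial.notMem_support_iff.mp hi, map_zero, zero_mul]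
      exact zero_le
  have hmM : m ≤ M := by
    obtain ⟨k, hk⟩ := h
    exact hk.trans (hle k)
  rcases le_or_gt (V.valuation a) (V.valuation T) with hc | hc
  · -- the largest index
    have hlt : V.valuation (f.coeff (j + 1)) * V.valuation T ^ (j + 1) < M := by
      by_cases hi : j + 1 ∈ f.support
      · rcases hmax _ hi with h1 | h1
        · exact h1
        · omega
      · rw [Polynomial.notMem_support_iff.mp hi, map_zero, zero_mul]
        exact hMp
    have h1 : V.valuation (a * f.coeff (j + 1)) < V.valuation (f.coeff j) := by
      have h2 : V.valuation (a * f.coeff (j + 1)) * V.valuation T ^ (j + 1) <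
          V.valuation (f.coeff j) * V.valuation T ^ (j + 1) := by
        calc V.valuation (a * f.coeff (j + 1)) * V.valuation T ^ (j + 1)
            = V.valuation a * (V.valuation (f.coeff (j + 1)) * V.valuation T ^ (j + 1)) := by
              rw [map_mul, mul_assoc]
          _ ≤ V.valuation T * (V.valuation (f.coeff (j + 1)) * V.valuation T ^ (j + 1)) :=
              mul_le_mul_left hc _
          _ < V.valuation T * M := by
              exact (mul_lt_mul_iff_right₀ hTp).mpr hlt
          _ = V.valuation (f.coeff j) * V.valuation T ^ (j + 1) := by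
              rw [hM, pow_succ]
              ac_rfl
      exact lt_of_mul_lt_mul_right' h2
    refine ⟨j + 1, ?_⟩
    rw [max_eq_left hc, sub_mul, Polynomial.coeff_sub, Polynomial.coeff_X_mul,
      Polynomial.coeff_C_mul, Valuation.map_sub_eq_of_lt_left _ h1]
    calc V.valuation T * m ≤ V.valuation T * M := mul_le_mul_right hmM _
      _ = _ := by
          rw [hM, pow_succ]
          ac_rfl
  · have h3 : V.valuation (((X - C a) * f).coeff j) = V.valuation (a * f.coeff j) := by
      rw [sub_mul, Polynomial.coeff_sub, Polynomial.coeff_C_mul]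
      rcases j with _ | i
      · rw [Polynomial.coeff_X_mul_zero, zero_sub, Valuation.map_neg]
      · rw [Polynomial.coeff_X_mul]
        refine Valuation.map_sub_eq_of_lt_right _ ?_
        have h2 : V.valuation (f.coeff i) * V.valuation T ^ (i + 1) <
            V.valuation (a * f.coeff (i + 1)) * V.valuation T ^ (i + 1) := by
          calc V.valuation (f.coeff i) * V.valuation T ^ (i + 1)
              = V.valuation T * (V.valuation (f.coeff i) * V.valuation T ^ i) := by
                rw [pow_succ]
                ac_rfl
            _ ≤ V.valuation T * M := mul_le_mul_right (hle i) _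
            _ < V.valuation a * M := (mul_lt_mul_iff_left₀ hMp).mpr hc
            _ = V.valuation (a * f.coeff (i + 1)) * V.valuation T ^ (i + 1) := by
                rw [hM, map_mul, mul_assoc]
        exact lt_of_mul_lt_mul_right' h2
    refine ⟨j, ?_⟩
    rw [max_eq_right hc.le, h3, map_mul, mul_assoc, ← hM]
    exact mul_le_mul_right hmM _

lemma prod_ne (S : Multiset Ω) : ((S.map fun a => X - C a).prod : Polynomial Ω) ≠ 0 :=
  (monic_multiset_prod_of_monic _ _ fun a _ => monic_X_sub_C a).ne_zero

lemma low (T : Ω) (hT : T ≠ 0) (c : Ω) (hc : c ≠ 0) (S : Multiset Ω) :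
    ∃ k, V.valuation c * (S.map fun a => max (V.valuation T) (V.valuation a)).prod ≤
      V.valuation ((C c * (S.map fun a => X - C a).prod : Polynomial Ω).coeff k) * V.valuation T ^ k := by
  induction S using Multiset.induction_on with
  | empty => exact ⟨0, by simp⟩
  | cons a S ih =>
    have h := step V T a hT (C c * (S.map fun a => X - C a).prod) _ ih
      (mul_ne_zero (C_ne_zero.mpr hc) (prod_ne S))
    obtain ⟨k, hk⟩ := h
    refine ⟨k, ?_⟩
    rw [Multiset.map_cons, Multiset.prod_cons, Multiset.map_cons, Multiset.prod_cons]
    have e1 : V.valuation c * (max (V.valuation T) (V.valuation a) *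
        (S.map fun a => max (V.valuation T) (V.valuation a)).prod) =
        max (V.valuation T) (V.valuation a) * (V.valuation c *
          (S.map fun a => max (V.valuation T) (V.valuation a)).prod) := by ac_rfl
    have e2 : (C c * ((X - C a) * (S.map fun a => X - C a).prod) : Polynomial Ω) =
        (X - C a) * (C c * (S.map fun a => X - C a).prod) := by ring
    rw [e1, e2]
    exact hk

lemma max_prod (T : Ω) (hT : T ≠ 0) (S : Multiset Ω) :
    (S.map fun a => max (V.valuation T) (V.valuation a)).prod =
      V.valuation T ^ S.card * (S.map fun a => max 1 (V.valuation (a / T))).prod := by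
  induction S using Multiset.induction_on with
  | empty => simp
  | cons a S ih =>
    rw [Multiset.map_cons, Multiset.prod_cons, Multiset.map_cons, Multiset.prod_cons, ih,
      Multiset.card_cons, pow_succ]
    have e : max (V.valuation T) (V.valuation a) =
        V.valuation T * max 1 (V.valuation (a / T)) := by
      rw [mul_max, mul_one, mul_comm (V.valuation T) (V.valuation (a / T)), ← val_eq V T hT]
    rw [e]
    ac_rfl

end Gaussaux

open Gaussaux in
/-- A4. Upper bound for the coefficients of a product of linear polynomials. -/
theorem stGaussUp : StGaussUp := by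
  intro Ω _ V T hT S
  induction S using Multiset.induction_on with
  | empty =>
    intro k hk
    have hk0 : k = 0 := by simpa using hk
    subst hk0
    simp
  | cons a S ih =>
    intro k hk
    rw [Multiset.card_cons] at hk
    rw [Multiset.map_cons, Multiset.prod_cons, Multiset.map_cons, Multiset.prod_cons,
      Multiset.card_cons, sub_mul, Polynomial.coeff_sub, Polynomial.coeff_C_mul]
    set Q : Polynomial Ω := (S.map fun a => X - C a).prod with hQ
    set P := (S.map fun a => max 1 (V.valuation (a / T))).prod with hP
    have h1 : 1 ≤ max 1 (V.valuation (a / T)) := le_max_left _ _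
    have h2 : V.valuation (a / T) ≤ max 1 (V.valuation (a / T)) := le_max_right _ _
    -- the second term
    have hsec : V.valuation (a * Q.coeff k) ≤ V.valuation T ^ (S.card + 1 - k) *
        (max 1 (V.valuation (a / T)) * P) := by
      rcases Nat.lt_or_ge S.card k with hlt | hge
      · rw [Polynomial.coeff_eq_zero_of_natDegree_lt (by rw [hQ, natDeg]; exact hlt), mul_zero,
          map_zero]
        exact zero_le
      · rw [map_mul, val_eq V T hT a, show S.card + 1 - k = (S.card - k) + 1 by omega, pow_succ]
        calc V.valuation (a / T) * V.valuation T * V.valuation (Q.coeff k)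
            ≤ max 1 (V.valuation (a / T)) * V.valuation T *
                (V.valuation T ^ (S.card - k) * P) := by
              gcongr
              exact ih k hge
          _ = _ := by ac_rfl
    refine (Valuation.map_sub _ _ _).trans (max_le ?_ hsec)
    rcases k with _ | j
    · rw [Polynomial.coeff_X_mul_zero, map_zero]
      exact zero_le
    · rw [Polynomial.coeff_X_mul, show S.card + 1 - (j + 1) = S.card - j by omega]
      calc V.valuation (Q.coeff j) ≤ V.valuation T ^ (S.card - j) * P := ih j (by omega)
        _ = V.valuation T ^ (S.card - j) * (1 * P) := by rw [one_mul]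
        _ ≤ _ := by gcongr

open Gaussaux in
/-- A5. Lower bound for the coefficients of a polynomial. -/
theorem stGaussLow : StGaussLow := by
  intro Ω _ _ V T hT P hP
  have hT0 : V.valuation T ≠ 0 := (Valuation.ne_zero_iff _).mpr hT
  have hs : P.Splits := IsAlgClosed.splits P
  have hlc : P.leadingCoeff ≠ 0 := leadingCoeff_ne_zero.mpr hP
  have hcard : P.roots.card = P.natDegree := hs.natDegree_eq_card_roots.symm
  obtain ⟨k, hk⟩ := low V T hT P.leadingCoeff hlc P.roots
  rw [← hs.eq_prod_roots, max_prod V T hT, hcard] at hk
  have hpos : 0 < V.valuation P.leadingCoeff * (V.valuation T ^ P.natDegree *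
      (P.roots.map fun a => max 1 (V.valuation (a / T))).prod) := by
    rw [zero_lt_iff]
    refine mul_ne_zero ((Valuation.ne_zero_iff _).mpr hlc) (mul_ne_zero (pow_ne_zero _ hT0) ?_)
    refine Multiset.prod_ne_zero fun h0 => ?_
    rw [Multiset.mem_map] at h0
    obtain ⟨a, -, ha⟩ := h0
    have : (1 : V.ValueGroup) ≤ 0 := by
      rw [← ha]
      exact le_max_left _ _
    exact absurd this (not_le.mpr zero_lt_one)
  have hck : P.coeff k ≠ 0 := by
    intro h0
    rw [h0, map_zero, zero_mul] at hk
    exact absurd hk (not_le.mpr hpos)
  have hkd : k ≤ P.natDegree := le_natDegree_of_ne_zero hck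
  refine ⟨k, hkd, hck, ?_⟩
  have e1 : V.valuation T ^ P.natDegree = V.valuation T ^ (P.natDegree - k) * V.valuation T ^ k := by
    rw [← pow_add, Nat.sub_add_cancel hkd]
  have h3 : V.valuation P.leadingCoeff * (P.roots.map fun a => max 1 (V.valuation (a / T))).prod *
      V.valuation T ^ (P.natDegree - k) * V.valuation T ^ k ≤
      V.valuation (P.coeff k) * V.valuation T ^ k := by
    refine le_trans (le_of_eq ?_) hk
    rw [e1]
    ac_rfl
  exact le_of_mul_le_mul_right h3 (zero_lt_iff.mpr (pow_ne_zero _ hT0))

end Pool.Agent.Lib.MP_c50dba_nt.RD
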