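import Pool.Agent.Lib.MP_c50dba_nt.RD.Stmts

set_option autoImplicit false

/-!
Module `MomentsI`: exponential polynomials are independent.
-/

namespace Pool.Agent.Lib.MP_c50dba_nt.RD

open scoped BigOperators
open MvPolynomial

namespace MomentsIaux

variable {K : Type} [Field K] {n : ℕ}

/-- Restriction of a polynomial to the line through `κ` in the direction `σ₀`. -/
noncomputable def Φ (σ₀ : Fin n) (κ : Fin n → K) : MvPolynomial (Fin n) K →ₐ[K] Polynomial K :=
  aeval (fun σ => Polynomial.C (κ σ) + if σ = σ₀ then Polynomial.X else 0)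

theorem pe_zero (b m : ℕ) (w : K) : pe b w 0 m = (m.descFactorial b : K) * w ^ (m - b) := by
  unfold pe
  by_cases h : b ≤ m
  · rw [Finset.sum_eq_single b]
    · rw [Nat.sub_self, pow_zero, mul_one, Nat.descFactorial_self, ← Nat.cast_mul, mul_comm (m.choose b),
        ← Nat.descFactorial_eq_factorial_mul_choose]
    · intro r _ hr
      rcases lt_or_gt_of_ne hr with h1 | h1
      · rw [zero_pow (by omega)]
        ring
      · rw [Nat.descFactorial_eq_zero_iff_lt.2 h1]
        push_cast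
        ring
    · intro h1
      exact absurd (Finset.mem_range.2 (by omega)) h1
  · rw [Nat.descFactorial_eq_zero_iff_lt.2 (by omega), Nat.cast_zero, zero_mul]
    apply Finset.sum_eq_zero
    intro r hr
    rw [Finset.mem_range] at hr
    rw [zero_pow (by omega)]
    ring

theorem coeff_mono (σ₀ : Fin n) (κ : Fin n → K) (d : Fin n →₀ ℕ) (a : K) (l : ℕ) :
    (l.factorial : K) * (Φ σ₀ κ (monomial d a)).coeff l =
      a * ((∏ σ ∈ Finset.univ.erase σ₀, κ σ ^ d σ) * pe l (κ σ₀) 0 (d σ₀)) := by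
  have h1 : Φ σ₀ κ (monomial d a) = Polynomial.C a * (Polynomial.C
      (∏ σ ∈ Finset.univ.erase σ₀, κ σ ^ d σ) * (Polynomial.X + Polynomial.C (κ σ₀)) ^ d σ₀) := by
    unfold Φ
    rw [aeval_monomial, Finsupp.prod_fintype _ _ (fun i => pow_zero _),
      ← Finset.mul_prod_erase Finset.univ _ (Finset.mem_univ σ₀), if_pos rfl,
      mul_comm ((Polynomial.C (κ σ₀) + Polynomial.X) ^ d σ₀), add_comm (Polynomial.C (κ σ₀))]
    congr 2
    rw [map_prod]
    refine Finset.prod_congr rfl fun σ hσ => ?_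
    rw [if_neg (Finset.ne_of_mem_erase hσ), add_zero, map_pow]
  rw [h1, Polynomial.coeff_C_mul, Polynomial.coeff_C_mul, Polynomial.coeff_X_add_C_pow, pe_zero,
    Nat.descFactorial_eq_factorial_mul_choose]
  push_cast
  ring

end MomentsIaux

open MomentsIaux in
theorem stMomentsI : StMomentsI := by
  intro K _ _ n σ₀ ι _ κ hκ D₀ ξ h
  classical
  have hQ : ∀ Q : MvPolynomial (Fin n) K,
      ∑ i, ξ i * (((i.1 : ℕ).factorial : K) * (Φ σ₀ (κ i.2) Q).coeff i.1) = 0 := by
    intro Q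
    induction Q using MvPolynomial.induction_on' with
    | monomial d a =>
      have e : ∀ i : Fin D₀ × ι, ξ i * (((i.1 : ℕ).factorial : K) *
          (Φ σ₀ (κ i.2) (monomial d a)).coeff i.1) =
          a * (ξ i * ((∏ σ ∈ Finset.univ.erase σ₀, κ i.2 σ ^ d σ) *
            pe (i.1 : ℕ) (κ i.2 σ₀) 0 (d σ₀))) := by
        intro i
        rw [coeff_mono]
        ring
      rw [Finset.sum_congr rfl (fun i _ => e i), ← Finset.mul_sum, h (fun σ => d σ), mul_zero]
    | add p q hp hq =>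
      rw [← add_zero (0 : K)]
      nth_rewrite 1 [← hp]
      rw [← hq, ← Finset.sum_add_distrib]
      refine Finset.sum_congr rfl fun i _ => ?_
      rw [map_add, Polynomial.coeff_add]
      ring
  by_contra hξ
  obtain ⟨i₀, hi₀⟩ := Function.ne_iff.1 hξ
  obtain ⟨l₁, k₀⟩ := i₀
  -- the largest order
  obtain ⟨l₀, hl₀, hmax⟩ : ∃ l₀ : Fin D₀, ξ (l₀, k₀) ≠ 0 ∧ ∀ l, l₀ < l → ξ (l, k₀) = 0 := by
    have hne : (Finset.univ.filter fun l : Fin D₀ => ξ (l, k₀) ≠ 0).Nonempty :=
      ⟨l₁, Finset.mem_filter.2 ⟨Finset.mem_univ _, hi₀⟩⟩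
    refine ⟨_, (Finset.mem_filter.1 (Finset.max'_mem _ hne)).2, fun l hl => ?_⟩
    by_contra hc
    exact absurd (Finset.le_max' _ l (Finset.mem_filter.2 ⟨Finset.mem_univ _, hc⟩))
      (not_le.2 hl)
  have hsep : ∀ k, k ≠ k₀ → ∃ σ, κ k σ ≠ κ k₀ σ := by
    intro k hk
    by_contra hall
    push Not at hall
    exact hk (hκ (funext hall))
  have hsep' : ∀ k, ∃ Q : MvPolynomial (Fin n) K, k ≠ k₀ →
      Polynomial.X ∣ Φ σ₀ (κ k) Q ∧ (Φ σ₀ (κ k₀) Q).coeff 0 ≠ 0 := by
    intro k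
    by_cases hk : k = k₀
    · exact ⟨0, fun h => absurd hk h⟩
    · obtain ⟨σ, hσ⟩ := hsep k hk
      refine ⟨X σ - C (κ k σ), fun _ => ⟨?_, ?_⟩⟩
      · unfold Φ
        rw [map_sub, aeval_X, aeval_C, Polynomial.algebraMap_eq, add_sub_cancel_left]
        split_ifs
        · exact dvd_rfl
        · exact dvd_zero _
      · unfold Φ
        rw [map_sub, aeval_X, aeval_C, Polynomial.algebraMap_eq]
        have e : (Polynomial.C (κ k₀ σ) + (if σ = σ₀ then Polynomial.X else 0) -
            Polynomial.C (κ k σ)).coeff 0 = κ k₀ σ - κ k σ := by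
          split_ifs <;> simp
        rw [e]
        exact sub_ne_zero.2 (Ne.symm hσ)
  choose Q hQQ using hsep'
  set R : MvPolynomial (Fin n) K := ∏ k ∈ Finset.univ.erase k₀, Q k ^ D₀ with hR
  set P : MvPolynomial (Fin n) K := (X σ₀ - C (κ k₀ σ₀)) ^ (l₀ : ℕ) * R with hP
  have hP0 : Φ σ₀ (κ k₀) P = Polynomial.X ^ (l₀ : ℕ) * Φ σ₀ (κ k₀) R := by
    rw [hP, map_mul, map_pow]
    congr 2
    unfold Φ
    rw [map_sub, aeval_X, aeval_C, Polynomial.algebraMap_eq, if_pos rfl, add_sub_cancel_left]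
  have hR0 : (Φ σ₀ (κ k₀) R).coeff 0 ≠ 0 := by
    rw [hR, map_prod, Polynomial.coeff_zero_eq_eval_zero, Polynomial.eval_prod,
      Finset.prod_ne_zero_iff]
    intro k hk
    rw [map_pow, Polynomial.eval_pow, ← Polynomial.coeff_zero_eq_eval_zero]
    exact pow_ne_zero _ (hQQ k (Finset.ne_of_mem_erase hk)).2
  have := hQ P
  rw [Finset.sum_eq_single (l₀, k₀)] at this
  · rcases mul_eq_zero.1 this with h1 | h1
    · exact hl₀ h1
    · rcases mul_eq_zero.1 h1 with h2 | h2
      · exact Nat.cast_ne_zero.2 (Nat.factorial_ne_zero _) h2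
      · rw [hP0, Polynomial.coeff_X_pow_mul', if_pos le_rfl, Nat.sub_self] at h2
        exact hR0 h2
  · rintro ⟨l, k⟩ _ hlk
    by_cases hk : k = k₀
    · subst hk
      have hl : l ≠ l₀ := fun h => hlk (by rw [h])
      rcases lt_or_gt_of_ne hl with h1 | h1
      · have : (Φ σ₀ (κ k) P).coeff (l : ℕ) = 0 := by
          rw [hP0, Polynomial.coeff_X_pow_mul', if_neg (by
            rw [← Fin.le_def]
            exact not_le.2 h1)]
        simp only [this, mul_zero]
      · rw [hmax l h1, zero_mul]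
    · have h2 : Polynomial.X ^ D₀ ∣ Φ σ₀ (κ k) P := by
        have h3 : Q k ^ D₀ ∣ P := by
          rw [hP, hR]
          exact (Finset.dvd_prod_of_mem (fun k => Q k ^ D₀)
            (Finset.mem_erase.2 ⟨hk, Finset.mem_univ _⟩)).mul_left _
        refine dvd_trans ?_ (map_dvd (Φ σ₀ (κ k)) h3)
        rw [map_pow]
        exact pow_dvd_pow_of_dvd (hQQ k hk).1 _
      have h4 := Polynomial.X_pow_dvd_iff.1 h2 (l : ℕ) l.2
      simp only [h4, mul_zero]
  · intro h
    exact absurd (Finset.mem_univ _) h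

end Pool.Agent.Lib.MP_c50dba_nt.RD
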