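import Mathlib
import Pool.Agent.Lib.MP_c50dba_nt.RD.Stmts

set_option autoImplicit false

/-!
Valuation rings over the infinite place given by the total degree.
-/

namespace Pool.Agent.Lib.MP_c50dba_nt.RD

open MvPolynomial

namespace OverInfaux

section

variable {F Ω : Type} [Field F] [Field Ω] [Algebra F Ω] {s : ℕ} (t : Fin s → Ω)

/-- The quotients `f / g` with `deg f ≤ deg g`. -/
def Oi (t : Fin s → Ω) : Subring Ω where
  carrier := {x | ∃ f g : MvPolynomial (Fin s) F, g ≠ 0 ∧
    x * aeval t g = aeval t f ∧ f.totalDegree ≤ g.totalDegree}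
  mul_mem' := by
    rintro x y ⟨f, g, hg, hx, h⟩ ⟨f', g', hg', hy, h'⟩
    refine ⟨f * f', g * g', mul_ne_zero hg hg', ?_, ?_⟩
    · rw [map_mul, map_mul, ← hx, ← hy]
      ring
    · rw [totalDegree_mul_of_isDomain hg hg']
      exact (totalDegree_mul _ _).trans (add_le_add h h')
  one_mem' := ⟨1, 1, one_ne_zero, by rw [one_mul], le_rfl⟩
  add_mem' := by
    rintro x y ⟨f, g, hg, hx, h⟩ ⟨f', g', hg', hy, h'⟩
    refine ⟨f * g' + f' * g, g * g', mul_ne_zero hg hg', ?_, ?_⟩
    · rw [map_add, map_mul, map_mul, map_mul, ← hx, ← hy]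
      ring
    · rw [totalDegree_mul_of_isDomain hg hg']
      refine (totalDegree_add _ _).trans (max_le ?_ ?_)
      · exact (totalDegree_mul _ _).trans (add_le_add h le_rfl)
      · refine (totalDegree_mul _ _).trans ?_
        rw [add_comm]
        exact add_le_add le_rfl h'
  zero_mem' := ⟨0, 1, one_ne_zero, by rw [zero_mul, map_zero],
    by rw [totalDegree_zero]; exact Nat.zero_le _⟩
  neg_mem' := by
    rintro x ⟨f, g, hg, hx, h⟩
    exact ⟨-f, g, hg, by rw [map_neg, ← hx]; ring, by rwa [totalDegree_neg]⟩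

/-- The quotients `f / g` with `deg f < deg g`. -/
def Mi (t : Fin s → Ω) : Ideal (Oi (F := F) t) where
  carrier := {x | ∃ f g : MvPolynomial (Fin s) F, g ≠ 0 ∧
    (x : Ω) * aeval t g = aeval t f ∧ (f = 0 ∨ f.totalDegree < g.totalDegree)}
  add_mem' := by
    rintro x y ⟨f, g, hg, hx, h⟩ ⟨f', g', hg', hy, h'⟩
    refine ⟨f * g' + f' * g, g * g', mul_ne_zero hg hg', ?_, ?_⟩
    · rw [map_add, map_mul, map_mul, map_mul, ← hx, ← hy]
      show ((x : Ω) + y) * _ = _
      ring
    · have key : ∀ a b c : MvPolynomial (Fin s) F, c ≠ 0 → (a = 0 ∨ a.totalDegree < b.totalDegree) →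
          (a * c = 0 ∨ (a * c).totalDegree < b.totalDegree + c.totalDegree) := by
        rintro a b c hc (rfl | h1)
        · exact Or.inl (zero_mul c)
        · right
          refine (totalDegree_mul _ _).trans_lt ?_
          omega
      have h1 := key f g g' hg' h
      have h2 := key f' g' g hg h'
      rw [totalDegree_mul_of_isDomain hg hg']
      rcases h1 with h1 | h1
      · rcases h2 with h2 | h2
        · left
          rw [h1, h2, add_zero]
        · right
          rw [h1, zero_add]
          omega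
      · rcases h2 with h2 | h2
        · right
          rw [h2, add_zero]
          exact h1
        · right
          refine (totalDegree_add _ _).trans_lt (max_lt h1 ?_)
          omega
  zero_mem' := ⟨0, 1, one_ne_zero, by rw [map_zero]; exact zero_mul _, Or.inl rfl⟩
  smul_mem' := by
    rintro ⟨x, f, g, hg, hx, h⟩ y ⟨f', g', hg', hy, h'⟩
    refine ⟨f * f', g * g', mul_ne_zero hg hg', ?_, ?_⟩
    · have e : x * (y : Ω) * (aeval t g * aeval t g') = aeval t f * aeval t f' := by
        rw [← hx, ← hy]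
        ring
      rw [map_mul, map_mul]
      exact e
    · rw [totalDegree_mul_of_isDomain hg hg']
      rcases h' with rfl | h'
      · exact Or.inl (mul_zero f)
      · right
        refine (totalDegree_mul _ _).trans_lt ?_
        omega

end

end OverInfaux

open OverInfaux in
theorem stOverInf : StOverInf := by
  intro F Ω _ _ _ s t ht
  have h0 : ∀ g : MvPolynomial (Fin s) F, g ≠ 0 → aeval t g ≠ 0 := by
    intro g hg h
    exact hg (ht (by rw [h, map_zero]))
  have hne : (Mi (F := F) t) ≠ ⊤ := by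
    intro h
    have h1 : (1 : Oi (F := F) t) ∈ Mi (F := F) t := by rw [h]; exact Submodule.mem_top
    obtain ⟨f, g, hg, hx, hd⟩ := h1
    have h2 : aeval t g = aeval t f := by
      rw [← hx]
      exact (one_mul _).symm
    have h3 := ht h2
    subst h3
    rcases hd with hd | hd
    · exact hg hd
    · exact lt_irrefl _ hd
  obtain ⟨V, hV1, hV2⟩ := Ideal.image_subset_nonunits_valuationSubring (Mi (F := F) t) hne
  refine ⟨V, fun f g hf hg => ⟨fun h => ?_, fun h => ?_⟩⟩
  · have h1 : aeval t f / aeval t g ∈ V := hV1 ⟨f, g, hg, div_mul_cancel₀ _ (h0 g hg), h⟩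
    have h2 := (V.valuation_le_one_iff _).2 h1
    rw [map_div₀] at h2
    exact (div_le_one₀ (zero_lt_iff.2 ((Valuation.ne_zero_iff _).2 (h0 g hg)))).1 h2
  · have h1 : aeval t f / aeval t g ∈ Oi (F := F) t :=
      ⟨f, g, hg, div_mul_cancel₀ _ (h0 g hg), h.le⟩
    have h2 : aeval t f / aeval t g ∈ V.nonunits :=
      hV2 ⟨⟨_, h1⟩, ⟨f, g, hg, div_mul_cancel₀ _ (h0 g hg), Or.inr h⟩, rfl⟩
    have h3 := V.mem_nonunits_iff.1 h2
    rw [map_div₀] at h3
    exact (div_lt_one₀ (zero_lt_iff.2 ((Valuation.ne_zero_iff _).2 (h0 g hg)))).1 h3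

end Pool.Agent.Lib.MP_c50dba_nt.RD
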