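import Pool.Agent.Lib.MP_c50dba_nt.RD.Stmts

/-!
Valuation rings over a prime polynomial.
-/

set_option autoImplicit false

namespace Pool.Agent.Lib.MP_c50dba_nt.RD

open MvPolynomial

theorem stOverPrime : StOverPrime := by
  intro F Ω _ _ _ s t hinj π hπ
  let φ : MvPolynomial (Fin s) F →+* Ω := (aeval t : MvPolynomial (Fin s) F →ₐ[F] Ω).toRingHom
  have hφ : Function.Injective φ := hinj
  let A : Subring Ω := φ.range
  let e : MvPolynomial (Fin s) F ≃+* A := RingEquiv.ofBijective φ.rangeRestrict
    ⟨fun x y h => hφ (congrArg Subtype.val h), φ.rangeRestrict_surjective⟩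
  have he : ∀ f, ((e f : A) : Ω) = aeval t f := fun f => rfl
  have hspan : (Ideal.span {π} : Ideal (MvPolynomial (Fin s) F)).IsPrime :=
    (Ideal.span_singleton_prime hπ.ne_zero).2 hπ
  let P : Ideal A := Ideal.comap (e.symm : A →+* MvPolynomial (Fin s) F) (Ideal.span {π})
  have hP : P.IsPrime := Ideal.comap_isPrime _ _
  have hmem : ∀ f, e f ∈ P ↔ π ∣ f := by
    intro f
    show e.symm (e f) ∈ Ideal.span {π} ↔ π ∣ f
    rw [e.symm_apply_apply, Ideal.mem_span_singleton]
  obtain ⟨V, hV⟩ := (LocalSubring.ofPrime A P).exists_le_valuationSubring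
  have hloc := hV.2
  have hunit : ∀ f, IsUnit (algebraMap A (LocalSubring.ofPrime A P).toSubring (e f)) ↔
      ¬ π ∣ f := by
    intro f
    rw [IsLocalization.AtPrime.isUnit_to_map_iff (LocalSubring.ofPrime A P).toSubring P (e f),
      Ideal.mem_primeCompl_iff, hmem]
  have hle : ∀ f : MvPolynomial (Fin s) F, V.valuation (aeval t f) ≤ 1 := by
    intro f
    rw [ValuationSubring.valuation_le_one_iff]
    exact hV.1 (LocalSubring.le_ofPrime A P (e f).2)
  refine ⟨V, hle, ?_, ?_⟩
  · intro f hf
    have h1 := ((hunit f).2 hf).map (Subring.inclusion hV.1)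
    exact (ValuationSubring.valuation_eq_one_iff V _).1 h1
  · refine lt_of_le_of_ne (hle π) fun h => ?_
    have h1 : IsUnit (Subring.inclusion hV.1
        (algebraMap A (LocalSubring.ofPrime A P).toSubring (e π))) :=
      (ValuationSubring.valuation_eq_one_iff V _).2 h
    exact (hunit π).1 (hloc.map_nonunit _ h1) dvd_rfl

end Pool.Agent.Lib.MP_c50dba_nt.RD
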