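import Pool.Agent.Lib.MP_c50dba_nt.RD.Final

set_option autoImplicit false

/-!
Assembly: homogeneous relations between the logarithm of an element of a group, one number `w`
which is `1` or a logarithm, further logarithms and further numbers.
-/

namespace Pool.Agent.Lib.MP_c50dba_nt.RD

open scoped BigOperators
open Pool.Agent.Lib.MP_c50dba_nt Pool.Agent.Lib.MP_c50dba_nt.Gen
open Pool.Agent.Lib.MP_c50dba_nt.LR MvPolynomial

namespace Projaux

section dehom

variable {F : Type} [Field F]

/-- Homogeneous polynomials and scaling. -/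
theorem scale {A σ : Type} [CommRing A] [Algebra F A] {P : MvPolynomial σ F} {d : ℕ}
    (hP : P.IsHomogeneous d) (c : A) (z : σ → A) :
    aeval (fun i => c * z i) P = c ^ d * aeval z P := by
  rw [aeval_def, aeval_def, eval₂_eq, eval₂_eq, Finset.mul_sum]
  refine Finset.sum_congr rfl fun m hm => ?_
  have h1 := hP.degree_eq_sum_deg_support hm
  simp only [mul_pow]
  rw [Finset.prod_mul_distrib, Finset.prod_pow_eq_pow_sum, ← h1]
  ring

/-- Dehomogenisation: the second variable is replaced by `1`. -/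
noncomputable def dh (F : Type) [Field F] (n : ℕ) :
    MvPolynomial (Fin (n + 2)) F →ₐ[F] MvPolynomial (Fin (n + 1)) F :=
  aeval (Fin.cons (X 0) (Fin.cons 1 fun j : Fin n => X j.succ) :
    Fin (n + 2) → MvPolynomial (Fin (n + 1)) F)

theorem aeval_dh {A : Type} [CommRing A] [Algebra F A] {n : ℕ} (x : A) (v : Fin n → A)
    (P : MvPolynomial (Fin (n + 2)) F) :
    aeval (Fin.cons x v : Fin (n + 1) → A) (dh F n P) =
      aeval (Fin.cons x (Fin.cons 1 v) : Fin (n + 2) → A) P := by
  have h1 : (aeval (Fin.cons x v : Fin (n + 1) → A) :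
      MvPolynomial (Fin (n + 1)) F →ₐ[F] A).comp (dh F n) =
      aeval (Fin.cons x (Fin.cons 1 v) : Fin (n + 2) → A) := by
    apply algHom_ext
    intro i
    rw [AlgHom.comp_apply, dh, aeval_X, aeval_X]
    refine Fin.cases ?_ (fun i => ?_) i
    · rw [Fin.cons_zero, Fin.cons_zero, aeval_X, Fin.cons_zero]
    · rw [Fin.cons_succ, Fin.cons_succ]
      refine Fin.cases ?_ (fun i => ?_) i
      · rw [Fin.cons_zero, Fin.cons_zero, map_one]
      · rw [Fin.cons_succ, Fin.cons_succ, aeval_X, Fin.cons_succ]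
  exact congrArg (fun f => f P) h1

theorem dh_ne [Infinite F] {n d : ℕ} {P : MvPolynomial (Fin (n + 2)) F} (hP : P.IsHomogeneous d)
    (h0 : P ≠ 0) : dh F n P ≠ 0 := by
  intro h
  apply h0
  have h1 : (X 1 : MvPolynomial (Fin (n + 2)) F) * P = 0 := by
    apply MvPolynomial.funext
    intro z
    rw [map_mul, eval_X, map_zero]
    by_cases hz : z 1 = 0
    · rw [hz, zero_mul]
    · have h2 : aeval z P = (z 1) ^ d * aeval (fun i => z i / z 1) P := by
        rw [← scale hP]
        congr 1
        refine congrArg _ (funext fun i => ?_)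
        rw [mul_div_cancel₀ _ hz]
      have h3 : (fun i => z i / z 1) = (Fin.cons (z 0 / z 1) (Fin.cons 1
          fun j : Fin n => z j.succ.succ / z 1) : Fin (n + 2) → F) := by
        funext i
        refine Fin.cases rfl (fun i => ?_) i
        rw [Fin.cons_succ]
        refine Fin.cases ?_ (fun i => rfl) i
        rw [Fin.cons_zero]
        exact div_self hz
      rw [h3, ← aeval_dh, h, map_zero, mul_zero] at h2
      rw [← coe_aeval_eq_eval, RingHom.coe_coe, h2, mul_zero]
  exact (mul_eq_zero.mp h1).resolve_left (X_ne_zero 1)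

theorem dh_deg {n d : ℕ} {P : MvPolynomial (Fin (n + 2)) F} (hP : P.totalDegree ≤ d) :
    (dh F n P).totalDegree ≤ d := by
  rw [dh, aeval_def, eval₂_eq]
  refine totalDegree_finsetSum_le fun m hm => ?_
  refine (totalDegree_mul _ _).trans ?_
  have h1 : (algebraMap F (MvPolynomial (Fin (n + 1)) F) (coeff m P)).totalDegree = 0 :=
    totalDegree_C _
  rw [h1, zero_add]
  refine (totalDegree_finsetProd _ _).trans ?_
  have h2 : ∀ i : Fin (n + 2), ((Fin.cons (X 0) (Fin.cons 1 fun j : Fin n => X j.succ) :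
      Fin (n + 2) → MvPolynomial (Fin (n + 1)) F) i).totalDegree ≤ 1 := by
    intro i
    refine Fin.cases ?_ (fun i => ?_) i
    · rw [Fin.cons_zero, totalDegree_X]
    · rw [Fin.cons_succ]
      refine Fin.cases ?_ (fun i => ?_) i
      · rw [Fin.cons_zero, totalDegree_one]
        exact zero_le_one
      · rw [Fin.cons_succ, totalDegree_X]
  have h3 : ∑ i ∈ m.support, m i ≤ d := (le_totalDegree hm).trans hP
  refine le_trans (Finset.sum_le_sum fun i _ => ?_) h3
  refine (totalDegree_pow _ _).trans ?_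
  exact (Nat.mul_le_mul_left _ (h2 i)).trans (mul_one _).le

end dehom

/-- From a homogeneous relation to an inhomogeneous one. -/
theorem not_ind {Ω : Type} [Field Ω] [CharZero Ω] [Algebra ℚ Ω] {d n : ℕ} {x w : Ω}
    {v : Fin n → Ω} (hw : w ≠ 0)
    (h : ∃ P : MvPolynomial (Fin (n + 2)) Ω, P ≠ 0 ∧ P.IsHomogeneous d ∧
      (∀ m, IsAlgebraic ℚ (P.coeff m)) ∧ eval (Fin.cons x (Fin.cons w v)) P = 0) :
    ¬ Ind (algebraicClosure ℚ Ω) d
      (Fin.cons (x / w) (fun j => v j / w) : Fin (n + 1) → Ω) := by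
  obtain ⟨P, hP0, hPh, hPa, hP⟩ := h
  have hinj : Function.Injective (algebraMap (algebraicClosure ℚ Ω) Ω) :=
    (algebraMap (algebraicClosure ℚ Ω) Ω).injective
  obtain ⟨Q, hQ⟩ : P ∈ Set.range
      (map (σ := Fin (n + 2)) (algebraMap (algebraicClosure ℚ Ω) Ω)) := by
    rw [mem_range_map_iff_coeffs_subset]
    intro x hx
    obtain ⟨m, -, rfl⟩ := mem_coeffs_iff.mp hx
    exact ⟨⟨P.coeff m, mem_algebraicClosure_iff.2 (hPa m)⟩, rfl⟩
  have hQ0 : Q ≠ 0 := by
    rintro rfl
    rw [map_zero] at hQ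
    exact hP0 hQ.symm
  have hQh : Q.IsHomogeneous d := by
    rw [← hQ] at hPh
    exact hPh.of_map hinj
  have hQe : aeval (Fin.cons x (Fin.cons w v) : Fin (n + 2) → Ω) Q = 0 := by
    rw [← hQ, eval_map] at hP
    rw [aeval_def]
    exact hP
  intro hcon
  refine dh_ne hQh hQ0 (hcon _ (dh_deg hQh.totalDegree_le) ?_)
  rw [aeval_dh]
  have h1 : (fun i => w * (Fin.cons (x / w) (Fin.cons 1 fun j => v j / w) :
      Fin (n + 2) → Ω) i) = (Fin.cons x (Fin.cons w v) : Fin (n + 2) → Ω) := by
    funext i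
    refine Fin.cases ?_ (fun i => ?_) i
    · rw [Fin.cons_zero, Fin.cons_zero, mul_div_cancel₀ _ hw]
    · rw [Fin.cons_succ, Fin.cons_succ]
      refine Fin.cases ?_ (fun i => ?_) i
      · rw [Fin.cons_zero, Fin.cons_zero, mul_one]
      · rw [Fin.cons_succ, Fin.cons_succ, mul_div_cancel₀ _ hw]
  rw [← h1, scale hQh] at hQe
  exact (mul_eq_zero.mp hQe).resolve_left (pow_ne_zero _ hw)

variable {p : ℕ} [Fact p.Prime]

/-- Linear independence over the algebraic numbers of logarithms which are independent over the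
rational numbers, homogeneous version. -/
theorem li_hom (hB : StBakerI) {L : PadicAlgCl p → PadicAlgCl p} (hL : IsIwasawaLog p L) {m : ℕ}
    (α : Fin m → PadicAlgCl p) (h0 : ∀ i, α i ≠ 0) (halg : ∀ i, IsAlgebraic ℚ (α i))
    (hli : LinearIndependent ℚ (fun i => L (α i))) :
    LinearIndependent (algebraicClosure ℚ (PadicAlgCl p)) fun i => L (α i) :=
  (Finalaux.li_one hB hL α h0 halg hli).comp Sum.inr Sum.inr_injective

/-- The family `w, u, v` from a family with `w` and the concatenation of `u` and `v`. -/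
theorem li_append {F Ω : Type} [Field F] [Field Ω] [Algebra F Ω] {r M : ℕ} {w : Ω}
    {u : Fin r → Ω} {v : Fin M → Ω}
    (h : LinearIndependent F (Fin.cons w (Fin.append u v) : Fin (r + M + 1) → Ω)) :
    LinearIndependent F (Sum.elim (Fin.cons w u : Fin (r + 1) → Ω) v) := by
  have h1 : Function.Injective (Sum.elim
      (Fin.cons 0 fun j : Fin r => (Fin.castAdd M j).succ)
      (fun i : Fin M => (Fin.natAdd r i).succ) : Fin (r + 1) ⊕ Fin M → Fin (r + M + 1)) := by
    have hval : ∀ i : Fin (r + 1), ((Fin.cons 0 fun j : Fin r => (Fin.castAdd M j).succ :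
        Fin (r + 1) → Fin (r + M + 1)) i : ℕ) = i := by
      intro i
      refine Fin.cases ?_ (fun i => ?_) i
      · rw [Fin.cons_zero]
        rfl
      · rw [Fin.cons_succ, Fin.val_succ, Fin.val_succ, Fin.val_castAdd]
    rintro (i | i) (j | j) hij
    · refine congrArg Sum.inl (Fin.ext ?_)
      have h2 := congrArg Fin.val hij
      simp only [Sum.elim_inl] at h2
      rwa [hval, hval] at h2
    · exfalso
      have h2 := congrArg Fin.val hij
      simp only [Sum.elim_inl, Sum.elim_inr] at h2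
      rw [hval, Fin.val_succ, Fin.val_natAdd] at h2
      have h3 := i.isLt
      omega
    · exfalso
      have h2 := congrArg Fin.val hij
      simp only [Sum.elim_inl, Sum.elim_inr] at h2
      rw [hval, Fin.val_succ, Fin.val_natAdd] at h2
      have h3 := j.isLt
      omega
    · refine congrArg Sum.inr (Fin.ext ?_)
      have h2 := congrArg Fin.val hij
      simp only [Sum.elim_inr] at h2
      rw [Fin.val_succ, Fin.val_natAdd, Fin.val_succ, Fin.val_natAdd] at h2
      omega
  have h2 := h.comp _ h1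
  have h3 : (Sum.elim (Fin.cons w u : Fin (r + 1) → Ω) v) =
      (Fin.cons w (Fin.append u v) : Fin (r + M + 1) → Ω) ∘ (Sum.elim
      (Fin.cons 0 fun j : Fin r => (Fin.castAdd M j).succ)
      (fun i : Fin M => (Fin.natAdd r i).succ) : Fin (r + 1) ⊕ Fin M → Fin (r + M + 1)) := by
    funext i
    rcases i with i | i
    · simp only [Function.comp_apply, Sum.elim_inl]
      refine Fin.cases ?_ (fun i => ?_) i
      · rw [Fin.cons_zero, Fin.cons_zero, Fin.cons_zero]
      · rw [Fin.cons_succ, Fin.cons_succ, Fin.cons_succ, Fin.append_left]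
    · simp only [Function.comp_apply, Sum.elim_inr]
      rw [Fin.cons_succ, Fin.append_right]
  rw [h3]
  exact h2

/-- Adding `1` in front. -/
theorem li_cons_one {F Ω : Type} [Field F] [Field Ω] [Algebra F Ω] {n : ℕ} {u : Fin n → Ω}
    (h : LinearIndependent F (Sum.elim (fun _ : Fin 1 => (1 : Ω)) u)) :
    LinearIndependent F (Fin.cons 1 u : Fin (n + 1) → Ω) := by
  have h2 : Function.Injective (Fin.cons (Sum.inl 0) Sum.inr :
      Fin (n + 1) → Fin 1 ⊕ Fin n) := by
    rw [Fin.cons_injective_iff]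
    refine ⟨?_, Sum.inr_injective⟩
    rintro ⟨i, hi⟩
    exact absurd hi (by simp)
  have h3 : (Fin.cons 1 u : Fin (n + 1) → Ω) = (Sum.elim (fun _ : Fin 1 => (1 : Ω)) u) ∘
      (Fin.cons (Sum.inl 0) Sum.inr : Fin (n + 1) → Fin 1 ⊕ Fin n) := by
    funext i
    rw [Function.comp_apply]
    refine Fin.cases ?_ (fun i => ?_) i
    · rw [Fin.cons_zero, Fin.cons_zero, Sum.elim_inl]
    · rw [Fin.cons_succ, Fin.cons_succ, Sum.elim_inr]
  rw [h3]
  exact h.comp _ h2

/-- Division by `w`. -/
theorem li_div {F Ω : Type} [Field F] [Field Ω] [Algebra F Ω] {r M : ℕ} {w : Ω}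
    {u : Fin r → Ω} {v : Fin M → Ω} (hw0 : w ≠ 0)
    (h : LinearIndependent F (Sum.elim (Fin.cons w u : Fin (r + 1) → Ω) v)) :
    LinearIndependent F (Sum.elim (Fin.cons 1 (fun j => u j / w) : Fin (r + 1) → Ω)
      fun i => v i / w) := by
  have h1 := h.map' (LinearMap.mulRight F w⁻¹) (by
    rw [LinearMap.ker_eq_bot]
    intro x x' hxx
    simp only [LinearMap.mulRight_apply] at hxx
    exact mul_right_cancel₀ (inv_ne_zero hw0) hxx)
  have h3 : (Sum.elim (Fin.cons 1 (fun j => u j / w) : Fin (r + 1) → Ω) fun i => v i / w) =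
      (LinearMap.mulRight F w⁻¹) ∘ (Sum.elim (Fin.cons w u : Fin (r + 1) → Ω) v) := by
    funext i
    rw [Function.comp_apply, LinearMap.mulRight_apply]
    rcases i with i | i
    · simp only [Sum.elim_inl]
      refine Fin.cases ?_ (fun i => ?_) i
      · rw [Fin.cons_zero, Fin.cons_zero, mul_inv_cancel₀ hw0]
      · rw [Fin.cons_succ, Fin.cons_succ, div_eq_mul_inv]
    · simp only [Sum.elim_inr]
      rw [div_eq_mul_inv]
  rw [h3]
  exact h1

/-- The linear independence of `w` and the logarithms over the algebraic numbers. -/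
theorem li_w (hB : StBakerI) {L : PadicAlgCl p → PadicAlgCl p} (hL : IsIwasawaLog p L) {r M : ℕ}
    (a : Fin M → PadicAlgCl p) (ha : ∀ i, a i ≠ 0 ∧ IsAlgebraic ℚ (a i))
    (b : Fin r → PadicAlgCl p) (hb : ∀ j, b j ≠ 0 ∧ IsAlgebraic ℚ (b j)) (w : PadicAlgCl p)
    (hw : (w = 1 ∧ LinearIndependent ℚ
        (Fin.append (fun j => L (b j)) (fun i => L (a i)) : Fin (r + M) → PadicAlgCl p)) ∨
      ∃ b₀, b₀ ≠ 0 ∧ IsAlgebraic ℚ b₀ ∧ w = L b₀ ∧ LinearIndependent ℚ
        (Fin.cons (L b₀) (Fin.append (fun j => L (b j)) (fun i => L (a i))) :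
          Fin (r + M + 1) → PadicAlgCl p)) :
    LinearIndependent (algebraicClosure ℚ (PadicAlgCl p))
      (Sum.elim (Fin.cons w (fun j => L (b j)) : Fin (r + 1) → PadicAlgCl p)
        fun i => L (a i)) := by
  have hc : ∀ i, (Fin.append b a : Fin (r + M) → PadicAlgCl p) i ≠ 0 ∧
      IsAlgebraic ℚ ((Fin.append b a : Fin (r + M) → PadicAlgCl p) i) := by
    intro i
    refine Fin.addCases (fun j => ?_) (fun j => ?_) i
    · rw [Fin.append_left]
      exact hb j
    · rw [Fin.append_right]
      exact ha j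
  have happ : (fun i => L ((Fin.append b a : Fin (r + M) → PadicAlgCl p) i)) =
      (Fin.append (fun j => L (b j)) (fun i => L (a i)) : Fin (r + M) → PadicAlgCl p) := by
    funext i
    refine Fin.addCases (fun j => ?_) (fun j => ?_) i
    · rw [Fin.append_left, Fin.append_left]
    · rw [Fin.append_right, Fin.append_right]
  apply li_append
  rcases hw with ⟨hw1, hli⟩ | ⟨b₀, hb0, hb1, hw1, hli⟩
  · have h1 := Finalaux.li_one hB hL (Fin.append b a : Fin (r + M) → PadicAlgCl p)
      (fun i => (hc i).1) (fun i => (hc i).2) (by rw [happ]; exact hli)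
    rw [happ] at h1
    rw [hw1]
    exact li_cons_one h1
  · have hcons : (fun i => L ((Fin.cons b₀ (Fin.append b a) : Fin (r + M + 1) → PadicAlgCl p) i)) =
        (Fin.cons (L b₀) (Fin.append (fun j => L (b j)) (fun i => L (a i))) :
          Fin (r + M + 1) → PadicAlgCl p) := by
      funext i
      refine Fin.cases rfl (fun i => ?_) i
      rw [Fin.cons_succ, Fin.cons_succ]
      exact congrFun happ i
    have h1 := li_hom hB hL (Fin.cons b₀ (Fin.append b a) : Fin (r + M + 1) → PadicAlgCl p)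
      (fun i => by
        refine Fin.cases ?_ (fun i => ?_) i
        · exact hb0
        · exact (hc i).1)
      (fun i => by
        refine Fin.cases ?_ (fun i => ?_) i
        · exact hb1
        · exact (hc i).2)
      (by rw [hcons]; exact hli)
    rw [hcons] at h1
    rw [hw1]
    exact h1

end Projaux

open Projaux Finalaux

/-- The elements of a group with a homogeneous relation of degree `d` with `w` (which is `1` or a
logarithm), given logarithms and further numbers. -/
theorem projective (hF : StFam) (hR : StRank) (hB : StBakerI) {p : ℕ} [Fact p.Prime]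
    {L : PadicAlgCl p → PadicAlgCl p} (hL : IsIwasawaLog p L) {r q d M : ℕ} (hd : 1 ≤ d)
    (a : Fin M → PadicAlgCl p) (ha : ∀ i, a i ≠ 0 ∧ IsAlgebraic ℚ (a i))
    (b : Fin r → PadicAlgCl p) (hb : ∀ j, b j ≠ 0 ∧ IsAlgebraic ℚ (b j))
    (t : Fin q → PadicAlgCl p) (w : PadicAlgCl p)
    (hw : (w = 1 ∧ LinearIndependent ℚ
        (Fin.append (fun j => L (b j)) (fun i => L (a i)) : Fin (r + M) → PadicAlgCl p)) ∨
      ∃ b₀, b₀ ≠ 0 ∧ IsAlgebraic ℚ b₀ ∧ w = L b₀ ∧ LinearIndependent ℚ
        (Fin.cons (L b₀) (Fin.append (fun j => L (b j)) (fun i => L (a i))) :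
          Fin (r + M + 1) → PadicAlgCl p))
    (ht : (r = 1 ∧ q = 0) ∨ AlgebraicIndependent ℚ (fun j : Fin (r + q) =>
      (Fin.append (fun j => L (b j)) t : Fin (r + q) → PadicAlgCl p) j / w))
    (y : PadicAlgCl p) :
    ∃ E : Finset ((Fin M → ℤ) × AddSubgroup (Fin M → ℤ)),
      (∀ e ∈ E, Module.finrank ℤ e.2 ≤ (r + q + d).choose d - 1 - r) ∧
      (y = 0 → ∀ e ∈ E, e.1 = 0) ∧
      ∀ k : Fin M → ℤ,
        (∃ P : MvPolynomial (Fin (r + q + 2)) (PadicAlgCl p), P ≠ 0 ∧ P.IsHomogeneous d ∧
          (∀ m, IsAlgebraic ℚ (P.coeff m)) ∧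
          MvPolynomial.eval (Fin.cons (y + L (∏ i, a i ^ k i))
            (Fin.cons w (Fin.append (fun j => L (b j)) t))) P = 0) →
        ∃ e ∈ E, k - e.1 ∈ e.2 := by
  have : IsAlgClosed (algebraicClosure ℚ (PadicAlgCl p)) :=
    (algebraicClosure.isAlgClosure ℚ (PadicAlgCl p)).isAlgClosed
  have : Algebra.IsAlgebraic ℚ (algebraicClosure ℚ (PadicAlgCl p)) :=
    algebraicClosure.isAlgebraic ℚ (PadicAlgCl p)
  have hli0 := li_w hB hL a ha b hb w hw
  have hw0 : w ≠ 0 := by
    have := hli0.ne_zero (Sum.inl 0)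
    simpa using this
  -- division by `w`
  have hli1 : LinearIndependent (algebraicClosure ℚ (PadicAlgCl p))
      (Sum.elim (Fin.cons 1 (fun j => L (b j) / w) : Fin (r + 1) → PadicAlgCl p)
        fun i => L (a i) / w) := li_div hw0 hli0
  -- algebraic independence
  have ht1 : AlgebraicIndependent ℚ (fun j : Fin (r + q) =>
      (Fin.append (fun j => L (b j)) t : Fin (r + q) → PadicAlgCl p) j / w) := by
    rcases ht with ⟨hr, hq⟩ | ht
    · subst hr
      subst hq
      have htr : AlgebraicIndependent ℚ (fun _ : Fin 1 => L (b 0) / w) := by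
        rw [algebraicIndependent_unique_type_iff]
        intro halgL
        have h3 := hli1.comp (Sum.inl : Fin (1 + 1) → Fin (1 + 1) ⊕ Fin M) Sum.inl_injective
        rw [Fintype.linearIndependent_iff] at h3
        have h4 := h3 (Fin.cons (-⟨L (b 0) / w, mem_algebraicClosure_iff.2 halgL⟩) fun _ => 1) (by
          rw [Fin.sum_univ_two]
          simp only [Function.comp_apply, Sum.elim_inl, Fin.cons_zero, Fin.cons_one, one_smul,
            neg_smul]
          rw [Algebra.smul_def, mul_one]
          exact neg_add_cancel (L (b 0) / w)) 1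
        simp at h4
      have heq : (fun j : Fin (1 + 0) =>
          (Fin.append (fun j => L (b j)) t : Fin (1 + 0) → PadicAlgCl p) j / w) =
          fun _ : Fin 1 => L (b 0) / w := by
        funext i
        refine Fin.addCases (fun j => ?_) (fun j => j.elim0) i
        rw [Fin.append_left, Subsingleton.elim j 0]
      rw [heq]
      exact htr
    · exact ht
  have ht' : AlgebraicIndependent (algebraicClosure ℚ (PadicAlgCl p)) (fun j : Fin (r + q) =>
      (Fin.append (fun j => L (b j)) t : Fin (r + q) → PadicAlgCl p) j / w) :=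
    ht1.extendScalars (algebraicClosure ℚ (PadicAlgCl p))
  obtain ⟨E, h1, h2, h3⟩ := cosets hF hR (F := algebraicClosure ℚ (PadicAlgCl p)) (d := d) ht' hd
    (fun i => L (a i) / w) (y / w)
  refine ⟨E, ?_, fun hy => h2 (by rw [hy, zero_div]), ?_⟩
  · intro e he
    have h4 := h1 (r + 1) (Fin.cons 1 fun j => L (b j) / w) (fun j => by
      refine Fin.cases ?_ (fun i => ?_) j
      · exact Submodule.subset_span (Set.mem_insert _ _)
      · refine Submodule.subset_span (Set.mem_insert_of_mem _ ⟨Fin.castAdd q i, ?_⟩)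
        show (Fin.append (fun j => L (b j)) t : Fin (r + q) → PadicAlgCl p)
          (Fin.castAdd q i) / w = _
        rw [Fin.append_left, Fin.cons_succ]) hli1 e he
    rw [Nat.choose_symm_add] at h4
    omega
  · intro k hk
    refine h3 k ?_
    have h4 := not_ind hw0 hk
    have h5 : (y + L (∏ i, a i ^ k i)) / w = y / w +
        ∑ i, ((k i : ℤ) : algebraicClosure ℚ (PadicAlgCl p)) • (L (a i) / w) := by
      rw [log_prod hL Finset.univ a (fun i => (ha i).1) k, add_div, Finset.sum_div]
      congr 1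
      refine Finset.sum_congr rfl fun i _ => ?_
      rw [mul_div_assoc]
      rfl
    rw [h5] at h4
    exact h4

end Pool.Agent.Lib.MP_c50dba_nt.RD
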