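import Pool.Agent.Lib.MP_c50dba_nt.RD.Stmts

set_option autoImplicit false

/-!
A quotient of polynomials which is integral at all primes is a polynomial.
-/

namespace Pool.Agent.Lib.MP_c50dba_nt.RD

open MvPolynomial

theorem stUfd : StUfd := by
  intro F Ω _ _ _ s t hinj h f g hg hfg hV
  obtain ⟨f', g', c, hrel, hf, hg'⟩ :=
    UniqueFactorizationMonoid.exists_reduced_factors' f g hg
  subst hf
  subst hg'
  have hc : c ≠ 0 := fun h0 => hg (by rw [h0, zero_mul])
  have hg0 : g' ≠ 0 := fun h0 => hg (by rw [h0, mul_zero])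
  have hct : aeval t c ≠ (0 : Ω) := fun h0 => hc (hinj (by rw [h0, map_zero]))
  have h1 : h * aeval t g' = aeval t f' := by
    rw [map_mul, map_mul] at hfg
    apply mul_left_cancel₀ hct
    rw [← hfg]
    ring
  by_cases hu : IsUnit g'
  · obtain ⟨u, hu⟩ := hu
    refine ⟨f' * ((u⁻¹ : (MvPolynomial (Fin s) F)ˣ) : MvPolynomial (Fin s) F), ?_⟩
    rw [map_mul, ← h1, ← hu, mul_assoc, ← map_mul, Units.mul_inv, map_one, mul_one]
  · exfalso
    obtain ⟨π, hπ, hdiv⟩ := WfDvdMonoid.exists_irreducible_factor hu hg0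
    have hp : Prime π := hπ.prime
    have hnd : ¬ π ∣ f' := fun hd => hπ.not_isUnit (hrel hd hdiv)
    obtain ⟨V, ⟨hV1, hV2, hV3⟩, hVh⟩ := hV π hp
    obtain ⟨q, hq⟩ := hdiv
    have e1 : V.valuation (aeval t f') = 1 := hV2 f' hnd
    rw [← h1, hq, map_mul, map_mul, map_mul] at e1
    have e2 : V.valuation h * (V.valuation (aeval t π) * V.valuation (aeval t q)) < 1 := by
      calc V.valuation h * (V.valuation (aeval t π) * V.valuation (aeval t q))
          ≤ 1 * (V.valuation (aeval t π) * 1) :=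
            mul_le_mul' hVh (mul_le_mul' le_rfl (hV1 q))
        _ = V.valuation (aeval t π) := by rw [one_mul, mul_one]
        _ < 1 := hV3
    exact absurd e1 (ne_of_lt e2)

end Pool.Agent.Lib.MP_c50dba_nt.RD
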