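import Pool.Agent.Lib.MP_c50dba_nt.RD.Stmts

set_option autoImplicit false

/-!
The analytic upper bound for exponential polynomials in several variables.
-/

namespace Pool.Agent.Lib.MP_c50dba_nt.RD

open scoped BigOperators
open Pool.Agent.Lib.MP_c50dba_nt Pool.Agent.Lib.MP_c50dba_nt.Gen

namespace UpperIaux

open Polynomial

section linear

variable {C : Type} [NormedField C] [IsUltrametricDist C] {R : Type} [CommRing R] [Algebra C R]

/-- Change of coordinates in a linear functional on monomials. -/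
lemma conv_aux {n : ℕ} (Ψ : R →ₗ[C] C) (u v : Fin n → R)
    (Z : Fin n → Fin n → C) (hZ : ∀ σ, v σ = ∑ j, Z σ j • u j) {B : ℝ}
    (hZB : ∀ σ j, ‖Z σ j‖ ≤ B) {N : ℕ} {M : ℝ} (hM0 : 0 ≤ M)
    (hM : ∀ b : Fin n → ℕ, ∑ j, b j = N → ‖Ψ (∏ j, u j ^ b j)‖ ≤ M) :
    ∀ (m : ℕ) (a b : Fin n → ℕ), ∑ j, a j = m → ∑ j, b j + m = N → 0 ≤ B →
      ‖Ψ ((∏ σ, v σ ^ a σ) * ∏ j, u j ^ b j)‖ ≤ B ^ m * M := by
  intro m
  induction m with
  | zero =>
    intro a b ha hb _
    have ha0 : ∀ j, a j = 0 := by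
      intro j
      exact (Finset.sum_eq_zero_iff.mp ha) j (Finset.mem_univ j)
    simp only [ha0, pow_zero, Finset.prod_const_one, one_mul]
    exact hM b (by omega)
  | succ m ih =>
    intro a b ha hb hB
    obtain ⟨σ, hσ⟩ : ∃ σ, a σ ≠ 0 := by
      by_contra h
      push Not at h
      rw [Finset.sum_eq_zero (fun j _ => h j)] at ha
      omega
    obtain ⟨q, hq⟩ := Nat.exists_eq_succ_of_ne_zero hσ
    set a' := Function.update a σ q with ha'
    have ha'sum : ∑ j, a' j = m := by
      have h1 := Finset.add_sum_erase Finset.univ a (Finset.mem_univ σ)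
      have h2 := Finset.add_sum_erase Finset.univ a' (Finset.mem_univ σ)
      have h3 : ∑ j ∈ Finset.univ.erase σ, a' j = ∑ j ∈ Finset.univ.erase σ, a j := by
        apply Finset.sum_congr rfl
        intro j hj
        rw [ha', Function.update_of_ne (Finset.ne_of_mem_erase hj)]
      have h4 : a' σ = q := by rw [ha', Function.update_self]
      rw [h3, h4] at h2
      omega
    have hprod : ∏ τ, v τ ^ a τ = v σ * ∏ τ, v τ ^ a' τ := by
      rw [← Finset.mul_prod_erase Finset.univ _ (Finset.mem_univ σ),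
        ← Finset.mul_prod_erase Finset.univ (fun τ => v τ ^ a' τ) (Finset.mem_univ σ)]
      have h3 : ∏ τ ∈ Finset.univ.erase σ, v τ ^ a' τ = ∏ τ ∈ Finset.univ.erase σ, v τ ^ a τ := by
        apply Finset.prod_congr rfl
        intro j hj
        rw [ha', Function.update_of_ne (Finset.ne_of_mem_erase hj)]
      rw [h3]
      have h4 : a' σ = q := by rw [ha', Function.update_self]
      rw [h4, hq, pow_succ]
      ring
    have hprodu : ∀ j, u j * ∏ i, u i ^ b i = ∏ i, u i ^ (Function.update b j (b j + 1) i) := by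
      intro j
      rw [← Finset.mul_prod_erase Finset.univ _ (Finset.mem_univ j),
        ← Finset.mul_prod_erase Finset.univ (fun i => u i ^ (Function.update b j (b j + 1) i))
          (Finset.mem_univ j)]
      have h3 : ∏ i ∈ Finset.univ.erase j, u i ^ (Function.update b j (b j + 1) i) =
          ∏ i ∈ Finset.univ.erase j, u i ^ b i := by
        apply Finset.prod_congr rfl
        intro i hi
        rw [Function.update_of_ne (Finset.ne_of_mem_erase hi)]
      rw [h3, Function.update_self, pow_succ]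
      ring
    have hsum : Ψ ((∏ τ, v τ ^ a τ) * ∏ j, u j ^ b j) =
        ∑ j, Z σ j * Ψ ((∏ τ, v τ ^ a' τ) *
          ∏ i, u i ^ (Function.update b j (b j + 1) i)) := by
      have h0 : (∏ τ, v τ ^ a τ) * ∏ j, u j ^ b j =
          ∑ j, Z σ j • ((∏ τ, v τ ^ a' τ) * ∏ i, u i ^ (Function.update b j (b j + 1) i)) := by
        rw [hprod, hZ, Finset.sum_mul, Finset.sum_mul]
        apply Finset.sum_congr rfl
        intro j _
        rw [← hprodu, smul_mul_assoc, smul_mul_assoc]
        congr 1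
        ring
      rw [h0, map_sum]
      apply Finset.sum_congr rfl
      intro j _
      rw [map_smul, smul_eq_mul]
    rw [hsum]
    apply IsUltrametricDist.norm_sum_le_of_forall_le_of_nonneg (by positivity)
    intro j _
    rw [norm_mul]
    have h5 : ∑ i, Function.update b j (b j + 1) i + m = N := by
      have h1 := Finset.add_sum_erase Finset.univ b (Finset.mem_univ j)
      have h2 := Finset.add_sum_erase Finset.univ (Function.update b j (b j + 1)) (Finset.mem_univ j)
      have h3 : ∑ i ∈ Finset.univ.erase j, Function.update b j (b j + 1) i =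
          ∑ i ∈ Finset.univ.erase j, b i := by
        apply Finset.sum_congr rfl
        intro i hi
        rw [Function.update_of_ne (Finset.ne_of_mem_erase hi)]
      rw [h3, Function.update_self] at h2
      omega
    calc ‖Z σ j‖ * ‖Ψ ((∏ τ, v τ ^ a' τ) *
          ∏ i, u i ^ (Function.update b j (b j + 1) i))‖ ≤ B * (B ^ m * M) := by
          gcongr
          · exact hZB σ j
          · exact ih a' _ ha'sum h5 hB
      _ = B ^ (m + 1) * M := by rw [pow_succ]; ring

lemma conv {n : ℕ} (Ψ : R →ₗ[C] C) (u v : Fin n → R)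
    (Z : Fin n → Fin n → C) (hZ : ∀ σ, v σ = ∑ j, Z σ j • u j) {B : ℝ} (hB : 0 ≤ B)
    (hZB : ∀ σ j, ‖Z σ j‖ ≤ B) (a : Fin n → ℕ) {M : ℝ} (hM0 : 0 ≤ M)
    (hM : ∀ b : Fin n → ℕ, ∑ j, b j = ∑ j, a j → ‖Ψ (∏ j, u j ^ b j)‖ ≤ M) :
    ‖Ψ (∏ σ, v σ ^ a σ)‖ ≤ B ^ (∑ j, a j) * M := by
  have h := conv_aux Ψ u v Z hZ hZB hM0 hM (∑ j, a j) a 0 rfl (by simp) hB
  simpa using h

end linear

section operator

variable {C : Type} [Field C]

/-- The differential operator with the symbol `f`. -/
noncomputable def op (f : C[X]) : C[X] →ₗ[C] C[X] :=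
  aeval (derivative : Module.End C C[X]) f

lemma op_mul (f g h : C[X]) : op (f * g) h = op f (op g h) := by
  simp [op]

lemma op_add (f g h : C[X]) : op (f + g) h = op f h + op g h := by
  simp [op]

lemma op_C (c : C) (h : C[X]) : op (Polynomial.C c) h = c • h := by
  simp [op]

lemma op_X (h : C[X]) : op X h = derivative h := by
  simp [op]

lemma op_one (h : C[X]) : op 1 h = h := by
  simp [op]

lemma op_smul (c : C) (f h : C[X]) : op (c • f) h = c • op f h := by
  simp [op]

lemma op_X_pow (r : ℕ) (h : C[X]) : op (X ^ r) h = derivative^[r] h := by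
  simp [op, Module.End.pow_apply]

lemma op_sum {ι : Type} (s : Finset ι) (f : ι → C[X]) (h : C[X]) :
    op (∑ i ∈ s, f i) h = ∑ i ∈ s, op (f i) h := by
  simp [op, LinearMap.sum_apply]

lemma eval_op_pow (w : C) (m b : ℕ) (u : C) :
    (op ((Polynomial.C w + X) ^ m) (X ^ b)).eval u = pe b w u m := by
  rw [add_comm, add_pow, op_sum, eval_finsetSum, pe]
  apply Finset.sum_congr rfl
  intro r _
  have h1 : (X : C[X]) ^ r * Polynomial.C w ^ (m - r) * (m.choose r : C[X]) =
      Polynomial.C (w ^ (m - r) * (m.choose r : C)) * X ^ r := by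
    rw [map_mul, map_pow, map_natCast]
    ring
  rw [h1, op_mul, op_C, op_X_pow, iterate_derivative_X_pow_eq_natCast_mul, eval_smul, eval_mul,
    eval_natCast, eval_pow, eval_X, smul_eq_mul]
  ring

lemma op_pow_comp (l Y ϖ ζ : C) (hϖ : ϖ ≠ 0) (m : ℕ) : ∀ G : C[X],
    (op ((Polynomial.C l + Polynomial.C Y * X) ^ m) G).comp
        (Polynomial.C ζ + Polynomial.C (Y / ϖ) * X) =
      ϖ ^ m • op ((Polynomial.C (l / ϖ) + X) ^ m)
        (G.comp (Polynomial.C ζ + Polynomial.C (Y / ϖ) * X)) := by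
  induction m with
  | zero =>
    intro G
    simp [op_one]
  | succ m ih =>
    intro G
    rw [pow_succ, op_mul, ih, pow_succ, pow_succ, op_mul]
    have h1 : (op (Polynomial.C l + Polynomial.C Y * X) G).comp
        (Polynomial.C ζ + Polynomial.C (Y / ϖ) * X) =
        ϖ • op (Polynomial.C (l / ϖ) + X) (G.comp (Polynomial.C ζ + Polynomial.C (Y / ϖ) * X)) := by
      rw [op_add, op_add, op_mul, op_C, op_C, op_C, op_X, op_X, derivative_comp]
      simp only [add_comp, smul_comp, derivative_add, derivative_C, derivative_mul, derivative_X,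
        zero_mul, zero_add, mul_one]
      simp only [← smul_eq_C_mul]
      rw [smul_add, smul_smul, mul_div_cancel₀ _ hϖ, smul_smul, mul_div_cancel₀ _ hϖ]
    rw [h1, map_smul, smul_smul]

lemma op_degree (D₀ : ℕ) (P G : C[X]) (hG : G ∈ degreeLT C D₀) : op P G ∈ degreeLT C D₀ := by
  induction P using Polynomial.induction_on' with
  | add p q hp hq =>
    rw [op_add]
    exact Submodule.add_mem _ hp hq
  | monomial n a =>
    rw [← Polynomial.C_mul_X_pow_eq_monomial, op_mul, op_C, op_X_pow]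
    apply Submodule.smul_mem
    induction n with
    | zero => exact hG
    | succ n ih =>
      rw [Function.iterate_succ_apply']
      rw [mem_degreeLT] at ih ⊢
      refine lt_of_le_of_lt ?_ ih
      exact degree_derivative_le

end operator

section integral

variable {C : Type} [NormedField C] [IsUltrametricDist C]

/-- All coefficients have norm at most one. -/
def Int1 (f : C[X]) : Prop := ∀ m, ‖f.coeff m‖ ≤ 1

lemma Int1.add {f g : C[X]} (hf : Int1 f) (hg : Int1 g) : Int1 (f + g) := by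
  intro m
  rw [coeff_add]
  exact (IsUltrametricDist.norm_add_le_max _ _).trans (max_le (hf m) (hg m))

lemma Int1.mul {f g : C[X]} (hf : Int1 f) (hg : Int1 g) : Int1 (f * g) := by
  intro m
  rw [coeff_mul]
  apply IsUltrametricDist.norm_sum_le_of_forall_le_of_nonneg zero_le_one
  intro i _
  rw [norm_mul]
  exact mul_le_one₀ (hf _) (norm_nonneg _) (hg _)

omit [IsUltrametricDist C] in
lemma Int1.const {c : C} (hc : ‖c‖ ≤ 1) : Int1 (Polynomial.C c) := by
  intro m
  rw [coeff_C]
  split_ifs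
  · exact hc
  · simp

omit [IsUltrametricDist C] in
lemma Int1.X : Int1 (Polynomial.X : C[X]) := by
  intro m
  rw [coeff_X]
  split_ifs <;> simp

omit [IsUltrametricDist C] in
lemma Int1.one : Int1 (1 : C[X]) := by
  have h : Int1 (Polynomial.C (1 : C)) := Int1.const (by simp)
  simpa using h

omit [IsUltrametricDist C] in
lemma Int1.zero : Int1 (0 : C[X]) := by
  intro m
  simp

lemma Int1.pow {f : C[X]} (hf : Int1 f) (m : ℕ) : Int1 (f ^ m) := by
  induction m with
  | zero => simpa using Int1.one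
  | succ m ih =>
    rw [pow_succ]
    exact ih.mul hf

lemma Int1.prod {ι : Type} (s : Finset ι) (f : ι → C[X]) (hf : ∀ i ∈ s, Int1 (f i)) :
    Int1 (∏ i ∈ s, f i) := by
  classical
  induction s using Finset.induction_on with
  | empty => simpa using Int1.one
  | insert a s ha ih =>
    rw [Finset.prod_insert ha]
    exact (hf a (Finset.mem_insert_self a s)).mul
      (ih (fun i hi => hf i (Finset.mem_insert_of_mem hi)))

lemma Int1.sum {ι : Type} (s : Finset ι) (f : ι → C[X]) (hf : ∀ i ∈ s, Int1 (f i)) :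
    Int1 (∑ i ∈ s, f i) := by
  classical
  induction s using Finset.induction_on with
  | empty => simpa using Int1.zero
  | insert a s ha ih =>
    rw [Finset.sum_insert ha]
    exact (hf a (Finset.mem_insert_self a s)).add
      (ih (fun i hi => hf i (Finset.mem_insert_of_mem hi)))

lemma Int1.derivative {f : C[X]} (hf : Int1 f) : Int1 (derivative f) := by
  intro m
  rw [coeff_derivative, norm_mul]
  refine mul_le_one₀ (hf _) (norm_nonneg _) ?_
  have h := IsUltrametricDist.norm_natCast_le_one C (m + 1)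
  simpa using h

lemma Int1.comp {f g : C[X]} (hf : Int1 f) (hg : Int1 g) : Int1 (f.comp g) := by
  rw [comp_eq_sum_left, Polynomial.sum]
  apply Int1.sum
  intro i _
  exact (Int1.const (hf i)).mul (hg.pow i)

lemma Int1.op {P G : C[X]} (hP : Int1 P) (hG : Int1 G) : Int1 (op P G) := by
  have h1 : UpperIaux.op P G = ∑ i ∈ Finset.range (P.natDegree + 1),
      Polynomial.C (P.coeff i) * (Polynomial.derivative^[i] G) := by
    conv_lhs => rw [P.as_sum_range_C_mul_X_pow]
    rw [op_sum]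
    apply Finset.sum_congr rfl
    intro i _
    rw [op_mul, op_C, op_X_pow, smul_eq_C_mul]
  rw [h1]
  apply Int1.sum
  intro i hi
  clear hi
  refine (Int1.const (hP i)).mul ?_
  induction i with
  | zero => exact hG
  | succ i ih =>
    rw [Function.iterate_succ_apply']
    exact ih.derivative

end integral

section main

open NumberField

variable {p : ℕ} [hp : Fact p.Prime] {C : Type} [NormedField C] [CompleteSpace C]
  [IsUltrametricDist C] [NormedAlgebra ℚ_[p] C] {K : Type} [Field K] [NumberField K]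
  {n g : ℕ}

/-- The point belonging to `s`. -/
def zet (y : Fin n → Fin n → C) (σ₀ : Fin n) (s : Fin n → ℕ) : C := ∑ j, (s j : C) * y j σ₀

/-- The functional belonging to the point `s`. -/
noncomputable def Psi (φ : K →+* C) (A : Fin g → Fin n → K) (y : Fin n → Fin n → C)
    (σ₀ : Fin n) {D₀ D : ℕ} (ξ : Fin D₀ × (Fin g → Fin D) → 𝓞 K) (s : Fin n → ℕ) :
    (Fin D₀ × (Fin g → Fin D) → C[X]) →ₗ[C] C where
  toFun f := ∑ i : Fin D₀ × (Fin g → Fin D),
    (φ (ξ i : K) * φ (apow A (fun j => (i.2 j : ℕ)) s)) *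
      (op (f i) (X ^ (i.1 : ℕ))).eval (zet y σ₀ s)
  map_add' f f' := by
    rw [← Finset.sum_add_distrib]
    apply Finset.sum_congr rfl
    intro i _
    rw [Pi.add_apply, op_add, eval_add, mul_add]
  map_smul' c f := by
    rw [RingHom.id_apply, smul_eq_mul, Finset.mul_sum]
    apply Finset.sum_congr rfl
    intro i _
    rw [Pi.smul_apply, op_smul, eval_smul, smul_eq_mul]
    ring

/-- The elements `v`. -/
noncomputable def vv (φ : K →+* C) (x : Fin g → Fin n → 𝓞 K) (σ₀ : Fin n) {D₀ D : ℕ}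
    (σ : Fin n) (i : Fin D₀ × (Fin g → Fin D)) : C[X] :=
  Polynomial.C (φ (kap x (fun j => (i.2 j : ℕ)) σ : K)) + if σ = σ₀ then X else 0

/-- The elements `u`. -/
noncomputable def uu (φ : K →+* C) (x : Fin g → Fin n → 𝓞 K) (y : Fin n → Fin n → C)
    (σ₀ : Fin n) {D₀ D : ℕ} (j : Fin n) (i : Fin D₀ × (Fin g → Fin D)) : C[X] :=
  Polynomial.C (ell φ x y (fun j => (i.2 j : ℕ)) j) + Polynomial.C (y j σ₀) * X

omit [CompleteSpace C] [IsUltrametricDist C] [NumberField K] in
lemma uu_eq (φ : K →+* C) (x : Fin g → Fin n → 𝓞 K) (y : Fin n → Fin n → C)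
    (σ₀ : Fin n) {D₀ D : ℕ} (j : Fin n) :
    (uu φ x y σ₀ j : Fin D₀ × (Fin g → Fin D) → C[X]) = ∑ σ, y j σ • vv φ x σ₀ σ := by
  funext i
  rw [Finset.sum_apply]
  simp only [Pi.smul_apply, vv, uu, smul_add, Finset.sum_add_distrib]
  congr 1
  · unfold ell
    rw [map_sum]
    apply Finset.sum_congr rfl
    intro σ _
    rw [map_mul, smul_eq_C_mul]
  · rw [Finset.sum_eq_single σ₀]
    · rw [if_pos rfl, smul_eq_C_mul]
    · intro σ _ hσ
      rw [if_neg hσ, smul_zero]
    · intro h
      exact absurd (Finset.mem_univ _) h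

omit [CompleteSpace C] [IsUltrametricDist C] [NumberField K] in
lemma vv_eq (φ : K →+* C) (x : Fin g → Fin n → 𝓞 K) (y : Fin n → Fin n → C)
    (hdet : (Matrix.of y).det ≠ 0) (σ₀ : Fin n) {D₀ D : ℕ} (σ : Fin n) :
    (vv φ x σ₀ σ : Fin D₀ × (Fin g → Fin D) → C[X]) =
      ∑ j, (Matrix.of y)⁻¹ σ j • uu φ x y σ₀ j := by
  simp only [uu_eq, Finset.smul_sum, smul_smul]
  rw [Finset.sum_comm]
  simp only [← Finset.sum_smul]
  have h1 : ∀ τ, ∑ j, (Matrix.of y)⁻¹ σ j * y j τ = (1 : Matrix (Fin n) (Fin n) C) σ τ := by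
    intro τ
    rw [← Matrix.nonsing_inv_mul (Matrix.of y) (isUnit_iff_ne_zero.mpr hdet), Matrix.mul_apply]
    rfl
  simp only [h1]
  rw [Finset.sum_eq_single σ]
  · rw [Matrix.one_apply_eq, one_smul]
  · intro τ _ hτ
    rw [Matrix.one_apply_ne (Ne.symm hτ), zero_smul]
  · intro h
    exact absurd (Finset.mem_univ _) h

omit [CompleteSpace C] [IsUltrametricDist C] [NumberField K] in
lemma Psi_vv (φ : K →+* C) (x : Fin g → Fin n → 𝓞 K) (A : Fin g → Fin n → K)
    (y : Fin n → Fin n → C) (σ₀ : Fin n) (η : Fin n → 𝓞 K) (hη : ∀ j, φ (η j : K) = y j σ₀)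
    {D₀ D : ℕ} (ξ : Fin D₀ × (Fin g → Fin D) → 𝓞 K) (s τ : Fin n → ℕ) :
    Psi φ A y σ₀ ξ s (∏ σ, vv φ x σ₀ σ ^ τ σ) = dF φ x A σ₀ η ξ s τ := by
  unfold dF
  change ∑ i : Fin D₀ × (Fin g → Fin D),
    (φ (ξ i : K) * φ (apow A (fun j => (i.2 j : ℕ)) s)) *
      (op ((∏ σ, vv φ x σ₀ σ ^ τ σ) i) (X ^ (i.1 : ℕ))).eval (zet y σ₀ s) = _
  apply Finset.sum_congr rfl
  intro i _
  congr 1
  have h1 : (∏ σ, vv φ x σ₀ σ ^ τ σ : Fin D₀ × (Fin g → Fin D) → C[X]) i =
      Polynomial.C (∏ σ ∈ Finset.univ.erase σ₀, φ (kap x (fun j => (i.2 j : ℕ)) σ : K) ^ τ σ) *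
        (Polynomial.C (φ (kap x (fun j => (i.2 j : ℕ)) σ₀ : K)) + X) ^ τ σ₀ := by
    rw [Finset.prod_apply, ← Finset.prod_erase_mul Finset.univ _ (Finset.mem_univ σ₀)]
    congr 1
    · rw [map_prod]
      apply Finset.prod_congr rfl
      intro σ hσ
      rw [Pi.pow_apply, vv, if_neg (Finset.ne_of_mem_erase hσ), add_zero, map_pow]
    · rw [Pi.pow_apply, vv, if_pos rfl]
  have h2 : φ (∑ j, (s j : K) * (η j : K)) = zet y σ₀ s := by
    rw [map_sum, zet]
    apply Finset.sum_congr rfl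
    intro j _
    rw [map_mul, map_natCast, hη]
  rw [h1, op_mul, op_C, eval_smul, smul_eq_mul, eval_op_pow, h2]

omit [IsUltrametricDist C] [CompleteSpace C] in
lemma sum_update_mul {n : ℕ} (j : Fin n) (s : Fin n → ℕ) (i : ℕ) (f : Fin n → C) :
    ∑ l, ((Function.update s j i l : ℕ) : C) * f l =
      ∑ l, ((Function.update s j 0 l : ℕ) : C) * f l + (i : C) * f j := by
  rw [← Finset.add_sum_erase Finset.univ _ (Finset.mem_univ j),
    ← Finset.add_sum_erase Finset.univ (fun l => ((Function.update s j 0 l : ℕ) : C) * f l)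
      (Finset.mem_univ j)]
  have h2 : ∑ l ∈ Finset.univ.erase j, ((Function.update s j i l : ℕ) : C) * f l =
      ∑ l ∈ Finset.univ.erase j, ((Function.update s j 0 l : ℕ) : C) * f l := by
    apply Finset.sum_congr rfl
    intro l hl
    rw [Function.update_of_ne (Finset.ne_of_mem_erase hl),
      Function.update_of_ne (Finset.ne_of_mem_erase hl)]
  rw [h2, Function.update_self, Function.update_self, Nat.cast_zero, zero_mul, zero_add]
  ring

end main

end UpperIaux

open UpperIaux Polynomial in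
theorem stUpperI (h1 : StExtrapI) : StUpperI := by
  intro p hp C _ _ _ _ K _ _ φ n g hn x y hy hdet A hA σ₀ η hη D₀ D ξ S t hS2 B hB0 hB hV s hs τ hτ
  classical
  have hchar : CharZero C := charZero_of_injective_algebraMap (algebraMap ℚ_[p] C).injective
  have hp2 : ‖(p : C) ^ 2‖ ≤ 1 / 4 := by
    have h1 : ‖(p : C)‖ = (p : ℝ)⁻¹ := by
      have h2 : ‖algebraMap ℚ_[p] C (p : ℚ_[p])‖ = ‖(p : ℚ_[p])‖ := norm_algebraMap' C _
      rw [map_natCast] at h2
      rw [h2, Padic.norm_p]
    rw [norm_pow, h1, inv_pow]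
    have h2 : (2 : ℝ) ≤ p := by exact_mod_cast hp.out.two_le
    rw [inv_le_comm₀ (by positivity) (by norm_num)]
    nlinarith
  have hp0 : (p : C) ^ 2 ≠ 0 := pow_ne_zero _ (by exact_mod_cast hp.out.ne_zero)
  set ϖ : C := (p : C) ^ 2 with hϖdef
  have hy4 : ∀ j σ, ‖y j σ‖ ≤ 1 / 4 := fun j σ => (hy j σ).trans hp2
  have hy1 : ∀ j σ, ‖y j σ‖ ≤ 1 := fun j σ => (hy4 j σ).trans (by norm_num)
  have hell : ∀ k : Fin g → ℕ, ∀ j, ‖ell φ x y k j‖ ≤ ‖ϖ‖ :=
    fun k j => norm_ell_le φ x y (norm_nonneg _) hy k j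
  have hell1 : ∀ k : Fin g → ℕ, ∀ j, ‖ell φ x y k j‖ ≤ 1 := fun k j =>
    (hell k j).trans (hp2.trans (by norm_num))
  have hφa : ∀ (k : Fin g → ℕ) (s : Fin n → ℕ), ‖φ (apow A k s)‖ ≤ 1 := by
    intro k s
    rw [phi_apow (p := p) φ x y hy4 A hA]
    apply norm_ex_le (p := p)
    apply IsUltrametricDist.norm_sum_le_of_forall_le_of_nonneg (by norm_num)
    intro j _
    exact norm_nat_mul_le ((hell k j).trans hp2) _
  have hzet : ∀ s : Fin n → ℕ, ‖zet y σ₀ s‖ ≤ 1 := by
    intro s
    apply IsUltrametricDist.norm_sum_le_of_forall_le_of_nonneg zero_le_one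
    intro j _
    exact norm_nat_mul_le (hy1 j σ₀) _
  have hq0 : (0 : ℝ) ≤ 4 * (1 / 2 : ℝ) ^ S := by positivity
  have hq1 : 4 * (1 / 2 : ℝ) ^ S ≤ 1 := by
    have h9 : (1 / 2 : ℝ) ^ S ≤ (1 / 2) ^ 2 :=
      pow_le_pow_of_le_one (by norm_num) (by norm_num) hS2
    nlinarith
  -- vanishing in the coordinates u
  have hVu : ∀ s : Fin n → ℕ, (∀ j, s j < S) → ∀ a : Fin n → ℕ, ∑ j, a j < t →
      Psi φ A y σ₀ ξ s (∏ j, uu φ x y σ₀ j ^ a j) = 0 := by
    intro s hs a ha
    have h := conv (Psi φ A y σ₀ ξ s) (vv φ x σ₀) (uu φ x y σ₀) y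
      (fun j => uu_eq φ x y σ₀ j) (B := 1) zero_le_one hy1 a (M := 0) le_rfl
      (fun b hb => by
        rw [Psi_vv φ x A y σ₀ η hη ξ s b, hV s hs b (by omega), norm_zero])
    rw [mul_zero, norm_le_zero_iff] at h
    exact h
  -- the bound in the coordinates u
  have hbound : ∀ a : Fin n → ℕ, ∑ j, a j = t →
      ‖Psi φ A y σ₀ ξ s (∏ j, uu φ x y σ₀ j ^ a j)‖ ^ n ≤ (4 * (1 / 2 : ℝ) ^ S) ^ t := by
    intro a ha
    obtain ⟨j, hj⟩ := exists_large hn a
    rw [ha] at hj
    set s₀ : Fin n → ℕ := Function.update s j 0 with hs₀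
    set ζ₀ : C := zet y σ₀ s₀ with hζ₀
    set q : C[X] := Polynomial.C ζ₀ + Polynomial.C (y j σ₀ / ϖ) * X with hq
    have hYϖ : ‖y j σ₀ / ϖ‖ ≤ 1 := by
      rw [norm_div, div_le_one (norm_pos_iff.mpr hp0)]
      exact hy _ _
    have hqI : Int1 q := (Int1.const (hzet _)).add ((Int1.const hYϖ).mul Int1.X)
    let P : Fin D₀ × (Fin g → Fin D) → C[X] := fun i =>
      ∏ l ∈ Finset.univ.erase j, uu φ x y σ₀ l i ^ a l
    have hPI : ∀ i, Int1 (P i) := by
      intro i
      apply Int1.prod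
      intro l _
      exact ((Int1.const (hell1 _ _)).add ((Int1.const (hy1 _ _)).mul Int1.X)).pow _
    let G : Fin D₀ × (Fin g → Fin D) → C[X] := fun i => op (P i) (X ^ (i.1 : ℕ))
    have hGI : ∀ i, Int1 (G i) := fun i => (hPI i).op (Int1.X.pow _)
    have hGd : ∀ i, G i ∈ degreeLT C D₀ := by
      intro i
      apply op_degree
      rw [mem_degreeLT, degree_X_pow]
      exact_mod_cast i.1.2
    have hHd : ∀ i, ((G i).comp q).natDegree < D₀ := by
      intro i
      have hD0 : 0 < D₀ := lt_of_le_of_lt (Nat.zero_le _) i.1.2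
      have h1 := hGd i
      rw [mem_degreeLT] at h1
      have h2 : (G i).natDegree < D₀ := by
        by_cases hG0 : G i = 0
        · rw [hG0, natDegree_zero]
          exact hD0
        · exact (natDegree_lt_iff_degree_lt hG0).mpr h1
      have h3 : q.natDegree ≤ 1 := by
        rw [hq, add_comm]
        exact natDegree_linear_le
      calc ((G i).comp q).natDegree ≤ (G i).natDegree * q.natDegree := natDegree_comp_le
        _ ≤ (G i).natDegree * 1 := Nat.mul_le_mul_left _ h3
        _ < D₀ := by rw [mul_one]; exact h2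
    let c : (Fin D₀ × (Fin g → Fin D)) × Fin D₀ → C := fun k =>
      (φ (ξ k.1 : K) * φ (apow A (fun i => (k.1.2 i : ℕ)) s₀)) * ((G k.1).comp q).coeff (k.2 : ℕ)
    let w : (Fin D₀ × (Fin g → Fin D)) × Fin D₀ → C := fun k =>
      ell φ x y (fun i => (k.1.2 i : ℕ)) j / ϖ
    let b : (Fin D₀ × (Fin g → Fin D)) × Fin D₀ → ℕ := fun k => (k.2 : ℕ)
    have hw : ∀ k, ‖w k‖ ≤ 1 := by
      intro k
      simp only [w]
      rw [norm_div, div_le_one (norm_pos_iff.mpr hp0)]
      exact hell _ _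
    have hc : ∀ k, ‖c k‖ ≤ 1 := by
      intro k
      simp only [c]
      rw [norm_mul, norm_mul]
      have h1 : ‖((G k.1).comp q).coeff (k.2 : ℕ)‖ ≤ 1 := (hGI k.1).comp hqI _
      calc ‖φ (ξ k.1 : K)‖ * ‖φ (apow A (fun i => (k.1.2 i : ℕ)) s₀)‖ *
            ‖((G k.1).comp q).coeff (k.2 : ℕ)‖ ≤ 1 * 1 * 1 := by
            gcongr
            · exact norm_phi_le_one' φ _
            · exact hφa _ _
        _ = 1 := by norm_num
    have hline : ∀ (k : Fin g → ℕ) (i : ℕ),
        φ (apow A k (Function.update s j i)) =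
          φ (apow A k s₀) * ex (ell φ x y k j / ϖ * ((i : C) * ϖ)) := by
      intro k i
      have h1 : ell φ x y k j / ϖ * ((i : C) * ϖ) = (i : C) * ell φ x y k j := by
        field_simp
      rw [h1, phi_apow (p := p) φ x y hy4 A hA, phi_apow (p := p) φ x y hy4 A hA,
        ← ex_add (p := p)]
      · congr 1
        exact sum_update_mul j s i (fun l => ell φ x y k l)
      · apply IsUltrametricDist.norm_sum_le_of_forall_le_of_nonneg (by norm_num)
        intro l _
        exact norm_nat_mul_le ((hell k l).trans hp2) _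
      · exact norm_nat_mul_le ((hell k j).trans hp2) _
    have hzline : ∀ i : ℕ, zet y σ₀ (Function.update s j i) = q.eval ((i : C) * ϖ) := by
      intro i
      rw [hq, eval_add, eval_mul, eval_C, eval_C, eval_X, hζ₀, hs₀]
      have h1 : y j σ₀ / ϖ * ((i : C) * ϖ) = (i : C) * y j σ₀ := by
        field_simp
      rw [h1]
      exact sum_update_mul j s i (fun l => y l σ₀)
    have hprodu : ∀ (i : Fin D₀ × (Fin g → Fin D)) (m : ℕ),
        (∏ l, uu φ x y σ₀ l ^ (Function.update a j m l) : Fin D₀ × (Fin g → Fin D) → C[X]) i =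
          uu φ x y σ₀ j i ^ m * P i := by
      intro i m
      rw [Finset.prod_apply, ← Finset.mul_prod_erase Finset.univ _ (Finset.mem_univ j)]
      congr 1
      · rw [Pi.pow_apply, Function.update_self]
      · apply Finset.prod_congr rfl
        intro l hl
        rw [Pi.pow_apply, Function.update_of_ne (Finset.ne_of_mem_erase hl)]
    have hsum : ∀ (i m : ℕ),
        Psi φ A y σ₀ ξ (Function.update s j i)
          (∏ l, uu φ x y σ₀ l ^ (Function.update a j m l)) =
        ϖ ^ m * ∑ k, c k * pe (b k) (w k) ((i : C) * ϖ) m * ex (w k * ((i : C) * ϖ)) := by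
      intro i m
      change ∑ i' : Fin D₀ × (Fin g → Fin D),
        (φ (ξ i' : K) * φ (apow A (fun j => (i'.2 j : ℕ)) (Function.update s j i))) *
          (op ((∏ l, uu φ x y σ₀ l ^ (Function.update a j m l)) i') (X ^ (i'.1 : ℕ))).eval
            (zet y σ₀ (Function.update s j i)) = _
      rw [Fintype.sum_prod_type (f := fun k => c k * pe (b k) (w k) ((i : C) * ϖ) m *
        ex (w k * ((i : C) * ϖ))), Finset.mul_sum]
      apply Finset.sum_congr rfl
      intro i' _
      rw [hprodu, op_mul, hzline, ← eval_comp]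
      have h2 : (op (uu φ x y σ₀ j i' ^ m) (op (P i') (X ^ (i'.1 : ℕ)))).comp q =
          ϖ ^ m • op ((Polynomial.C (ell φ x y (fun j => (i'.2 j : ℕ)) j / ϖ) + X) ^ m)
            ((G i').comp q) := op_pow_comp _ _ _ _ hp0 m (G i')
      rw [h2, eval_smul, smul_eq_mul, hline]
      have h3 : (op ((Polynomial.C (ell φ x y (fun j => (i'.2 j : ℕ)) j / ϖ) + X) ^ m)
            ((G i').comp q)).eval ((i : C) * ϖ) = ∑ e : Fin D₀, ((G i').comp q).coeff (e : ℕ) *
              pe (e : ℕ) (ell φ x y (fun j => (i'.2 j : ℕ)) j / ϖ) ((i : C) * ϖ) m := by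
        conv_lhs => rw [as_sum_range' ((G i').comp q) D₀ (hHd i')]
        rw [map_sum, eval_finsetSum, Finset.sum_range]
        apply Finset.sum_congr rfl
        intro e _
        rw [← C_mul_X_pow_eq_monomial, ← smul_eq_C_mul, map_smul, eval_smul, smul_eq_mul,
          eval_op_pow]
      rw [h3, Finset.mul_sum, Finset.mul_sum, Finset.mul_sum]
      apply Finset.sum_congr rfl
      intro e _
      simp only [c, w, b]
      ring
    have hzero : ∀ i < S, ∀ m < a j,
        ∑ k, c k * pe (b k) (w k) ((i : C) * ϖ) m * ex (w k * ((i : C) * ϖ)) = 0 := by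
      intro i hi m hm
      have h2 : ∑ l, Function.update a j m l < t := by
        have h3 := Finset.add_sum_erase Finset.univ a (Finset.mem_univ j)
        have h4 := Finset.add_sum_erase Finset.univ (Function.update a j m) (Finset.mem_univ j)
        have h5 : ∑ i ∈ Finset.univ.erase j, Function.update a j m i =
            ∑ i ∈ Finset.univ.erase j, a i := by
          apply Finset.sum_congr rfl
          intro i hi
          rw [Function.update_of_ne (Finset.ne_of_mem_erase hi)]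
        rw [h5, Function.update_self] at h4
        omega
      have h6 : ∀ l, Function.update s j i l < S := by
        intro l
        by_cases hl : l = j
        · subst hl
          rwa [Function.update_self]
        · rw [Function.update_of_ne hl]
          exact hs l
      have h7 := hsum i m
      rw [hVu _ h6 _ h2] at h7
      rcases mul_eq_zero.mp h7.symm with h8 | h8
      · exact absurd h8 (pow_ne_zero _ hp0)
      · exact h8
    have hfin := h1 p C _ c w b hc hw ϖ hp2 hp0 S (a j) hzero (s j)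
    have h8 := hsum (s j) (a j)
    rw [Function.update_eq_self, Function.update_eq_self] at h8
    have h9 : ‖Psi φ A y σ₀ ξ s (∏ l, uu φ x y σ₀ l ^ a l)‖ ≤ (4 * (1 / 2 : ℝ) ^ S) ^ (a j) := by
      rw [h8, norm_mul, norm_pow]
      calc ‖ϖ‖ ^ a j * _ ≤ 1 * (4 ^ (a j) * (1 / 2) ^ (S * a j)) := by
            gcongr
            exact pow_le_one₀ (norm_nonneg _) (hp2.trans (by norm_num))
        _ = (4 * (1 / 2 : ℝ) ^ S) ^ (a j) := by rw [one_mul, mul_pow, ← pow_mul]
    calc ‖Psi φ A y σ₀ ξ s (∏ l, uu φ x y σ₀ l ^ a l)‖ ^ n ≤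
          ((4 * (1 / 2 : ℝ) ^ S) ^ (a j)) ^ n := by gcongr
      _ = (4 * (1 / 2 : ℝ) ^ S) ^ (n * a j) := by rw [← pow_mul, Nat.mul_comm (a j) n]
      _ ≤ (4 * (1 / 2 : ℝ) ^ S) ^ t := pow_le_pow_of_le_one hq0 hq1 hj
  -- back to the coordinates v
  have hn0 : n ≠ 0 := by omega
  set M : ℝ := ((4 * (1 / 2 : ℝ) ^ S) ^ t) ^ ((n : ℝ)⁻¹) with hM
  have hM0 : 0 ≤ M := Real.rpow_nonneg (pow_nonneg hq0 _) _
  have hMn : M ^ n = (4 * (1 / 2 : ℝ) ^ S) ^ t := Real.rpow_inv_natCast_pow (pow_nonneg hq0 _) hn0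
  have hfin := conv (Psi φ A y σ₀ ξ s) (uu φ x y σ₀) (vv φ x σ₀) (fun σ j => (Matrix.of y)⁻¹ σ j)
    (fun σ => vv_eq φ x y hdet σ₀ σ) hB0 hB τ hM0 (by
      intro a ha
      rw [hτ] at ha
      have h2 := hbound a ha
      rw [← hMn] at h2
      exact (pow_le_pow_iff_left₀ (norm_nonneg _) hM0 hn0).mp h2)
  rw [hτ, Psi_vv φ x A y σ₀ η hη ξ s τ] at hfin
  calc ‖dF φ x A σ₀ η ξ s τ‖ ^ n ≤ (B ^ t * M) ^ n := by gcongr
    _ = (B ^ t) ^ n * (4 * (1 / 2 : ℝ) ^ S) ^ t := by rw [mul_pow, hMn]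

end Pool.Agent.Lib.MP_c50dba_nt.RD
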